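import Pool.Agent.Q236.PD.Dual
import Pool.Agent.TH872.Mir5
import Pool.Agent.W93.AU18

/-! Palindromes and shifts, part 2: bad pairs are rare. -/

set_option autoImplicit false

namespace Pool.Agent.Q236.PD

open Finset
open Pool.Agent.H373R2.T7
open Pool.Agent.W93.AU
open Pool.Agent.TH872.Mir

open Classical in
/-- the correlations of `Λ - Λ_z` with an arbitrary function, along a random shift with mirror-dependent digits -/
theorem bad_pairs (b : ℕ) (hb : 2 ≤ b) (η : ℝ) (hη : 0 < η) (κ : ℕ) (hκ : 1 ≤ κ) (s C T U : ℕ) :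
    ∃ B0 : ℕ, ∀ Ez : ℕ, ∃ m0 : ℕ, ∀ m : ℕ, m0 ≤ m → ∀ k : ℕ, k = 2 * m + s → ∀ z : ℕ,
    Real.log ((b ^ k : ℕ) : ℝ) ^ B0 ≤ z → (z : ℝ) ≤ Real.log ((b ^ k : ℕ) : ℝ) ^ Ez →
    ∀ w : ℕ → ℕ × ℕ → ℝ, Mirr b m η w → ∀ cc : ℤ, |cc| ≤ C * (b : ℤ) ^ k → ∀ Q : ℕ, Q ≤ C * b ^ k →
    ∀ G : ℕ → ℝ, (∀ n, |G n| ≤ (k : ℝ) ^ T) →
    ∑ g ∈ Gs b m, (if (∃ N ≤ Q, ((b ^ k : ℕ) : ℝ) / (k : ℝ) ^ U <
      |∑ n ∈ Icc 1 N, G n * dI z ((n : ℤ) + (cc + (κ : ℤ) * (val b k g : ℕ)))|) then pw w g else 0) ≤ 1 / (k : ℝ) ^ U := by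
  obtain ⟨e, he⟩ : ∃ e, e = 2 * C + 2 * κ + 2 := ⟨_, rfl⟩
  obtain ⟨D, hD⟩ := mir_law b hb η hη (κ : ℤ) e s (4 * (U + 1) + 3 * T + 7 + 6)
  obtain ⟨B0', h0⟩ := law_prob b (FF0 b (κ : ℤ)) hb (FF0_pos b (κ : ℤ) (by omega)) T (U + 1) D
  refine ⟨2 * B0', fun Ez => ?_⟩
  obtain ⟨K0, h0⟩ := h0 Ez
  refine ⟨K0 + b ^ e + e + 4, fun m hm k hk z hz1 hz2 w hw cc hcc Q hQ G hG => ?_⟩
  have hbr : (2 : ℝ) ≤ b := by exact_mod_cast hb
  have hb0 : (0 : ℝ) < b := by linarith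
  have hbe : 0 < b ^ e := by positivity
  obtain ⟨K, hK⟩ : ∃ K, K = 2 * m + s + e := ⟨_, rfl⟩
  have hKk : K = k + e := by omega
  have hlaw := hD m K hK (by omega) w hw cc
  rw [← hk] at hlaw
  obtain ⟨L, hL⟩ : ∃ L, L = Real.log ((b ^ k : ℕ) : ℝ) := ⟨_, rfl⟩
  have hLe : L = k * Real.log b := by rw [hL]; push_cast; rw [Real.log_pow]
  have hLK : Real.log ((b ^ K : ℕ) : ℝ) = K * Real.log b := by push_cast; rw [Real.log_pow]
  have hlb : 1 / 2 ≤ Real.log b := by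
    have q1 : Real.log 2 ≤ Real.log b := Real.log_le_log (by norm_num) hbr
    linarith [Real.log_two_gt_d9]
  have hk4 : (4 : ℝ) ≤ k := by exact_mod_cast (by omega : 4 ≤ k)
  have hL2 : 2 ≤ L := by rw [hLe]; nlinarith
  have hL2K : Real.log ((b ^ K : ℕ) : ℝ) ≤ 2 * L := by
    rw [hLK, hLe]
    have h1 : (K : ℝ) ≤ 2 * k := by exact_mod_cast (by omega : K ≤ 2 * k)
    nlinarith
  have hLLK : L ≤ Real.log ((b ^ K : ℕ) : ℝ) := by
    rw [hLK, hLe]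
    have h1 : (k : ℝ) ≤ K := by exact_mod_cast (by omega : k ≤ K)
    nlinarith
  have hz1' : Real.log ((b ^ K : ℕ) : ℝ) ^ B0' ≤ z := by
    refine le_trans ?_ hz1
    rw [← hL, pow_mul]
    apply pow_le_pow_left₀ (by linarith)
    refine hL2K.trans ?_
    rw [sq]
    exact mul_le_mul_of_nonneg_right hL2 (by linarith)
  have hz2' : (z : ℝ) ≤ Real.log ((b ^ K : ℕ) : ℝ) ^ Ez := by
    refine hz2.trans ?_
    rw [← hL]
    exact pow_le_pow_left₀ (by linarith) hLLK _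
  have hpow : (2 * C + 2 * κ + 2) * b ^ k ≤ b ^ K := by
    rw [hKk, pow_add, mul_comm (b ^ k)]
    apply Nat.mul_le_mul_right
    calc 2 * C + 2 * κ + 2 = e := he.symm
      _ ≤ 2 ^ e := (Nat.lt_two_pow_self).le
      _ ≤ b ^ e := Nat.pow_le_pow_left hb e
  have hbk : 0 < b ^ k := by positivity
  have hval : ∀ g ∈ Gs b m, val b k g < 2 * b ^ k := by
    intro g hg
    rw [hk]
    exact val_lt b m s (by omega) g hg
  have hG' : ∀ n, |G n| ≤ (K : ℝ) ^ T := by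
    intro n
    refine (hG n).trans ?_
    apply pow_le_pow_left₀ (by positivity)
    exact_mod_cast (by omega : k ≤ K)
  have hKr : (0 : ℝ) < K := by exact_mod_cast (by omega : 0 < K)
  have hkr : (0 : ℝ) < k := by linarith
  have hthr : ((b ^ K : ℕ) : ℝ) / (K : ℝ) ^ (U + 1) ≤ ((b ^ k : ℕ) : ℝ) / (k : ℝ) ^ U := by
    rw [div_le_div_iff₀ (by positivity) (by positivity)]
    have e1 : ((b ^ K : ℕ) : ℝ) = ((b ^ e : ℕ) : ℝ) * ((b ^ k : ℕ) : ℝ) := by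
      rw [hKk]; push_cast; rw [pow_add]; ring
    rw [e1]
    have e2 : ((b ^ e : ℕ) : ℝ) ≤ K := by exact_mod_cast (by omega : b ^ e ≤ K)
    have e3 : (k : ℝ) ^ U ≤ (K : ℝ) ^ U := by
      apply pow_le_pow_left₀ (by positivity)
      exact_mod_cast (by omega : k ≤ K)
    calc ((b ^ e : ℕ) : ℝ) * ((b ^ k : ℕ) : ℝ) * (k : ℝ) ^ U ≤ (K : ℝ) * ((b ^ k : ℕ) : ℝ) * (K : ℝ) ^ U := by gcongr
      _ = _ := by rw [pow_succ]; ring
  have key := h0 K (by omega) z hz1' hz2' (Fin m → ℕ × ℕ) (Gs b m) (pw w)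
    (fun g => cc + (κ : ℤ) * (val b k g : ℕ)) hlaw Q (by
      intro g hg
      have h1 := hval g hg
      have h2 : |cc + (κ : ℤ) * (val b k g : ℕ)| ≤ C * (b : ℤ) ^ k + κ * (2 * (b : ℤ) ^ k) := by
        refine (abs_add_le _ _).trans (add_le_add hcc ?_)
        rw [abs_mul, abs_of_nonneg (by positivity : (0 : ℤ) ≤ κ), abs_of_nonneg (by positivity)]
        apply mul_le_mul_of_nonneg_left _ (by positivity)
        exact_mod_cast h1.le
      have h3 : ((2 * C + 2 * κ + 2 : ℕ) : ℤ) * (b : ℤ) ^ k ≤ (b : ℤ) ^ K := by exact_mod_cast hpow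
      have h4 : (Q : ℤ) ≤ C * (b : ℤ) ^ k := by exact_mod_cast hQ
      have h5 : (0 : ℤ) < (b : ℤ) ^ k := by exact_mod_cast hbk
      rw [abs_le] at h2
      push_cast at h3 ⊢
      constructor
      · nlinarith [h2.1]
      · nlinarith [h2.2]) (by
      refine hQ.trans (le_trans ?_ hpow)
      apply Nat.mul_le_mul_right
      omega) G hG' (fun g => ∃ N ≤ Q, ((b ^ k : ℕ) : ℝ) / (k : ℝ) ^ U <
      |∑ n ∈ Icc 1 N, G n * dI z ((n : ℤ) + (cc + (κ : ℤ) * (val b k g : ℕ)))|) (by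
      intro g _ h
      left
      obtain ⟨N, hN, h⟩ := h
      exact ⟨N, hN, lt_of_le_of_lt hthr h⟩)
  refine (le_trans (le_of_eq ?_) key).trans ?_
  · apply sum_congr rfl
    intro g _
    congr 1
  · apply one_div_le_one_div_of_le (by positivity)
    calc (k : ℝ) ^ U ≤ (K : ℝ) ^ U := by
          apply pow_le_pow_left₀ (by positivity)
          exact_mod_cast (by omega : k ≤ K)
      _ ≤ (K : ℝ) ^ (U + 1) := by
          apply pow_le_pow_right₀ _ (by omega)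
          exact_mod_cast (by omega : 1 ≤ K)

end Pool.Agent.Q236.PD
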