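import Pool.Agent.Q236.PD.Main
import Pool.Agent.H373R2.T7.BilF

/-! Palindromes and shifts, part 5: the characteristic function at rational points. -/

set_option autoImplicit false

namespace Pool.Agent.Q236.PD

open Finset
open Pool.Agent.H807R2.Dav
open Pool.Agent.H373R2.T7
open Pool.Agent.TH872.Mir
open Pool.Agent.TH872.Tr (Pairs)

lemma exists_far (b : ℕ) (hb : 2 ≤ b) (J : ℕ) : ∀ (x ρ : ℝ), (∀ n : ℤ, ρ ≤ |x - n|) → 1 / (b : ℝ) ^ 2 ≤ (b : ℝ) ^ J * ρ →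
    ∃ j ≤ J, Far (1 / (b : ℝ) ^ 2) ((b : ℝ) ^ j * x) := by
  have hbr : (2 : ℝ) ≤ b := by exact_mod_cast hb
  have hb0 : (0 : ℝ) < b := by linarith
  induction J with
  | zero =>
    intro x ρ h1 h2
    refine ⟨0, le_rfl, fun n => ?_⟩
    rw [pow_zero, one_mul] at h2 ⊢
    exact h2.trans (h1 n)
  | succ J ih =>
    intro x ρ h1 h2
    by_cases hx : Far (1 / (b : ℝ) ^ 2) x
    · refine ⟨0, Nat.zero_le _, ?_⟩
      rw [pow_zero, one_mul]
      exact hx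
    · unfold Far at hx
      push Not at hx
      obtain ⟨n, hn⟩ := hx
      obtain ⟨j, hj, hf⟩ := ih (b * x) (b * ρ) (by
        intro n'
        by_cases hnn : n' = (b : ℤ) * n
        · have e1 : (b : ℝ) * x - n' = b * (x - n) := by rw [hnn]; push_cast; ring
          rw [e1, abs_mul, abs_of_pos hb0]
          exact mul_le_mul_of_nonneg_left (h1 n) hb0.le
        · have e1 : (1 : ℝ) ≤ |((b : ℤ) * n : ℤ) - (n' : ℝ)| := by
            have : (1 : ℤ) ≤ |(b : ℤ) * n - n'| := Int.one_le_abs (sub_ne_zero.2 (fun h => hnn h.symm))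
            exact_mod_cast this
          have e2 : |((b : ℤ) * n : ℤ) - (n' : ℝ)| ≤ |(b : ℝ) * x - n'| + b * |x - n| := by
            have e3 : (((b : ℤ) * n : ℤ) : ℝ) - n' = (b * x - n') - b * (x - n) := by push_cast; ring
            rw [e3]
            refine (abs_sub _ _).trans ?_
            rw [abs_mul (b : ℝ) (x - n), abs_of_pos hb0]
          have e4 : (b : ℝ) * |x - n| ≤ 1 / b := by
            calc (b : ℝ) * |x - n| ≤ b * (1 / (b : ℝ) ^ 2) := mul_le_mul_of_nonneg_left hn.le hb0.le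
              _ = 1 / b := by field_simp
          have e5 : (1 : ℝ) / b ≤ 1 / 2 := by
            apply div_le_div_of_nonneg_left (by norm_num) (by norm_num) hbr
          have e6 : (b : ℝ) * ρ ≤ b * |x - n| := mul_le_mul_of_nonneg_left (h1 n) hb0.le
          linarith) (by
        calc 1 / (b : ℝ) ^ 2 ≤ (b : ℝ) ^ (J + 1) * ρ := h2
          _ = _ := by ring)
      refine ⟨j + 1, by omega, ?_⟩
      have : (b : ℝ) ^ (j + 1) * x = (b : ℝ) ^ j * (b * x) := by ring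
      rw [this]
      exact hf

/-- many far positions -/
lemma far_count (b F k J : ℕ) (hb : 2 ≤ b) (θ ρ : ℝ) (h : ∀ (j : ℕ) (n : ℤ), ρ ≤ |(F : ℝ) * ((b : ℝ) ^ j * θ) - n|)
    (hρ : 1 / (b : ℝ) ^ 2 ≤ (b : ℝ) ^ J * ρ) : k / (J + 1) ≤ farCount b F k θ := by
  classical
  have h1 : ∀ i : ℕ, ∃ j ≤ J, Far (1 / (b : ℝ) ^ 2) ((F : ℝ) * ((b : ℝ) ^ (i * (J + 1) + j) * θ)) := by
    intro i
    obtain ⟨j, hj, hf⟩ := exists_far b hb J _ ρ (h (i * (J + 1))) hρ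
    refine ⟨j, hj, ?_⟩
    have : (F : ℝ) * ((b : ℝ) ^ (i * (J + 1) + j) * θ) = (b : ℝ) ^ j * ((F : ℝ) * ((b : ℝ) ^ (i * (J + 1)) * θ)) := by
      rw [pow_add]; ring
    rw [this]
    exact hf
  choose f hf1 hf2 using h1
  unfold farCount
  rw [← card_range (k / (J + 1))]
  apply card_le_card_of_injOn (fun i => i * (J + 1) + f i)
  · intro i hi
    rw [mem_coe, mem_range] at hi
    rw [mem_coe, mem_filter, mem_range]
    refine ⟨?_, hf2 i⟩
    have h3 := hf1 i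
    have h4 : (i + 1) * (J + 1) ≤ k := by
      calc (i + 1) * (J + 1) ≤ (k / (J + 1)) * (J + 1) := Nat.mul_le_mul_right _ (by omega)
        _ ≤ k := Nat.div_mul_le_self _ _
    have h5 : (i + 1) * (J + 1) = i * (J + 1) + (J + 1) := by ring
    simp only
    omega
  · intro i _ i' _ he
    simp only at he
    have h3 := hf1 i
    have h3' := hf1 i'
    have h6 : (i * (J + 1) + f i) / (J + 1) = i := by
      rw [mul_comm, Nat.mul_add_div (by omega), Nat.div_eq_of_lt (by omega), add_zero]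
    have h7 : (i' * (J + 1) + f i') / (J + 1) = i' := by
      rw [mul_comm, Nat.mul_add_div (by omega), Nat.div_eq_of_lt (by omega), add_zero]
    rw [← h6, ← h7, he]

/-- rational frequencies with a large prime in the denominator -/
lemma rat_far (b F M : ℕ) (N : ℤ) (θ : ℝ) (hM : 1 ≤ M) (hθ : θ * M = N) (p : ℕ) (hp : p.Prime) (hpM : p ∣ M)
    (hpF : ¬ p ∣ F) (hpb : ¬ p ∣ b) (hpN : ¬ (p : ℤ) ∣ N) (j : ℕ) (n : ℤ) :
    1 / (M : ℝ) ≤ |(F : ℝ) * ((b : ℝ) ^ j * θ) - n| := by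
  have hM0 : (0 : ℝ) < M := by exact_mod_cast hM
  have e1 : (F : ℝ) * ((b : ℝ) ^ j * θ) - n = (((F : ℤ) * (b : ℤ) ^ j * N - n * M : ℤ) : ℝ) / M := by
    rw [eq_div_iff hM0.ne']
    push_cast
    rw [← hθ]
    ring
  rw [e1, abs_div, abs_of_pos hM0]
  apply div_le_div_of_nonneg_right _ hM0.le
  have h1 : (F : ℤ) * (b : ℤ) ^ j * N - n * M ≠ 0 := by
    intro h
    have h2 : (p : ℤ) ∣ (F : ℤ) * (b : ℤ) ^ j * N := by
      have h3 : (F : ℤ) * (b : ℤ) ^ j * N = n * M := by linarith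
      rw [h3]
      exact Dvd.dvd.mul_left (by exact_mod_cast hpM) _
    have hpp := Nat.prime_iff_prime_int.1 hp
    rcases hpp.dvd_or_dvd h2 with h3 | h3
    · rcases hpp.dvd_or_dvd h3 with h4 | h4
      · exact hpF (by exact_mod_cast h4)
      · exact hpb (by exact_mod_cast hpp.dvd_of_dvd_pow h4)
    · exact hpN h3
  exact_mod_cast Int.one_le_abs h1

/-- the decay rate -/
noncomputable def gam (b : ℕ) (η : ℝ) : ℝ := 1 - 4 * (η / (b : ℝ) ^ 4) * (1 / (2 * ((b ^ 4).factorial : ℝ) * (b : ℝ) ^ 4)) ^ 2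

lemma gam_facts (b : ℕ) (hb : 2 ≤ b) (η : ℝ) (hη : 0 < η) (hη1 : η ≤ 1) : 0 ≤ gam b η ∧ gam b η < 1 := by
  have hbr : (2 : ℝ) ≤ b := by exact_mod_cast hb
  have hb0 : (0 : ℝ) < b := by linarith
  have c1 : (1 : ℝ) ≤ ((b ^ 4).factorial : ℝ) := by exact_mod_cast (b ^ 4).factorial_pos
  have c2 : (16 : ℝ) ≤ (b : ℝ) ^ 4 := by
    calc (16 : ℝ) = 2 ^ 4 := by norm_num
      _ ≤ _ := pow_le_pow_left₀ (by norm_num) hbr 4
  have c3 : η / (b : ℝ) ^ 4 ≤ 1 / 16 := by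
    rw [div_le_div_iff₀ (by positivity) (by norm_num)]
    nlinarith
  have c4 : 1 / (2 * ((b ^ 4).factorial : ℝ) * (b : ℝ) ^ 4) ≤ 1 / 32 := by
    apply div_le_div_of_nonneg_left (by norm_num) (by norm_num)
    nlinarith
  have c5 : 0 < 1 / (2 * ((b ^ 4).factorial : ℝ) * (b : ℝ) ^ 4) := by positivity
  have c6 : (1 / (2 * ((b ^ 4).factorial : ℝ) * (b : ℝ) ^ 4)) ^ 2 ≤ (1 / 32) ^ 2 := pow_le_pow_left₀ c5.le c4 2
  have c7 : 0 < η / (b : ℝ) ^ 4 := by positivity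
  have c8 : 0 < (1 / (2 * ((b ^ 4).factorial : ℝ) * (b : ℝ) ^ 4)) ^ 2 := by positivity
  unfold gam
  constructor
  · nlinarith
  · nlinarith [mul_pos c7 c8]

/-- expectation of a complex function of the value -/
noncomputable def Ex (b k : ℕ) (w : ℕ → ℕ × ℕ → ℝ) (u : ℕ → ℝ) (f : ℕ → ℂ) : ℂ :=
  ∑ x ∈ Om b k, ((pr k w u x : ℝ) : ℂ) * f (dv b k x)

lemma Ex_eq (b m s : ℕ) (hs : s ≤ 1) (w : ℕ → ℕ × ℕ → ℝ) (u : ℕ → ℝ) (f : ℕ → ℂ) :
    Ex b (2 * m + s) w u f = ∑ z ∈ range b, (u z : ℂ) * ∑ g ∈ Gs b m, ((pw w g : ℝ) : ℂ) * f (val b (2 * m + s) g + s * z * b ^ m) := by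
  have hgen : ∀ (n : ℕ) (hn : n = m), ∑ d ∈ Fintype.piFinset (fun _ : Fin n => range b ×ˢ range b), ∑ z ∈ range b,
      (((∏ i : Fin n, w i (d i)) * u z : ℝ) : ℂ) * f (∑ i : Fin n, ((d i).1 * b ^ (i : ℕ) + (d i).2 * b ^ (2 * m + s - 1 - (i : ℕ))) +
        s * z * b ^ m) =
      ∑ z ∈ range b, (u z : ℂ) * ∑ g ∈ Gs b m, ((pw w g : ℝ) : ℂ) * f (val b (2 * m + s) g + s * z * b ^ m) := by
    intro n hn
    subst hn
    rw [sum_comm]
    apply sum_congr rfl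
    intro z _
    rw [mul_sum]
    apply sum_congr rfl
    intro d _
    unfold Pool.Agent.TH872.Mir.val pw
    push_cast
    ring
  rw [← hgen _ (show (2 * m + s) / 2 = m by omega)]
  unfold Ex Om
  rw [sum_product]
  apply sum_congr rfl
  intro d _
  apply sum_congr rfl
  intro z _
  rw [dv_eq b m s hs]
  rfl

/-- the characteristic function is small at these frequencies -/
lemma char_small (b : ℕ) (hb : 2 ≤ b) (η : ℝ) (hη : 0 < η) (hη1 : η ≤ 1) (k : ℕ) (w : ℕ → ℕ × ℕ → ℝ) (u : ℕ → ℝ)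
    (hw : Pairs b k η w) (hu : ∀ a, 0 ≤ u a) (hu1 : ∑ a ∈ range b, u a = 1)
    (M : ℕ) (N : ℤ) (θ : ℝ) (hM : 1 ≤ M) (hθ : θ * M = N) (p : ℕ) (hp : p.Prime) (hpM : p ∣ M) (hpb : b ^ 4 < p)
    (hpN : ¬ (p : ℤ) ∣ N) (J n : ℕ) (hJ : M ≤ b ^ J) (hn : 4 * n + 5 ≤ k / (J + 1)) :
    ‖Ex b k w u (fun v => ee ((v : ℝ) * θ))‖ ≤ gam b η ^ n := by
  obtain ⟨m, s, hs, rfl⟩ : ∃ m s, s ≤ 1 ∧ k = 2 * m + s := ⟨k / 2, k % 2, by omega, by omega⟩
  have hbr : (2 : ℝ) ≤ b := by exact_mod_cast hb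
  have hb0 : (0 : ℝ) < b := by linarith
  have hM0 : (0 : ℝ) < M := by exact_mod_cast hM
  have hw' : Mirr b m η w := by
    have : (2 * m + s) / 2 = m := by omega
    rw [← this]
    exact ⟨hw.nonneg, hw.sum, hw.differ⟩
  have hpb' : ¬ p ∣ b := by
    intro h
    have h1 := Nat.le_of_dvd (by omega) h
    have h2 : b ≤ b ^ 4 := Nat.le_self_pow (by norm_num) b
    omega
  have hpF : ¬ p ∣ (b ^ 4).factorial := by
    intro h
    have := (hp.dvd_factorial).1 h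
    omega
  have hfc := far_count b (b ^ 4).factorial (2 * m + s) J hb θ (1 / (M : ℝ))
    (fun j n => rat_far b _ M N θ hM hθ p hp hpM hpF hpb' hpN j n) (by
      have h1 : (M : ℝ) ≤ (b : ℝ) ^ J := by exact_mod_cast hJ
      have h2 : (1 : ℝ) ≤ (b : ℝ) ^ J * (1 / M) := by
        rw [mul_one_div, le_div_iff₀ hM0, one_mul]
        exact h1
      refine le_trans ?_ h2
      rw [div_le_one (by positivity)]
      nlinarith)
  have hdec := char_decay b m s hb η hη w hw' θ n (by omega) (gam b η) rfl (gam_facts b hb η hη hη1).1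
  rw [Ex_eq b m s hs]
  have h3 : ∀ z ∈ range b, ‖(u z : ℂ) * ∑ g ∈ Gs b m, ((pw w g : ℝ) : ℂ) * ee (((val b (2 * m + s) g + s * z * b ^ m : ℕ) : ℝ) * θ)‖ ≤
      u z * gam b η ^ n := by
    intro z _
    have h4 : ∑ g ∈ Gs b m, ((pw w g : ℝ) : ℂ) * ee (((val b (2 * m + s) g + s * z * b ^ m : ℕ) : ℝ) * θ) =
        ee (((s * z * b ^ m : ℕ) : ℝ) * θ) * ∑ g ∈ Gs b m, ((pw w g : ℝ) : ℂ) * ee ((val b (2 * m + s) g : ℝ) * θ) := by
      rw [mul_sum]
      apply sum_congr rfl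
      intro g _
      have : ee (((val b (2 * m + s) g + s * z * b ^ m : ℕ) : ℝ) * θ) =
          ee (((s * z * b ^ m : ℕ) : ℝ) * θ) * ee ((val b (2 * m + s) g : ℝ) * θ) := by
        rw [← ee_add]
        congr 1
        push_cast
        ring
      rw [this]
      ring
    rw [h4, norm_mul, norm_mul, norm_ee, one_mul, Complex.norm_real, Real.norm_of_nonneg (hu z)]
    exact mul_le_mul_of_nonneg_left hdec (hu z)
  refine (norm_sum_le _ _).trans ((sum_le_sum h3).trans ?_)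
  rw [← sum_mul, hu1, one_mul]

end Pool.Agent.Q236.PD
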