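import Pool.Agent.Q236.PD.Main

/-! Palindromes and shifts, part 4: the theorem with arbitrary weights. -/

set_option autoImplicit false

namespace Pool.Agent.Q236.PD

open Finset
open Pool.Agent.H373R2.T7
open Pool.Agent.W93.AU
open Pool.Agent.TH872.Mir
open Pool.Agent.TH872.Tr (Pairs)

lemma dI_nat (z n : ℕ) (hn : 1 ≤ n) : dI z (n : ℤ) = ArithmeticFunction.vonMangoldt n - lamz z n := by
  unfold dI lamI lamzI
  rw [if_pos (by exact_mod_cast hn), if_pos (by exact_mod_cast hn), Int.toNat_natCast]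

open Classical in
/-- bad pairs of strings are rare -/
lemma bad_strings (b : ℕ) (hb : 2 ≤ b) (η : ℝ) (hη : 0 < η) (κ : ℕ) (hκ : 1 ≤ κ) (B A U1 : ℕ) :
    ∃ E0 : ℕ, ∀ E : ℕ, E0 ≤ E → ∃ k0 : ℕ, ∀ k : ℕ, k0 ≤ k → ∀ (w : ℕ → ℕ × ℕ → ℝ) (u : ℕ → ℝ), Pairs b k η w →
    (∀ a, 0 ≤ u a) → ∑ a ∈ range b, u a = 1 → ∀ H : ℕ, b ^ k ≤ H * k ^ A → H ≤ B * b ^ k → ∀ v : ℕ, v < 3 * b ^ k →
    ∑ x ∈ Om b k, (if 1 / (k : ℝ) ^ U1 * H < |∑ h ∈ Icc 1 H,
      (ArithmeticFunction.vonMangoldt (κ * v + h) - lamz (k ^ E) (κ * v + h)) *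
      (ArithmeticFunction.vonMangoldt (κ * dv b k x + h) - lamz (k ^ E) (κ * dv b k x + h))| then pr k w u x else 0) ≤
      1 / (k : ℝ) ^ U1 := by
  obtain ⟨C, hC⟩ : ∃ C, C = 3 * κ + B + 1 := ⟨_, rfl⟩
  obtain ⟨U, hU⟩ : ∃ U, U = A + U1 + 1 := ⟨_, rfl⟩
  obtain ⟨B0, h0⟩ := bad_pairs b hb η hη κ hκ 0 C 3 U
  obtain ⟨B1, h1⟩ := bad_pairs b hb η hη κ hκ 1 C 3 U
  refine ⟨2 * (B0 + B1), fun E hE => ?_⟩
  obtain ⟨m0, h0⟩ := h0 (2 * E)
  obtain ⟨m1, h1⟩ := h1 (2 * E)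
  obtain ⟨k1, hbd⟩ := bounds b C E hb
  refine ⟨2 * (m0 + m1) + k1 + b + 4, fun k hk w u hw hu hu1 H hH1 hH2 v hv => ?_⟩
  obtain ⟨m, s, hs, hkm⟩ : ∃ m s, s ≤ 1 ∧ k = 2 * m + s := ⟨k / 2, k % 2, by omega, by omega⟩
  have hbr : (2 : ℝ) ≤ b := by exact_mod_cast hb
  have hkr : (4 : ℝ) ≤ k := by exact_mod_cast (by omega : 4 ≤ k)
  have hk0 : (0 : ℝ) < k := by linarith
  have hlb : 1 / 2 ≤ Real.log b := by
    have q1 : Real.log 2 ≤ Real.log b := Real.log_le_log (by norm_num) hbr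
    linarith [Real.log_two_gt_d9]
  have hlogb : Real.log b ≤ b - 1 := Real.log_le_sub_one_of_pos (by linarith)
  have hbk : (b : ℝ) ≤ k := by exact_mod_cast (by omega : b ≤ k)
  obtain ⟨L, hL⟩ : ∃ L, L = Real.log ((b ^ k : ℕ) : ℝ) := ⟨_, rfl⟩
  have hLe : L = k * Real.log b := by rw [hL]; push_cast; rw [Real.log_pow]
  have hL1 : 1 ≤ L := by rw [hLe]; nlinarith
  have hLk2 : L ≤ (k : ℝ) ^ 2 := by rw [hLe, sq]; apply mul_le_mul_of_nonneg_left _ hk0.le; linarith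
  have hkL : (k : ℝ) ≤ L ^ 2 := by
    rw [hLe]
    have : 1 / 2 * (k : ℝ) ≤ k * Real.log b := by nlinarith
    nlinarith
  have hz1 : ∀ B' : ℕ, B' ≤ B0 + B1 → Real.log ((b ^ k : ℕ) : ℝ) ^ B' ≤ ((k ^ E : ℕ) : ℝ) := by
    intro B' hB'
    rw [← hL]
    calc L ^ B' ≤ L ^ (B0 + B1) := pow_le_pow_right₀ hL1 hB'
      _ ≤ ((k : ℝ) ^ 2) ^ (B0 + B1) := pow_le_pow_left₀ (by linarith) hLk2 _
      _ = (k : ℝ) ^ (2 * (B0 + B1)) := by rw [← pow_mul]
      _ ≤ (k : ℝ) ^ E := pow_le_pow_right₀ (by linarith) hE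
      _ = _ := by push_cast; rfl
  have hz2 : ((k ^ E : ℕ) : ℝ) ≤ Real.log ((b ^ k : ℕ) : ℝ) ^ (2 * E) := by
    rw [← hL, pow_mul]
    push_cast
    exact pow_le_pow_left₀ hk0.le hkL _
  have hbkn : 0 < b ^ k := by positivity
  obtain ⟨Q, hQ⟩ : ∃ Q, Q = κ * v + H := ⟨_, rfl⟩
  have hQC : Q ≤ C * b ^ k := by
    rw [hQ, hC]
    calc κ * v + H ≤ κ * (3 * b ^ k) + B * b ^ k := Nat.add_le_add (Nat.mul_le_mul_left _ hv.le) hH2
      _ = (3 * κ + B) * b ^ k := by ring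
      _ ≤ _ := Nat.mul_le_mul_right _ (by omega)
  obtain ⟨G, hG⟩ : ∃ G : ℕ → ℝ, ∀ n, G n = if n ≤ C * b ^ k then ArithmeticFunction.vonMangoldt n - lamz (k ^ E) n else 0 :=
    ⟨_, fun n => rfl⟩
  have hGb : ∀ n, |G n| ≤ (k : ℝ) ^ 3 := by
    intro n
    rw [hG]
    split_ifs with h
    · obtain ⟨a1, a2⟩ := hbd k (by omega) n h
      calc |ArithmeticFunction.vonMangoldt n - lamz (k ^ E) n| ≤ |ArithmeticFunction.vonMangoldt n| + |lamz (k ^ E) n| := abs_sub _ _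
        _ ≤ 2 * (k : ℝ) ^ 2 := by linarith
        _ ≤ (k : ℝ) ^ 3 := by nlinarith [sq_nonneg (k : ℝ)]
    · simp
  -- the estimate for fixed middle digit
  have hfix : ∀ z' ∈ range b, ∑ g ∈ Gs b m, (if 1 / (k : ℝ) ^ U1 * H < |∑ h ∈ Icc 1 H,
      (ArithmeticFunction.vonMangoldt (κ * v + h) - lamz (k ^ E) (κ * v + h)) *
      (ArithmeticFunction.vonMangoldt (κ * (val b k g + s * z' * b ^ m) + h) -
        lamz (k ^ E) (κ * (val b k g + s * z' * b ^ m) + h))| then pw w g else 0) ≤ 1 / (k : ℝ) ^ U1 := by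
    intro z' hz'
    rw [mem_range] at hz'
    have hw' : Mirr b m η w := by
      have : k / 2 = m := by omega
      rw [← this]
      exact ⟨hw.nonneg, hw.sum, hw.differ⟩
    obtain ⟨cc, hcc⟩ : ∃ cc : ℤ, cc = (κ : ℤ) * (s * z' * b ^ m : ℕ) - κ * v := ⟨_, rfl⟩
    have h3 : s * z' * b ^ m ≤ b ^ k := by
      rw [hkm]
      interval_cases s
      · simp
      · calc 1 * z' * b ^ m ≤ b * b ^ m := by rw [one_mul]; exact Nat.mul_le_mul_right _ hz'.le
          _ = b ^ (m + 1) := by ring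
          _ ≤ b ^ (2 * m + 1) := Nat.pow_le_pow_right (by omega) (by omega)
    have hccb : |cc| ≤ C * (b : ℤ) ^ k := by
      have e1 : (0 : ℤ) ≤ (κ : ℤ) * (s * z' * b ^ m : ℕ) := by positivity
      have e2 : (κ : ℤ) * (s * z' * b ^ m : ℕ) ≤ κ * (b : ℤ) ^ k := by
        apply mul_le_mul_of_nonneg_left _ (by positivity)
        exact_mod_cast h3
      have e3 : (0 : ℤ) ≤ (κ : ℤ) * v := by positivity
      have e4 : (κ : ℤ) * v ≤ κ * (3 * (b : ℤ) ^ k) := by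
        apply mul_le_mul_of_nonneg_left _ (by positivity)
        exact_mod_cast hv.le
      have e5 : (0 : ℤ) < (b : ℤ) ^ k := by exact_mod_cast hbkn
      rw [hcc, hC, abs_le]
      push_cast at *
      constructor <;> nlinarith
    have key : ∑ g ∈ Gs b m, (if (∃ N ≤ Q, ((b ^ k : ℕ) : ℝ) / (k : ℝ) ^ U <
      |∑ n ∈ Icc 1 N, G n * dI (k ^ E) ((n : ℤ) + (cc + (κ : ℤ) * (val b k g : ℕ)))|) then pw w g else 0) ≤ 1 / (k : ℝ) ^ U := by
      have h4 : s = 0 ∨ s = 1 := by omega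
      rcases h4 with rfl | rfl
      · exact h0 m (by omega) k hkm (k ^ E) (hz1 B0 (by omega)) hz2 w hw' cc hccb Q hQC G hGb
      · exact h1 m (by omega) k hkm (k ^ E) (hz1 B1 (by omega)) hz2 w hw' cc hccb Q hQC G hGb
    refine le_trans ?_ (key.trans ?_)
    · apply sum_le_sum
      intro g hg
      have hpw : 0 ≤ pw w g := pw_nonneg hw' g
      by_cases hP : 1 / (k : ℝ) ^ U1 * H < |∑ h ∈ Icc 1 H,
      (ArithmeticFunction.vonMangoldt (κ * v + h) - lamz (k ^ E) (κ * v + h)) *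
      (ArithmeticFunction.vonMangoldt (κ * (val b k g + s * z' * b ^ m) + h) -
        lamz (k ^ E) (κ * (val b k g + s * z' * b ^ m) + h))|
      swap
      · rw [if_neg hP]
        split_ifs
        · exact hpw
        · exact le_rfl
      · rw [if_pos hP, if_pos]
        by_contra hcon
        push Not at hcon
        obtain ⟨f, hf⟩ : ∃ f : ℕ → ℝ, f = fun n : ℕ => G n * dI (k ^ E) ((n : ℤ) + (cc + (κ : ℤ) * (val b k g : ℕ))) := ⟨_, rfl⟩
        have a1 := hcon (κ * v + H) (by omega)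
        have a2 := hcon (κ * v) (by omega)
        rw [← hf] at a1 a2
        have e1 : ∑ h ∈ Icc 1 H, (ArithmeticFunction.vonMangoldt (κ * v + h) - lamz (k ^ E) (κ * v + h)) *
            (ArithmeticFunction.vonMangoldt (κ * (val b k g + s * z' * b ^ m) + h) -
            lamz (k ^ E) (κ * (val b k g + s * z' * b ^ m) + h)) = ∑ n ∈ Icc 1 (κ * v + H), f n - ∑ n ∈ Icc 1 (κ * v), f n := by
          have e2 : ∑ n ∈ Icc 1 (κ * v + H), f n = ∑ n ∈ Icc 1 (κ * v), f n + ∑ n ∈ Ioc (κ * v) (κ * v + H), f n := by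
            have : Icc 1 (κ * v + H) = Icc 1 (κ * v) ∪ Ioc (κ * v) (κ * v + H) := by
              ext n
              rw [mem_union, mem_Icc, mem_Icc, mem_Ioc]
              omega
            rw [this, sum_union]
            rw [disjoint_left]
            intro n hn hn'
            rw [mem_Icc] at hn
            rw [mem_Ioc] at hn'
            omega
          rw [e2, add_sub_cancel_left]
          have e3 : Ioc (κ * v) (κ * v + H) = (Icc 1 H).image (fun h => κ * v + h) := by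
            ext n
            rw [mem_Ioc, mem_image]
            constructor
            · intro hn
              exact ⟨n - κ * v, mem_Icc.2 (by omega), by omega⟩
            · rintro ⟨h, hh, rfl⟩
              rw [mem_Icc] at hh
              omega
          rw [e3, sum_image (fun a _ c _ h => by simpa using h)]
          apply sum_congr rfl
          intro h hh
          rw [mem_Icc] at hh
          rw [hf]
          simp only
          rw [hG, if_pos (by omega)]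
          have e4 : (((κ * v + h : ℕ) : ℤ) + (cc + (κ : ℤ) * (val b k g : ℕ))) =
              ((κ * (val b k g + s * z' * b ^ m) + h : ℕ) : ℤ) := by
            rw [hcc]
            push_cast
            ring
          rw [e4, dI_nat _ _ (by omega)]
        rw [e1] at hP
        have a3 : |∑ n ∈ Icc 1 (κ * v + H), f n - ∑ n ∈ Icc 1 (κ * v), f n| ≤ 2 * (((b ^ k : ℕ) : ℝ) / (k : ℝ) ^ U) :=
          (abs_sub _ _).trans (by rw [hf] at *; linarith)
        have a4 : 2 * (((b ^ k : ℕ) : ℝ) / (k : ℝ) ^ U) ≤ 1 / (k : ℝ) ^ U1 * H := by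
          have a5 : ((b ^ k : ℕ) : ℝ) ≤ H * (k : ℝ) ^ A := by exact_mod_cast hH1
          rw [hU, pow_succ, pow_add, mul_div_assoc', one_div_mul_eq_div, div_le_div_iff₀ (by positivity) (by positivity)]
          have hH0 : (0 : ℝ) ≤ H := Nat.cast_nonneg _
          calc 2 * ((b ^ k : ℕ) : ℝ) * (k : ℝ) ^ U1 ≤ k * (H * (k : ℝ) ^ A) * (k : ℝ) ^ U1 := by
                gcongr
                linarith
            _ = _ := by ring
        linarith
    · apply one_div_le_one_div_of_le (by positivity)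
      exact pow_le_pow_right₀ (by linarith) (by omega)
  have hsum := sum_Om b m s hs w u (fun n => 1 / (k : ℝ) ^ U1 * H < |∑ h ∈ Icc 1 H,
      (ArithmeticFunction.vonMangoldt (κ * v + h) - lamz (k ^ E) (κ * v + h)) *
      (ArithmeticFunction.vonMangoldt (κ * n + h) - lamz (k ^ E) (κ * n + h))|)
  rw [← hkm] at hsum
  rw [hsum]
  calc _ ≤ ∑ z ∈ range b, u z * (1 / (k : ℝ) ^ U1) := by
        apply sum_le_sum
        intro z hz
        exact mul_le_mul_of_nonneg_left (hfix z hz) (hu z)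
    _ = _ := by rw [← sum_mul, hu1, one_mul]

open Classical in
/-- **arbitrary weights**: for almost all shifts the von Mangoldt function can be replaced by its model -/
theorem law_main (b : ℕ) (hb : 2 ≤ b) (η : ℝ) (hη : 0 < η) (r : ℕ) (κ : Fin r → ℕ) (hκ : ∀ i, 1 ≤ κ i) (B A : ℕ) :
    ∃ E0 : ℕ, ∀ E : ℕ, E0 ≤ E → ∃ k0 : ℕ, ∀ k : ℕ, k0 ≤ k → ∀ (w : ℕ → ℕ × ℕ → ℝ) (u : ℕ → ℝ), Pairs b k η w →
    (∀ a, 0 ≤ u a) → ∑ a ∈ range b, u a = 1 → ∀ H : ℕ, b ^ k ≤ H * k ^ A → H ≤ B * b ^ k →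
    ∀ a : ℕ → ℝ, (∀ n, |a n| ≤ 1) →
    ((((Fintype.piFinset (fun _ : Fin r => Icc 1 H)).filter (fun h => 1 / (k : ℝ) ^ A <
      |∑ x ∈ Om b k, pr k w u x * a (dv b k x) * (∏ i, ArithmeticFunction.vonMangoldt (κ i * dv b k x + h i) -
        ∏ i, lamz (k ^ E) (κ i * dv b k x + h i))|)).card : ℕ) : ℝ) ≤ (H : ℝ) ^ r / (k : ℝ) ^ A := by
  obtain ⟨U1, hU1⟩ : ∃ U1, U1 = 3 * A + 4 * r + 1 := ⟨_, rfl⟩
  have h1 := fun i => bad_strings b hb η hη (κ i) (hκ i) B A U1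
  choose E1 h1 using h1
  refine ⟨∑ i, E1 i, fun E hE => ?_⟩
  have hEi : ∀ i, E1 i ≤ E := fun i => (single_le_sum (fun _ _ => Nat.zero_le _) (mem_univ i)).trans hE
  have h2 := fun i => h1 i E (hEi i)
  choose k1 h2 using h2
  obtain ⟨k2, hbd⟩ := bounds b (∑ i, 3 * κ i + B) E hb
  refine ⟨∑ i, k1 i + k2 + 5 * r ^ 2 + 4, fun k hk w u hw hu hu1 H hH1 hH2 a ha => ?_⟩
  have hk1 : ∀ i, k1 i ≤ k := by
    intro i
    have : k1 i ≤ ∑ i, k1 i := single_le_sum (fun _ _ => Nat.zero_le _) (mem_univ i)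
    omega
  have hkr : (4 : ℝ) ≤ k := by exact_mod_cast (by omega : 4 ≤ k)
  have hk0 : (0 : ℝ) < k := by linarith
  have hsz : ∀ i, ∀ x ∈ Om b k, ∀ h ∈ Icc 1 H, κ i * dv b k x + h ≤ (∑ i, 3 * κ i + B) * b ^ k := by
    intro i x hx h hh
    have c1 := dv_lt b k hb x hx (by omega)
    rw [mem_Icc] at hh
    have c2 : 3 * κ i ≤ ∑ i, 3 * κ i := single_le_sum (f := fun i => 3 * κ i) (fun _ _ => Nat.zero_le _) (mem_univ i)
    calc κ i * dv b k x + h ≤ κ i * (3 * b ^ k) + B * b ^ k := by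
          apply Nat.add_le_add (Nat.mul_le_mul_left _ c1.le)
          exact hh.2.trans hH2
      _ = (3 * κ i + B) * b ^ k := by ring
      _ ≤ _ := Nat.mul_le_mul_right _ (by omega)
  have key := dual_few (Om b k) (pr k w u) (fun x _ => pr_nonneg b k η w u hw hu x) (pr_sum b k η w u hw hu1).le r
    (fun i x => κ i * dv b k x) H (fun n => ArithmeticFunction.vonMangoldt n) (fun n => lamz (k ^ E) n) ((k : ℝ) ^ 2)
    (one_le_pow₀ (by linarith)) (fun i x hx h hh => (hbd k (by omega) _ (hsz i x hx h hh)).1)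
    (fun i x hx h hh => (hbd k (by omega) _ (hsz i x hx h hh)).2) (1 / (k : ℝ) ^ U1) (by positivity)
    (fun i x hx => by
      refine le_trans (le_of_eq ?_) (h2 i k (hk1 i) w u hw hu hu1 H hH1 hH2 (dv b k x) (dv_lt b k hb x hx (by omega)))
      apply sum_congr rfl
      intro y _
      congr 1)
    (fun x => a (dv b k x)) (fun x _ => ha _) (1 / (k : ℝ) ^ A) (by positivity)
  refine key.trans ?_
  have e1 : (1 / (k : ℝ) ^ A) ^ 2 = 1 / (k : ℝ) ^ (2 * A) := by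
    rw [div_pow, one_pow, ← pow_mul, mul_comm A 2]
  rw [e1, div_div_eq_mul_div, div_one]
  rw [le_div_iff₀ (by positivity)]
  have e2 : (((k : ℝ) ^ 2) ^ 2) ^ r = (k : ℝ) ^ (4 * r) := by
    rw [← pow_mul, ← pow_mul]
    congr 1
    ring
  have hr2 : 5 * (r : ℝ) ^ 2 ≤ k := by exact_mod_cast (by omega : 5 * r ^ 2 ≤ k)
  have hH0 : (0 : ℝ) ≤ (H : ℝ) ^ r := by positivity
  rw [e2, hU1]
  have e3 : (r : ℝ) ^ 2 * (5 * (1 / (k : ℝ) ^ (3 * A + 4 * r + 1)) * (H : ℝ) ^ r * (k : ℝ) ^ (4 * r)) * (k : ℝ) ^ (2 * A) * (k : ℝ) ^ A =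
      (5 * (r : ℝ) ^ 2 / k) * (H : ℝ) ^ r := by
    rw [pow_add, pow_add, pow_one]
    rw [show (k : ℝ) ^ (3 * A) = (k : ℝ) ^ (2 * A) * (k : ℝ) ^ A by rw [← pow_add]; congr 1; ring]
    field_simp
  rw [e3]
  calc (5 * (r : ℝ) ^ 2 / k) * (H : ℝ) ^ r ≤ 1 * (H : ℝ) ^ r := by
        apply mul_le_mul_of_nonneg_right _ hH0
        rw [div_le_one hk0]
        exact hr2
    _ = _ := one_mul _

end Pool.Agent.Q236.PD
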