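import Pool.Agent.Q236.PD.Fund
import Pool.Agent.Q236.PD.Main2

/-! Palindromes and shifts, part 8: counting primes. -/

set_option autoImplicit false

namespace Pool.Agent.Q236.PD

open Finset Filter
open Pool.Agent.H373R2.T7
open Pool.Agent.TH872.Mir
open Pool.Agent.TH872.Tr (Pairs)

/-- a sum depending on one coordinate -/
lemma sum_one (r H : ℕ) (i : Fin r) (f : ℕ → ℝ) :
    ∑ h ∈ Fintype.piFinset (fun _ : Fin r => Icc 1 H), f (h i) = (H : ℝ) ^ (r - 1) * ∑ n ∈ Icc 1 H, f n := by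
  classical
  have h1 : ∀ h : Fin r → ℕ, f (h i) = ∏ j, (if j = i then f (h j) else 1) := by
    intro h
    rw [prod_ite_eq' univ i (fun j => f (h j)), if_pos (mem_univ i)]
  simp only [h1]
  rw [← prod_univ_sum (fun _ : Fin r => Icc 1 H) (fun j n => if j = i then f n else 1), ← mul_prod_erase univ _ (mem_univ i)]
  simp only [if_true]
  rw [mul_comm]
  congr 1
  have : ∀ j ∈ univ.erase i, ∑ n ∈ Icc 1 H, (if j = i then f n else 1) = H := by
    intro j hj
    have hne : j ≠ i := (mem_erase.1 hj).1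
    simp only [if_neg hne]
    simp
  rw [prod_congr rfl this, prod_const, card_erase_of_mem (mem_univ i), card_univ, Fintype.card_fin]

open Classical in
/-- `Λ` at the proper prime powers -/
noncomputable def lamP (n : ℕ) : ℝ := if n.Prime then 0 else ArithmeticFunction.vonMangoldt n

lemma lamP_nonneg (n : ℕ) : 0 ≤ lamP n := by
  unfold lamP
  split_ifs
  · exact le_rfl
  · exact ArithmeticFunction.vonMangoldt_nonneg

lemma sum_lamP (X v H : ℕ) (hX : 1 ≤ X) (hv : v + H ≤ X) : ∑ n ∈ Icc 1 H, lamP (v + n) ≤ 2 * √(X : ℝ) * Real.log X := by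
  have h1 : ∑ n ∈ Icc 1 H, lamP (v + n) = ∑ m ∈ (Icc 1 H).image (fun n => v + n), lamP m := by
    rw [sum_image (fun a _ c _ h => by simpa using h)]
  have h2 : (Icc 1 H).image (fun n => v + n) ⊆ Ioc 0 X := by
    intro m hm
    rw [mem_image] at hm
    obtain ⟨n, hn, rfl⟩ := hm
    rw [mem_Icc] at hn
    rw [mem_Ioc]
    omega
  have h3 : ∑ m ∈ Ioc 0 X, lamP m = Chebyshev.psi X - Chebyshev.theta X := by
    rw [Chebyshev.psi_sub_theta_eq_sum_not_prime, Nat.floor_natCast, sum_filter]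
    apply sum_congr rfl
    intro m _
    unfold lamP
    by_cases h : m.Prime
    · simp [h]
    · simp [h]
  rw [h1]
  refine (sum_le_sum_of_subset_of_nonneg h2 (fun m _ _ => lamP_nonneg m)).trans ?_
  rw [h3]
  exact Chebyshev.psi_sub_theta_le (by exact_mod_cast hX)

/-- the product of the models -/
lemma prod_lamz {r : ℕ} (κ h : Fin r → ℕ) (z v : ℕ) [Decidable (∀ p ∈ pz z, ¬ hit κ h p v)] :
    ∏ i, lamz z (κ i * v + h i) = if (∀ p ∈ pz z, ¬ hit κ h p v) then ((Vz z)⁻¹) ^ r else 0 := by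
  classical
  by_cases H : ∀ p ∈ pz z, ¬ hit κ h p v
  · rw [if_pos H]
    have : ∀ i ∈ (univ : Finset (Fin r)), lamz z (κ i * v + h i) = (Vz z)⁻¹ := by
      intro i _
      unfold lamz
      rw [if_pos]
      intro p hp hd
      exact H p hp ⟨i, hd⟩
    rw [prod_congr rfl this, prod_const, card_univ, Fintype.card_fin]
  · rw [if_neg H]
    push Not at H
    obtain ⟨p, hp, i, hi⟩ := H
    apply prod_eq_zero (mem_univ i)
    unfold lamz
    rw [if_neg]
    intro h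
    exact h p hp hi

open Classical in
/-- the truncated singular series: the probability of no hit by primes `p ≤ P0`, times the factors of the primes -/
noncomputable def Sg (b k : ℕ) (w : ℕ → ℕ × ℕ → ℝ) (u : ℕ → ℝ) {r : ℕ} (κ h : Fin r → ℕ) (P0 z : ℕ) : ℝ :=
  Pb b k w u (fun v => ∀ p ∈ pz P0, ¬ hit κ h p v) * (∏ p ∈ pz P0, ((1 - 1 / (p : ℝ)) ^ r)⁻¹) *
    ∏ p ∈ (pz z).filter (fun p => P0 < p), (1 - (nu κ h p : ℝ) / p) / (1 - 1 / (p : ℝ)) ^ r

lemma fac_nonneg {r : ℕ} (κ h : Fin r → ℕ) (p : ℕ) (hp : p.Prime) : 0 ≤ 1 - (nu κ h p : ℝ) / p := by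
  classical
  have hp0 : (0 : ℝ) < p := by exact_mod_cast hp.pos
  have h1 : (nu κ h p : ℝ) / p ≤ 1 := by
    rw [div_le_one hp0]
    have : nu κ h p ≤ p := by
      unfold nu
      exact (card_filter_le _ _).trans (by rw [card_range])
    exact_mod_cast this
  linarith

lemma one_sub_pos (p : ℕ) (hp : p.Prime) : 0 < 1 - 1 / (p : ℝ) := by
  have hp1 : (1 : ℝ) < p := by exact_mod_cast hp.one_lt
  have : 1 / (p : ℝ) < 1 := by rw [div_lt_one (by linarith)]; exact hp1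
  linarith

lemma Pb_nonneg (b k : ℕ) (η : ℝ) (w : ℕ → ℕ × ℕ → ℝ) (u : ℕ → ℝ) (hw : Pairs b k η w) (hu : ∀ a, 0 ≤ u a) (P : ℕ → Prop) :
    0 ≤ Pb b k w u P := by
  unfold Pb
  apply sum_nonneg
  intro x _
  split_ifs
  · exact pr_nonneg b k η w u hw hu x
  · exact le_rfl

lemma Sg_nonneg (b k : ℕ) (η : ℝ) (w : ℕ → ℕ × ℕ → ℝ) (u : ℕ → ℝ) (hw : Pairs b k η w) (hu : ∀ a, 0 ≤ u a)
    {r : ℕ} (κ h : Fin r → ℕ) (P0 z : ℕ) : 0 ≤ Sg b k w u κ h P0 z := by
  unfold Sg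
  refine mul_nonneg (mul_nonneg (Pb_nonneg b k η w u hw hu _) ?_) ?_
  · apply prod_nonneg
    intro p hp
    exact inv_nonneg.2 (pow_nonneg (one_sub_pos p (mem_pz.1 hp).2).le _)
  · apply prod_nonneg
    intro p hp
    exact div_nonneg (fac_nonneg κ h p (mem_pz.1 (mem_filter.1 hp).1).2) (pow_nonneg (one_sub_pos p (mem_pz.1 (mem_filter.1 hp).1).2).le _)

open Classical in
lemma Sg_eq (b k : ℕ) (w : ℕ → ℕ × ℕ → ℝ) (u : ℕ → ℝ) {r : ℕ} (κ h : Fin r → ℕ) (P0 z : ℕ) (hz : P0 ≤ z) :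
    Sg b k w u κ h P0 z = ((Vz z)⁻¹) ^ r * (Pb b k w u (fun v => ∀ p ∈ pz P0, ¬ hit κ h p v) *
      ∏ p ∈ (pz z).filter (fun p => P0 < p), (1 - (nu κ h p : ℝ) / p)) := by
  have h1 : ((Vz z)⁻¹) ^ r = (∏ p ∈ pz P0, ((1 - 1 / (p : ℝ)) ^ r)⁻¹) * ∏ p ∈ (pz z).filter (fun p => P0 < p), ((1 - 1 / (p : ℝ)) ^ r)⁻¹ := by
    have h2 : pz z = pz P0 ∪ (pz z).filter (fun p => P0 < p) := by
      ext p
      rw [mem_union, mem_filter, mem_pz, mem_pz]
      constructor
      · rintro ⟨h1, h2⟩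
        rcases Nat.lt_or_ge P0 p with h | h
        · exact Or.inr ⟨⟨h1, h2⟩, h⟩
        · exact Or.inl ⟨h, h2⟩
      · rintro (⟨h1, h2⟩ | ⟨h1, _⟩)
        · exact ⟨by omega, h2⟩
        · exact h1
    have hdisj : Disjoint (pz P0) ((pz z).filter (fun p => P0 < p)) := by
      rw [disjoint_left]
      intro p hp hp'
      rw [mem_filter] at hp'
      have := (mem_pz.1 hp).1
      omega
    rw [← prod_union hdisj, ← h2]
    unfold Vz
    rw [← prod_inv_distrib, ← prod_pow]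
    apply prod_congr rfl
    intro p _
    rw [inv_pow]
  unfold Sg
  rw [h1]
  simp only [div_eq_mul_inv, prod_mul_distrib]
  ring

end Pool.Agent.Q236.PD
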