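import Pool.Agent.Q236.PD.Count

/-! Palindromes and shifts, part 9: counting primes, the elementary inequalities. -/

set_option autoImplicit false

namespace Pool.Agent.Q236.PD

open Finset Filter
open Pool.Agent.H373R2.T7
open Pool.Agent.TH872.Mir
open Pool.Agent.TH872.Tr (Pairs)

open Classical in
lemma prod_upper {r : ℕ} (n : Fin r → ℕ) (K Lx : ℝ) (hK : 0 ≤ K) (h1 : ∀ i, ArithmeticFunction.vonMangoldt (n i) ≤ K)
    (h2 : ∀ i, Real.log (n i) ≤ Lx) :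
    ∏ i, ArithmeticFunction.vonMangoldt (n i) ≤ (if ∀ i, (n i).Prime then Lx ^ r else 0) + K ^ (r - 1) * ∑ i, lamP (n i) := by
  have h0 : 0 ≤ K ^ (r - 1) * ∑ i, lamP (n i) := mul_nonneg (pow_nonneg hK _) (sum_nonneg fun i _ => lamP_nonneg _)
  by_cases h : ∀ i, (n i).Prime
  · rw [if_pos h]
    have : ∏ i, ArithmeticFunction.vonMangoldt (n i) ≤ ∏ i : Fin r, Lx := by
      apply Finset.prod_le_prod
      · intro i _
        exact ArithmeticFunction.vonMangoldt_nonneg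
      · intro i _
        rw [ArithmeticFunction.vonMangoldt_apply_prime (h i)]
        exact h2 i
    rw [prod_const, card_univ, Fintype.card_fin] at this
    linarith
  · rw [if_neg h, zero_add]
    push Not at h
    obtain ⟨j, hj⟩ := h
    rw [← mul_prod_erase univ _ (mem_univ j)]
    have e1 : ∏ i ∈ univ.erase j, ArithmeticFunction.vonMangoldt (n i) ≤ K ^ (r - 1) := by
      calc ∏ i ∈ univ.erase j, ArithmeticFunction.vonMangoldt (n i) ≤ ∏ i ∈ univ.erase j, K :=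
            Finset.prod_le_prod (fun i _ => ArithmeticFunction.vonMangoldt_nonneg) (fun i _ => h1 i)
        _ = _ := by rw [prod_const, card_erase_of_mem (mem_univ j), card_univ, Fintype.card_fin]
    have e2 : ArithmeticFunction.vonMangoldt (n j) = lamP (n j) := by
      unfold lamP
      rw [if_neg hj]
    have e3 : lamP (n j) ≤ ∑ i, lamP (n i) := single_le_sum (f := fun i => lamP (n i)) (fun i _ => lamP_nonneg _) (mem_univ j)
    rw [e2, mul_comm]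
    exact mul_le_mul e1 e3 (lamP_nonneg _) (pow_nonneg hK _)

open Classical in
lemma prod_lower {r : ℕ} (n : Fin r → ℕ) (Ll : ℝ) (hL : 0 ≤ Ll) (h2 : ∀ i, Ll ≤ Real.log (n i)) :
    (if ∀ i, (n i).Prime then Ll ^ r else 0) ≤ ∏ i, ArithmeticFunction.vonMangoldt (n i) := by
  by_cases h : ∀ i, (n i).Prime
  · rw [if_pos h]
    calc Ll ^ r = ∏ i : Fin r, Ll := by rw [prod_const, card_univ, Fintype.card_fin]
      _ ≤ _ := by
        apply Finset.prod_le_prod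
        · intro i _
          exact hL
        · intro i _
          rw [ArithmeticFunction.vonMangoldt_apply_prime (h i)]
          exact h2 i
  · rw [if_neg h]
    exact prod_nonneg fun i _ => ArithmeticFunction.vonMangoldt_nonneg

/-- from the mean of the product of `Λ` to the number of primes -/
lemma fin_ineq (x y S δ σ τ : ℝ) (hδ0 : 0 ≤ δ) (hδ : δ ≤ 1 / 2) (hσ : 0 ≤ σ) (hτ : 0 ≤ τ) (hS : 0 ≤ S)
    (h1 : x ≤ (1 + δ) * y + τ) (h2 : (1 - δ) * y ≤ x) (h3 : |x - S| ≤ σ) : |y - S| ≤ 2 * δ * S + 2 * σ + τ := by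
  rw [abs_le] at h3 ⊢
  obtain ⟨h3, h4⟩ := h3
  constructor
  · -- S - τ - σ ≤ (1+δ) y
    have a1 : S - τ - σ ≤ (1 + δ) * y := by linarith
    have a2 : (1 + δ) * (S - δ * S - τ - σ) ≤ S - τ - σ := by nlinarith [mul_nonneg hδ0 hS, mul_nonneg (mul_nonneg hδ0 hδ0) hS, mul_nonneg hδ0 hτ, mul_nonneg hδ0 hσ]
    have a3 : S - δ * S - τ - σ ≤ y := by
      have := a2.trans a1
      exact le_of_mul_le_mul_left this (by linarith)
    nlinarith [mul_nonneg hδ0 hS]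
  · have a1 : (1 - δ) * y ≤ S + σ := by linarith
    have a2 : S + σ ≤ (1 - δ) * (S + 2 * δ * S + 2 * σ) := by
      have : 0 ≤ δ * S * (1 - 2 * δ) := mul_nonneg (mul_nonneg hδ0 hS) (by linarith)
      have : 0 ≤ σ * (1 - 2 * δ) := mul_nonneg hσ (by linarith)
      nlinarith
    have a3 : y ≤ S + 2 * δ * S + 2 * σ := le_of_mul_le_mul_left (a1.trans a2) (by linarith)
    linarith

/-- powers near `1` -/
lemma pow_near (r : ℕ) (δ : ℝ) (hδ : 0 < δ) : ∃ δ1 : ℝ, 0 < δ1 ∧ δ1 ≤ 1 / 2 ∧ (1 + δ1) ^ r ≤ 1 + δ ∧ 1 - δ ≤ (1 - δ1) ^ r := by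
  have h1 : Tendsto (fun t : ℝ => (1 + t) ^ r) (nhds 0) (nhds 1) := by
    have : ContinuousAt (fun t : ℝ => (1 + t) ^ r) 0 := by fun_prop
    simpa [ContinuousAt] using this
  have h2 : Tendsto (fun t : ℝ => (1 - t) ^ r) (nhds 0) (nhds 1) := by
    have : ContinuousAt (fun t : ℝ => (1 - t) ^ r) 0 := by fun_prop
    simpa [ContinuousAt] using this
  have h3 := (h1.eventually (gt_mem_nhds (show (1 : ℝ) < 1 + δ by linarith))).and
    (h2.eventually (lt_mem_nhds (show (1 : ℝ) - δ < 1 by linarith)))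
  rw [Metric.eventually_nhds_iff] at h3
  obtain ⟨ρ, hρ, h3⟩ := h3
  obtain ⟨δ1, hδ1⟩ : ∃ δ1, δ1 = min (ρ / 2) (1 / 2) := ⟨_, rfl⟩
  have p1 : 0 < δ1 := by rw [hδ1]; exact lt_min (by linarith) (by norm_num)
  have p2 : δ1 ≤ ρ / 2 := by rw [hδ1]; exact min_le_left _ _
  have p3 : δ1 ≤ 1 / 2 := by rw [hδ1]; exact min_le_right _ _
  have h4 := h3 (y := δ1) (by rw [Real.dist_eq, sub_zero, abs_of_pos p1]; linarith)
  exact ⟨δ1, p1, p3, h4.1.le, h4.2.le⟩

/-- the logarithms -/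
lemma logs_near (b C A r : ℕ) (hb : 2 ≤ b) (hC : 1 ≤ C) (δ : ℝ) (hδ : 0 < δ) : ∃ k0 : ℕ, ∀ k : ℕ, k0 ≤ k →
    (Real.log ((C * b ^ k : ℕ) : ℝ)) ^ r ≤ (1 + δ) * Real.log ((b ^ k : ℕ) : ℝ) ^ r ∧
    0 ≤ Real.log ((b ^ k : ℕ) : ℝ) - A * Real.log k ∧
    (1 - δ) * Real.log ((b ^ k : ℕ) : ℝ) ^ r ≤ (Real.log ((b ^ k : ℕ) : ℝ) - A * Real.log k) ^ r := by
  obtain ⟨δ1, d1, d2, d3, d4⟩ := pow_near r δ hδ
  have hbr : (2 : ℝ) ≤ b := by exact_mod_cast hb
  have hlb : 1 / 2 ≤ Real.log b := by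
    have q1 : Real.log 2 ≤ Real.log b := Real.log_le_log (by norm_num) hbr
    linarith [Real.log_two_gt_d9]
  have hlo := Real.isLittleO_log_id_atTop.def (c := δ1 * (1 / 2) / (A + 1)) (by positivity)
  have hlo' := tendsto_natCast_atTop_atTop (R := ℝ) |>.eventually hlo
  have hlC : ∀ᶠ k : ℕ in atTop, Real.log C ≤ (δ1 * (1 / 2)) * (k : ℝ) := by
    have h1 : Tendsto (fun k : ℕ => (δ1 * (1 / 2)) * (k : ℝ)) atTop atTop :=
      (tendsto_natCast_atTop_atTop (R := ℝ)).const_mul_atTop (by positivity)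
    exact h1.eventually_ge_atTop _
  obtain ⟨k0, hk0⟩ := eventually_atTop.1 (hlo'.and hlC)
  refine ⟨k0 + 1, fun k hk => ?_⟩
  obtain ⟨g1, g2⟩ := hk0 k (by omega)
  have hkr : (1 : ℝ) ≤ k := by exact_mod_cast (by omega : 1 ≤ k)
  have hlk : 0 ≤ Real.log k := Real.log_nonneg hkr
  simp only [id] at g1
  rw [Real.norm_of_nonneg hlk, Real.norm_of_nonneg (by linarith)] at g1
  have hL : Real.log ((b ^ k : ℕ) : ℝ) = k * Real.log b := by push_cast; rw [Real.log_pow]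
  obtain ⟨L, hLe⟩ : ∃ L, L = Real.log ((b ^ k : ℕ) : ℝ) := ⟨_, rfl⟩
  have hLk : (1 / 2) * (k : ℝ) ≤ L := by rw [hLe, hL]; nlinarith
  have hL0 : 0 ≤ L := by linarith
  have hA0 : (0 : ℝ) ≤ A := Nat.cast_nonneg _
  have e1 : (A : ℝ) * Real.log k ≤ δ1 * L := by
    have : (A : ℝ) * Real.log k ≤ A * (δ1 * (1 / 2) / (A + 1) * k) := mul_le_mul_of_nonneg_left g1 hA0
    have h2 : (A : ℝ) * (δ1 * (1 / 2) / (A + 1) * k) ≤ δ1 * (1 / 2 * k) := by
      have h3 : (A : ℝ) / (A + 1) ≤ 1 := by rw [div_le_one (by positivity)]; linarith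
      calc (A : ℝ) * (δ1 * (1 / 2) / (A + 1) * k) = (A / (A + 1)) * (δ1 * (1 / 2 * k)) := by ring
        _ ≤ 1 * (δ1 * (1 / 2 * k)) := mul_le_mul_of_nonneg_right h3 (by positivity)
        _ = _ := one_mul _
    have h4 : δ1 * (1 / 2 * k) ≤ δ1 * L := mul_le_mul_of_nonneg_left hLk d1.le
    linarith
  have e2 : Real.log C ≤ δ1 * L := by
    have h4 : δ1 * (1 / 2 * k) ≤ δ1 * L := mul_le_mul_of_nonneg_left hLk d1.le
    linarith
  have hbk : (0 : ℝ) < ((b ^ k : ℕ) : ℝ) := by positivity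
  have hC0 : (0 : ℝ) < (C : ℝ) := by exact_mod_cast hC
  have e3 : Real.log ((C * b ^ k : ℕ) : ℝ) = Real.log C + L := by
    rw [hLe, Nat.cast_mul, Real.log_mul hC0.ne' hbk.ne']
  rw [← hLe, e3]
  have hlC0 : 0 ≤ Real.log C := Real.log_nonneg (by exact_mod_cast hC)
  refine ⟨?_, ?_, ?_⟩
  · calc (Real.log C + L) ^ r ≤ ((1 + δ1) * L) ^ r := pow_le_pow_left₀ (by linarith) (by linarith) _
      _ = (1 + δ1) ^ r * L ^ r := mul_pow _ _ _
      _ ≤ _ := mul_le_mul_of_nonneg_right d3 (by positivity)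
  · nlinarith
  · calc (1 - δ) * L ^ r ≤ (1 - δ1) ^ r * L ^ r := mul_le_mul_of_nonneg_right d4 (by positivity)
      _ = ((1 - δ1) * L) ^ r := (mul_pow _ _ _).symm
      _ ≤ _ := pow_le_pow_left₀ (mul_nonneg (by linarith) hL0) (by linarith) _

end Pool.Agent.Q236.PD
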