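import Pool.Agent.Q236.PD.Count2

/-! Palindromes and shifts, part 10: counting primes. -/

set_option autoImplicit false

namespace Pool.Agent.Q236.PD

open Finset Filter
open Pool.Agent.H373R2.T7
open Pool.Agent.TH872.Mir
open Pool.Agent.TH872.Tr (Pairs)

open Classical in
/-- few shifts with a small coordinate -/
lemma small_few (r H q : ℕ) (hq : 1 ≤ q) :
    ((((Fintype.piFinset (fun _ : Fin r => Icc 1 H)).filter (fun h => ∃ i, h i * q < H)).card : ℕ) : ℝ) ≤ r * (H : ℝ) ^ r / q := by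
  have h1 : (Fintype.piFinset (fun _ : Fin r => Icc 1 H)).filter (fun h => ∃ i, h i * q < H) ⊆
      (univ : Finset (Fin r)).biUnion (fun i => (Fintype.piFinset (fun _ : Fin r => Icc 1 H)).filter (fun h => h i * q < H)) := by
    intro h hh
    rw [mem_filter] at hh
    obtain ⟨i, hi⟩ := hh.2
    exact mem_biUnion.2 ⟨i, mem_univ i, mem_filter.2 ⟨hh.1, hi⟩⟩
  have h2 : ∀ i ∈ (univ : Finset (Fin r)), ((((Fintype.piFinset (fun _ : Fin r => Icc 1 H)).filter (fun h => h i * q < H)).card : ℕ) : ℝ) ≤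
      (H : ℝ) ^ r / q := by
    intro i _
    have e1 : ((((Fintype.piFinset (fun _ : Fin r => Icc 1 H)).filter (fun h => h i * q < H)).card : ℕ) : ℝ) =
        ∑ h ∈ Fintype.piFinset (fun _ : Fin r => Icc 1 H), (fun n : ℕ => if n * q < H then (1 : ℝ) else 0) (h i) := by
      rw [card_filter]
      push_cast
      rfl
    rw [e1, sum_one r H i (fun n : ℕ => if n * q < H then (1 : ℝ) else 0)]
    have e2 : ∑ n ∈ Icc 1 H, (if n * q < H then (1 : ℝ) else 0) ≤ (H : ℝ) / q := by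
      rw [← sum_filter, sum_const, nsmul_eq_mul, mul_one]
      have : (Icc 1 H).filter (fun n => n * q < H) ⊆ Icc 1 (H / q) := by
        intro n hn
        rw [mem_filter, mem_Icc] at hn
        rw [mem_Icc]
        exact ⟨hn.1.1, (Nat.le_div_iff_mul_le hq).2 hn.2.le⟩
      calc ((((Icc 1 H).filter (fun n => n * q < H)).card : ℕ) : ℝ) ≤ ((Icc 1 (H / q)).card : ℝ) := by exact_mod_cast card_le_card this
        _ = ((H / q : ℕ) : ℝ) := by rw [Nat.card_Icc]; simp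
        _ ≤ _ := Nat.cast_div_le
    have hr : 1 ≤ r := Nat.succ_le_of_lt (lt_of_le_of_lt (Nat.zero_le _) i.2)
    have e3 : (H : ℝ) ^ r = (H : ℝ) ^ (r - 1) * H := by
      rw [← pow_succ]; congr 1; omega
    rw [e3, mul_div_assoc]
    exact mul_le_mul_of_nonneg_left e2 (by positivity)
  calc ((((Fintype.piFinset (fun _ : Fin r => Icc 1 H)).filter (fun h => ∃ i, h i * q < H)).card : ℕ) : ℝ)
      ≤ ((∑ i : Fin r, ((Fintype.piFinset (fun _ : Fin r => Icc 1 H)).filter (fun h => h i * q < H)).card : ℕ) : ℝ) := by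
        exact_mod_cast (card_le_card h1).trans card_biUnion_le
    _ ≤ ∑ i : Fin r, (H : ℝ) ^ r / q := by push_cast; exact sum_le_sum h2
    _ = _ := by rw [sum_const, card_univ, Fintype.card_fin, nsmul_eq_mul]; ring

open Classical in
/-- proper prime powers are rare: a Markov bound -/
lemma powers_few (b : ℕ) (hb : 2 ≤ b) (η : ℝ) (r : ℕ) (κ : Fin r → ℕ) (B k : ℕ) (hk : 1 ≤ k) (w : ℕ → ℕ × ℕ → ℝ) (u : ℕ → ℝ)
    (hw : Pairs b k η w) (hu : ∀ a, 0 ≤ u a) (hu1 : ∑ a ∈ range b, u a = 1) (H : ℕ) (hH : H ≤ B * b ^ k) (X : ℕ) (hX1 : 1 ≤ X)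
    (hX : (∑ i, 3 * κ i + B) * b ^ k ≤ X) (τ : ℝ) (_hτ : 0 < τ) :
    τ * ((((Fintype.piFinset (fun _ : Fin r => Icc 1 H)).filter (fun h => τ < ∑ i, ∑ x ∈ Om b k, pr k w u x *
      lamP (κ i * dv b k x + h i))).card : ℕ) : ℝ) ≤ r * (H : ℝ) ^ (r - 1) * (2 * √(X : ℝ) * Real.log X) := by
  have h1 : τ * ((((Fintype.piFinset (fun _ : Fin r => Icc 1 H)).filter (fun h => τ < ∑ i, ∑ x ∈ Om b k, pr k w u x *
      lamP (κ i * dv b k x + h i))).card : ℕ) : ℝ) ≤ ∑ h ∈ Fintype.piFinset (fun _ : Fin r => Icc 1 H), ∑ i, ∑ x ∈ Om b k, pr k w u x *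
      lamP (κ i * dv b k x + h i) := by
    rw [mul_comm, ← nsmul_eq_mul, ← sum_const]
    refine (sum_le_sum (fun h hh => (mem_filter.1 hh).2.le)).trans ?_
    apply sum_le_sum_of_subset_of_nonneg (filter_subset _ _)
    intro h _ _
    exact sum_nonneg fun i _ => sum_nonneg fun x _ => mul_nonneg (pr_nonneg b k η w u hw hu x) (lamP_nonneg _)
  refine h1.trans ?_
  rw [sum_comm]
  have h2 : ∀ i ∈ (univ : Finset (Fin r)), ∑ h ∈ Fintype.piFinset (fun _ : Fin r => Icc 1 H), ∑ x ∈ Om b k, pr k w u x *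
      lamP (κ i * dv b k x + h i) ≤ (H : ℝ) ^ (r - 1) * (2 * √(X : ℝ) * Real.log X) := by
    intro i _
    rw [sum_comm]
    have h3 : ∀ x ∈ Om b k, ∑ h ∈ Fintype.piFinset (fun _ : Fin r => Icc 1 H), pr k w u x * lamP (κ i * dv b k x + h i) ≤
        pr k w u x * ((H : ℝ) ^ (r - 1) * (2 * √(X : ℝ) * Real.log X)) := by
      intro x hx
      rw [← mul_sum, sum_one r H i (fun n => lamP (κ i * dv b k x + n))]
      apply mul_le_mul_of_nonneg_left _ (pr_nonneg b k η w u hw hu x)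
      apply mul_le_mul_of_nonneg_left _ (by positivity)
      apply sum_lamP X _ H hX1
      have c1 := dv_lt b k hb x hx hk
      have c2 : 3 * κ i ≤ ∑ i, 3 * κ i := single_le_sum (f := fun i => 3 * κ i) (fun _ _ => Nat.zero_le _) (mem_univ i)
      refine le_trans ?_ hX
      calc κ i * dv b k x + H ≤ κ i * (3 * b ^ k) + B * b ^ k := Nat.add_le_add (Nat.mul_le_mul_left _ c1.le) hH
        _ = (3 * κ i + B) * b ^ k := by ring
        _ ≤ _ := Nat.mul_le_mul_right _ (by omega)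
    refine (sum_le_sum h3).trans (le_of_eq ?_)
    rw [← sum_mul, pr_sum b k η w u hw hu1, one_mul]
  refine (sum_le_sum h2).trans (le_of_eq ?_)
  rw [sum_const, card_univ, Fintype.card_fin, nsmul_eq_mul]
  ring

open Classical in
lemma mean_upper (b k : ℕ) (hb : 2 ≤ b) (hk : 1 ≤ k) (η : ℝ) (r : ℕ) (κ : Fin r → ℕ) (w : ℕ → ℕ × ℕ → ℝ) (u : ℕ → ℝ)
    (hw : Pairs b k η w) (hu : ∀ a, 0 ≤ u a) (h : Fin r → ℕ) (K Lx : ℝ) (hK : 0 ≤ K)
    (h1 : ∀ x ∈ Om b k, ∀ i, ArithmeticFunction.vonMangoldt (κ i * dv b k x + h i) ≤ K)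
    (h2 : ∀ x ∈ Om b k, ∀ i, Real.log ((κ i * dv b k x + h i : ℕ) : ℝ) ≤ Lx) :
    ∑ x ∈ Om b k, pr k w u x * ∏ i, ArithmeticFunction.vonMangoldt (κ i * dv b k x + h i) ≤
      Lx ^ r * Pb b k w u (fun v => ∀ i, (κ i * v + h i).Prime) +
      K ^ (r - 1) * ∑ i, ∑ x ∈ Om b k, pr k w u x * lamP (κ i * dv b k x + h i) := by
  have e1 : ∀ x ∈ Om b k, pr k w u x * ∏ i, ArithmeticFunction.vonMangoldt (κ i * dv b k x + h i) ≤
      Lx ^ r * (if ∀ i, (κ i * dv b k x + h i).Prime then pr k w u x else 0) + K ^ (r - 1) * ∑ i, pr k w u x * lamP (κ i * dv b k x + h i) := by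
    intro x hx
    have e2 := mul_le_mul_of_nonneg_left (prod_upper (fun i => κ i * dv b k x + h i) K Lx hK (h1 x hx) (h2 x hx)) (pr_nonneg b k η w u hw hu x)
    refine e2.trans (le_of_eq ?_)
    rw [← mul_sum]
    split_ifs <;> ring
  refine (sum_le_sum e1).trans (le_of_eq ?_)
  unfold Pb
  rw [sum_add_distrib, ← mul_sum, ← mul_sum, sum_comm]
  congr 1
  congr 1
  apply sum_congr rfl
  intro x _
  by_cases hh : ∀ i, (κ i * dv b k x + h i).Prime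
  · rw [if_pos hh, if_pos hh]
  · rw [if_neg hh, if_neg hh]

open Classical in
lemma mean_lower (b k : ℕ) (η : ℝ) (r : ℕ) (κ : Fin r → ℕ) (w : ℕ → ℕ × ℕ → ℝ) (u : ℕ → ℝ)
    (hw : Pairs b k η w) (hu : ∀ a, 0 ≤ u a) (h : Fin r → ℕ) (Ll : ℝ) (hL : 0 ≤ Ll)
    (h2 : ∀ x ∈ Om b k, ∀ i, Ll ≤ Real.log ((κ i * dv b k x + h i : ℕ) : ℝ)) :
    Ll ^ r * Pb b k w u (fun v => ∀ i, (κ i * v + h i).Prime) ≤
    ∑ x ∈ Om b k, pr k w u x * ∏ i, ArithmeticFunction.vonMangoldt (κ i * dv b k x + h i) := by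
  unfold Pb
  rw [mul_sum]
  apply sum_le_sum
  intro x hx
  have e2 := mul_le_mul_of_nonneg_left (prod_lower (fun i => κ i * dv b k x + h i) Ll hL (h2 x hx)) (pr_nonneg b k η w u hw hu x)
  refine le_trans (le_of_eq ?_) e2
  split_ifs <;> ring

/-- exponentials beat powers -/
lemma pow_le_root (b N : ℕ) (hb : 2 ≤ b) : ∃ k0 : ℕ, ∀ k : ℕ, k0 ≤ k → (k : ℝ) ^ N ≤ √((b ^ k : ℕ) : ℝ) := by
  have hlim := isLittleO_pow_const_const_pow_of_one_lt (R := ℝ) (2 * N) (r := (2 : ℝ)) (by norm_num)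
  have h2 := hlim.def (c := 1) (by norm_num)
  rw [Filter.eventually_atTop] at h2
  obtain ⟨k0, h2⟩ := h2
  refine ⟨k0, fun k hk => ?_⟩
  have h3 := h2 k hk
  rw [Real.norm_of_nonneg (by positivity), Real.norm_of_nonneg (by positivity), one_mul] at h3
  apply Real.le_sqrt_of_sq_le
  rw [← pow_mul, mul_comm N 2]
  refine h3.trans ?_
  push_cast
  exact pow_le_pow_left₀ (by norm_num) (by exact_mod_cast hb) _

open Classical in
/-- **counting primes** along random strings of digits, for almost all shifts -/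
theorem law_count (b : ℕ) (hb : 2 ≤ b) (η : ℝ) (hη : 0 < η) (hη1 : η ≤ 1) (r : ℕ) (κ : Fin r → ℕ) (hκ : ∀ i, 1 ≤ κ i) (B : ℕ) :
    ∃ P1 : ℕ, ∀ P0 : ℕ, P1 ≤ P0 → ∀ A : ℕ, ∃ E0 : ℕ, ∀ E : ℕ, E0 ≤ E → ∀ ε : ℝ, 0 < ε → ∃ k0 : ℕ, ∀ k : ℕ, k0 ≤ k →
    ∀ (w : ℕ → ℕ × ℕ → ℝ) (u : ℕ → ℝ), Pairs b k η w → (∀ a, 0 ≤ u a) → ∑ a ∈ range b, u a = 1 →
    ∀ H : ℕ, b ^ k ≤ H * k ^ A → H ≤ B * b ^ k →
    ((((Fintype.piFinset (fun _ : Fin r => Icc 1 H)).filter (fun h => ε * Sg b k w u κ h P0 (k ^ E) + 1 / (k : ℝ) ^ A <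
      |Real.log ((b ^ k : ℕ) : ℝ) ^ r * Pb b k w u (fun v => ∀ i, (κ i * v + h i).Prime) -
        Sg b k w u κ h P0 (k ^ E)|)).card : ℕ) : ℝ) ≤ (H : ℝ) ^ r / (k : ℝ) ^ A := by
  obtain ⟨P1, hP1⟩ := fund b hb η hη hη1 r κ hκ
  refine ⟨P1, fun P0 hP0 A => ?_⟩
  obtain ⟨A1, hA1⟩ : ∃ A1, A1 = A + 2 := ⟨_, rfl⟩
  obtain ⟨E0, hE0⟩ := law_main b hb η hη r κ hκ B A1
  refine ⟨E0 + 1, fun E hE ε hε => ?_⟩
  obtain ⟨k1, hmain⟩ := hE0 E (by omega)
  obtain ⟨k2, hfund⟩ := hP1 P0 hP0 E (A1 + 2 * r) (by omega)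
  obtain ⟨C, hC⟩ : ∃ C, C = ∑ i, 3 * κ i + B + 1 := ⟨_, rfl⟩
  obtain ⟨k3, hbd⟩ := bounds b C E hb
  obtain ⟨δ, hδ⟩ : ∃ δ : ℝ, δ = min (1 / 2) (ε / 2) := ⟨_, rfl⟩
  have hδ0 : 0 < δ := by rw [hδ]; exact lt_min (by norm_num) (by linarith)
  have hδ1 : δ ≤ 1 / 2 := by rw [hδ]; exact min_le_left _ _
  have hδ2 : 2 * δ ≤ ε := by
    have : δ ≤ ε / 2 := by rw [hδ]; exact min_le_right _ _
    linarith
  obtain ⟨k4, hlogs⟩ := logs_near b C (A + A1) r hb (by omega) δ hδ0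
  obtain ⟨N, hN⟩ : ∃ N, N = 2 * A1 + 2 * r + A + 3 := ⟨_, rfl⟩
  obtain ⟨k5, hexp⟩ := pow_le_root b N hb
  refine ⟨k1 + k2 + k3 + k4 + k5 + P0 + C + b + 4 * r * C + r + 10, fun k hk w u hw hu hu1 H hH1 hH2 => ?_⟩
  have hk1 : 1 ≤ k := by omega
  have hkr : (10 : ℝ) ≤ k := by exact_mod_cast (by omega : 10 ≤ k)
  have hk0 : (0 : ℝ) < k := by linarith
  have hkr1 : (1 : ℝ) ≤ k := by linarith
  obtain ⟨z, hz⟩ : ∃ z, z = k ^ E := ⟨_, rfl⟩
  have hkz : k ≤ z := by rw [hz]; exact Nat.le_self_pow (by omega) k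
  have hbk1 : 1 ≤ b ^ k := Nat.one_le_pow _ _ (by omega)
  have hH0 : 1 ≤ H := by
    rcases Nat.eq_zero_or_pos H with rfl | h
    · rw [zero_mul] at hH1; omega
    · exact h
  have hHr : (1 : ℝ) ≤ H := by exact_mod_cast hH0
  obtain ⟨X, hX⟩ : ∃ X, X = C * b ^ k := ⟨_, rfl⟩
  have hX1 : 1 ≤ X := by rw [hX, hC]; exact Nat.mul_pos (by omega) hbk1
  have hsz : ∀ i, ∀ x ∈ Om b k, ∀ h ∈ Icc 1 H, κ i * dv b k x + h ≤ C * b ^ k := by
    intro i x hx h hh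
    have c1 := dv_lt b k hb x hx (by omega)
    rw [mem_Icc] at hh
    have c2 : 3 * κ i ≤ ∑ i, 3 * κ i := single_le_sum (f := fun i => 3 * κ i) (fun _ _ => Nat.zero_le _) (mem_univ i)
    calc κ i * dv b k x + h ≤ κ i * (3 * b ^ k) + B * b ^ k := by
          apply Nat.add_le_add (Nat.mul_le_mul_left _ c1.le)
          exact hh.2.trans hH2
      _ = (3 * κ i + B) * b ^ k := by ring
      _ ≤ _ := Nat.mul_le_mul_right _ (by omega)
  set box := Fintype.piFinset (fun _ : Fin r => Icc 1 H) with hbox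
  -- the exceptional sets
  have t1 := hmain k (by omega) w u hw hu hu1 H (hH1.trans (Nat.mul_le_mul_left _ (Nat.pow_le_pow_right (by omega) (by omega)))) hH2
    (fun _ => 1) (fun _ => by simp)
  have t2 := small_few r H (k ^ A1) (Nat.one_le_pow _ _ (by omega))
  have t3 := powers_few b hb η r κ B k hk1 w u hw hu hu1 H hH2 X hX1 (by
    rw [hX, hC]; exact Nat.mul_le_mul_right _ (by omega)) (1 / (k : ℝ) ^ (A1 + 2 * r)) (by positivity)
  rw [← hbox] at t1 t2 t3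
  set T1 := box.filter (fun h => 1 / (k : ℝ) ^ A1 < |∑ x ∈ Om b k, pr k w u x * 1 * (∏ i, ArithmeticFunction.vonMangoldt (κ i * dv b k x + h i) -
        ∏ i, lamz (k ^ E) (κ i * dv b k x + h i))|) with hT1
  set T2 := box.filter (fun h => ∃ i, h i * k ^ A1 < H) with hT2
  set T3 := box.filter (fun h => 1 / (k : ℝ) ^ (A1 + 2 * r) < ∑ i, ∑ x ∈ Om b k, pr k w u x * lamP (κ i * dv b k x + h i)) with hT3
  have hHpow : 0 ≤ (H : ℝ) ^ r := by positivity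
  have hT3c : ((T3.card : ℕ) : ℝ) ≤ (H : ℝ) ^ r / (k : ℝ) ^ A1 := by
    rcases Nat.eq_zero_or_pos r with hr | hr
    · have : ((T3.card : ℕ) : ℝ) ≤ 0 := by
        have h5 : (r : ℝ) = 0 := by exact_mod_cast hr
        rw [h5, zero_mul, zero_mul] at t3
        by_contra hcon
        push Not at hcon
        have : 0 < 1 / (k : ℝ) ^ (A1 + 2 * r) * ((T3.card : ℕ) : ℝ) := by positivity
        linarith
      exact this.trans (by positivity)
    have e3 : (H : ℝ) ^ r = (H : ℝ) ^ (r - 1) * H := by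
      rw [← pow_succ]; congr 1; omega
    have e4 : √(X : ℝ) ≤ C * √((b ^ k : ℕ) : ℝ) := by
      rw [hX, Nat.cast_mul, Real.sqrt_mul (Nat.cast_nonneg _)]
      apply mul_le_mul_of_nonneg_right _ (Real.sqrt_nonneg _)
      apply Real.sqrt_le_iff.2
      refine ⟨Nat.cast_nonneg _, ?_⟩
      have : (1 : ℝ) ≤ C := by exact_mod_cast (by omega : 1 ≤ C)
      nlinarith
    have e5 : Real.log X ≤ 2 * (k : ℝ) ^ 2 := by
      have hCp : (0 : ℝ) < C := by exact_mod_cast (by omega : 0 < C)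
      have hbp : (0 : ℝ) < b := by exact_mod_cast (by omega : 0 < b)
      rw [hX]
      push_cast
      rw [Real.log_mul hCp.ne' (by positivity), Real.log_pow]
      have f1 : Real.log C ≤ C - 1 := Real.log_le_sub_one_of_pos hCp
      have f2 : Real.log b ≤ b - 1 := Real.log_le_sub_one_of_pos hbp
      have f3 : (C : ℝ) ≤ k := by exact_mod_cast (by omega : C ≤ k)
      have f4 : (b : ℝ) ≤ k := by exact_mod_cast (by omega : b ≤ k)
      nlinarith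
    have e6 := hexp k (by omega)
    have e7 : 4 * (r : ℝ) * C ≤ k := by exact_mod_cast (by omega : 4 * r * C ≤ k)
    have e8 : ((b ^ k : ℕ) : ℝ) ≤ H * (k : ℝ) ^ A := by exact_mod_cast hH1
    have hs0 : 0 ≤ √((b ^ k : ℕ) : ℝ) := Real.sqrt_nonneg _
    have hss : √((b ^ k : ℕ) : ℝ) * √((b ^ k : ℕ) : ℝ) = ((b ^ k : ℕ) : ℝ) := Real.mul_self_sqrt (Nat.cast_nonneg _)
    have hlX0 : 0 ≤ Real.log X := Real.log_nonneg (by exact_mod_cast hX1)
    -- 2 r √X log X k^(2 A1 + 2 r) ≤ H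
    have e9 : (r : ℝ) * (2 * √(X : ℝ) * Real.log X) * (k : ℝ) ^ (2 * A1 + 2 * r) ≤ H := by
      have g1 : (r : ℝ) * (2 * √(X : ℝ) * Real.log X) ≤ (r : ℝ) * (2 * (C * √((b ^ k : ℕ) : ℝ)) * (2 * (k : ℝ) ^ 2)) := by gcongr
      have g2 : (r : ℝ) * (2 * (C * √((b ^ k : ℕ) : ℝ)) * (2 * (k : ℝ) ^ 2)) = (4 * r * C) * ((k : ℝ) ^ 2 * √((b ^ k : ℕ) : ℝ)) := by ring
      have g3 : (4 * r * C) * ((k : ℝ) ^ 2 * √((b ^ k : ℕ) : ℝ)) ≤ k * ((k : ℝ) ^ 2 * √((b ^ k : ℕ) : ℝ)) :=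
        mul_le_mul_of_nonneg_right e7 (by positivity)
      have g4 : (r : ℝ) * (2 * √(X : ℝ) * Real.log X) * (k : ℝ) ^ (2 * A1 + 2 * r) * (k : ℝ) ^ A ≤ H * (k : ℝ) ^ A := by
        calc (r : ℝ) * (2 * √(X : ℝ) * Real.log X) * (k : ℝ) ^ (2 * A1 + 2 * r) * (k : ℝ) ^ A
            ≤ (k * ((k : ℝ) ^ 2 * √((b ^ k : ℕ) : ℝ))) * (k : ℝ) ^ (2 * A1 + 2 * r) * (k : ℝ) ^ A := by
              have := g1.trans (g2.le.trans g3)
              gcongr
          _ = (k : ℝ) ^ N * √((b ^ k : ℕ) : ℝ) := by rw [hN]; ring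
          _ ≤ √((b ^ k : ℕ) : ℝ) * √((b ^ k : ℕ) : ℝ) := mul_le_mul_of_nonneg_right e6 hs0
          _ ≤ _ := by rw [hss]; exact e8
      exact le_of_mul_le_mul_right g4 (by positivity)
    rw [e3, le_div_iff₀ (by positivity)]
    have e10 : ((T3.card : ℕ) : ℝ) ≤ r * (H : ℝ) ^ (r - 1) * (2 * √(X : ℝ) * Real.log X) * (k : ℝ) ^ (A1 + 2 * r) := by
      have hkp : 0 < (k : ℝ) ^ (A1 + 2 * r) := by positivity
      rw [one_div_mul_eq_div, div_le_iff₀ hkp] at t3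
      exact t3
    calc ((T3.card : ℕ) : ℝ) * (k : ℝ) ^ A1 ≤ (r * (H : ℝ) ^ (r - 1) * (2 * √(X : ℝ) * Real.log X) * (k : ℝ) ^ (A1 + 2 * r)) * (k : ℝ) ^ A1 :=
          mul_le_mul_of_nonneg_right e10 (by positivity)
      _ = (H : ℝ) ^ (r - 1) * ((r : ℝ) * (2 * √(X : ℝ) * Real.log X) * (k : ℝ) ^ (2 * A1 + 2 * r)) := by ring
      _ ≤ _ := mul_le_mul_of_nonneg_left e9 (by positivity)
  have hT2c : ((T2.card : ℕ) : ℝ) ≤ r * ((H : ℝ) ^ r / (k : ℝ) ^ A1) := by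
    refine t2.trans (le_of_eq ?_)
    push_cast
    ring
  -- the good shifts
  have hsub : box.filter (fun h => ε * Sg b k w u κ h P0 (k ^ E) + 1 / (k : ℝ) ^ A <
      |Real.log ((b ^ k : ℕ) : ℝ) ^ r * Pb b k w u (fun v => ∀ i, (κ i * v + h i).Prime) -
        Sg b k w u κ h P0 (k ^ E)|) ⊆ T1 ∪ (T2 ∪ T3) := by
    intro h hh
    rw [mem_filter] at hh
    obtain ⟨hhb, hh⟩ := hh
    by_contra hcon
    rw [mem_union, mem_union, not_or, not_or, hT1, hT2, hT3, mem_filter, mem_filter, mem_filter] at hcon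
    obtain ⟨c1, c2, c3⟩ := hcon
    have c1' := not_lt.1 (fun h' => c1 ⟨hhb, h'⟩)
    have c2' : ∀ i, H ≤ h i * k ^ A1 := fun i => not_lt.1 (fun h' => c2 ⟨hhb, ⟨i, h'⟩⟩)
    have c3' := not_lt.1 (fun h' => c3 ⟨hhb, h'⟩)
    clear c1 c2 c3
    have hhI : ∀ i, h i ∈ Icc 1 H := fun i => by
      rw [hbox, Fintype.mem_piFinset] at hhb
      exact hhb i
    obtain ⟨P, hP⟩ : ∃ P, P = Pb b k w u (fun v => ∀ i, (κ i * v + h i).Prime) := ⟨_, rfl⟩
    obtain ⟨S, hS⟩ : ∃ S, S = Sg b k w u κ h P0 (k ^ E) := ⟨_, rfl⟩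
    have hS0 : 0 ≤ S := by rw [hS]; exact Sg_nonneg b k η w u hw hu κ h P0 _
    have hP0' : 0 ≤ P := by rw [hP]; exact Pb_nonneg b k η w u hw hu _
    obtain ⟨l1, l2, l3⟩ := hlogs k (by omega)
    rw [← hX] at l1
    have u1 := mean_upper b k hb hk1 η r κ w u hw hu h ((k : ℝ) ^ 2) (Real.log X) (by positivity)
      (fun x hx i => (le_abs_self _).trans (hbd k (by omega) _ (hsz i x hx (h i) (hhI i))).1)
      (fun x hx i => by
        have h3 := hsz i x hx (h i) (hhI i)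
        have h4 := (mem_Icc.1 (hhI i)).1
        apply Real.log_le_log (by exact_mod_cast (by omega : 0 < κ i * dv b k x + h i))
        rw [hX]
        exact_mod_cast h3)
    have u2 := mean_lower b k η r κ w u hw hu h (Real.log ((b ^ k : ℕ) : ℝ) - (A + A1 : ℕ) * Real.log k) l2
      (fun x hx i => by
        have h4 := (mem_Icc.1 (hhI i)).1
        have h5 : b ^ k ≤ h i * k ^ (A + A1) := by
          calc b ^ k ≤ H * k ^ A := hH1
            _ ≤ (h i * k ^ A1) * k ^ A := Nat.mul_le_mul_right _ (c2' i)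
            _ = _ := by ring
        have h6 : Real.log ((b ^ k : ℕ) : ℝ) ≤ Real.log (h i) + (A + A1 : ℕ) * Real.log k := by
          have hh0 : (0 : ℝ) < h i := by exact_mod_cast h4
          rw [← Real.log_pow, ← Real.log_mul hh0.ne' (by positivity)]
          apply Real.log_le_log (by exact_mod_cast hbk1)
          exact_mod_cast h5
        have h7 : Real.log (h i) ≤ Real.log ((κ i * dv b k x + h i : ℕ) : ℝ) := by
          apply Real.log_le_log (by exact_mod_cast h4)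
          exact_mod_cast Nat.le_add_left _ _
        linarith)
    rw [← hP] at u1 u2
    obtain ⟨x, hx⟩ : ∃ x, x = ∑ x ∈ Om b k, pr k w u x * ∏ i, ArithmeticFunction.vonMangoldt (κ i * dv b k x + h i) := ⟨_, rfl⟩
    rw [← hx] at u1 u2
    obtain ⟨y2, hy2⟩ : ∃ y2, y2 = ∑ x ∈ Om b k, pr k w u x * ∏ i, lamz (k ^ E) (κ i * dv b k x + h i) := ⟨_, rfl⟩
    have v1 : |x - y2| ≤ 1 / (k : ℝ) ^ A1 := by
      refine le_trans (le_of_eq ?_) c1'
      rw [hx, hy2, ← sum_sub_distrib]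
      congr 1
      apply sum_congr rfl
      intro x _
      ring
    have hVz0 : 0 ≤ (Vz z)⁻¹ := inv_nonneg.2 (Vz_pos _).le
    have hVz : (Vz z)⁻¹ ≤ (k : ℝ) ^ 2 := by
      have h8 := (hbd k (by omega) 1 (by rw [← hX]; exact hX1)).2
      have h9 : lamz (k ^ E) 1 = (Vz z)⁻¹ := by
        rw [← hz]
        unfold lamz
        rw [if_pos]
        intro p hp hd
        have := (mem_pz.1 hp).2
        exact this.one_lt.ne' (Nat.dvd_one.1 hd)
      rw [h9] at h8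
      exact (le_abs_self _).trans h8
    have v2 : y2 = ((Vz z)⁻¹) ^ r * Pb b k w u (fun v => ∀ p ∈ pz (k ^ E), ¬ hit κ h p v) := by
      rw [hy2]
      unfold Pb
      rw [mul_sum]
      apply sum_congr rfl
      intro x _
      rw [prod_lamz κ h (k ^ E) (dv b k x), ← hz]
      split_ifs <;> ring
    have v3 : S = ((Vz z)⁻¹) ^ r * (Pb b k w u (fun v => ∀ p ∈ pz P0, ¬ hit κ h p v) *
        ∏ p ∈ (pz (k ^ E)).filter (fun p => P0 < p), (1 - (nu κ h p : ℝ) / p)) := by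
      rw [hS, Sg_eq b k w u κ h P0 (k ^ E) (by rw [← hz]; omega), ← hz]
    have v4 : |y2 - S| ≤ 2 / (k : ℝ) ^ A1 := by
      rw [v2, v3, ← mul_sub, abs_mul, abs_of_nonneg (pow_nonneg hVz0 r)]
      have h10 := hfund k (by omega) w u hw hu hu1 h
      calc ((Vz z)⁻¹) ^ r * |Pb b k w u (fun v => ∀ p ∈ pz (k ^ E), ¬ hit κ h p v) - Pb b k w u (fun v => ∀ p ∈ pz P0, ¬ hit κ h p v) *
            ∏ p ∈ (pz (k ^ E)).filter (fun p => P0 < p), (1 - (nu κ h p : ℝ) / p)|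
          ≤ ((k : ℝ) ^ 2) ^ r * (2 / (k : ℝ) ^ (A1 + 2 * r)) := by
            apply mul_le_mul (pow_le_pow_left₀ hVz0 hVz r) h10 (abs_nonneg _) (by positivity)
        _ = _ := by
            rw [pow_add, ← pow_mul]
            field_simp
    have v5 : |x - S| ≤ 3 / (k : ℝ) ^ A1 := by
      have : |x - S| ≤ |x - y2| + |y2 - S| := abs_sub_le _ _ _
      have h11 : 3 / (k : ℝ) ^ A1 = 1 / (k : ℝ) ^ A1 + 2 / (k : ℝ) ^ A1 := by ring
      linarith
    have v6 : ((k : ℝ) ^ 2) ^ (r - 1) * ∑ i, ∑ x ∈ Om b k, pr k w u x * lamP (κ i * dv b k x + h i) ≤ 1 / (k : ℝ) ^ A1 := by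
      calc ((k : ℝ) ^ 2) ^ (r - 1) * ∑ i, ∑ x ∈ Om b k, pr k w u x * lamP (κ i * dv b k x + h i)
          ≤ ((k : ℝ) ^ 2) ^ r * (1 / (k : ℝ) ^ (A1 + 2 * r)) := by
            apply mul_le_mul _ c3' _ (by positivity)
            · apply pow_le_pow_right₀ (one_le_pow₀ hkr1) (by omega)
            · exact sum_nonneg fun i _ => sum_nonneg fun x _ => mul_nonneg (pr_nonneg b k η w u hw hu x) (lamP_nonneg _)
        _ = _ := by
            rw [pow_add, ← pow_mul]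
            field_simp
    have w1 : x ≤ (1 + δ) * (Real.log ((b ^ k : ℕ) : ℝ) ^ r * P) + 1 / (k : ℝ) ^ A1 := by
      have : Real.log X ^ r * P ≤ (1 + δ) * Real.log ((b ^ k : ℕ) : ℝ) ^ r * P := mul_le_mul_of_nonneg_right l1 hP0'
      linarith
    have w2 : (1 - δ) * (Real.log ((b ^ k : ℕ) : ℝ) ^ r * P) ≤ x := by
      have : (1 - δ) * Real.log ((b ^ k : ℕ) : ℝ) ^ r * P ≤ (Real.log ((b ^ k : ℕ) : ℝ) - (A + A1 : ℕ) * Real.log k) ^ r * P :=
        mul_le_mul_of_nonneg_right l3 hP0'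
      linarith
    have w3 := fin_ineq x (Real.log ((b ^ k : ℕ) : ℝ) ^ r * P) S δ (3 / (k : ℝ) ^ A1) (1 / (k : ℝ) ^ A1) hδ0.le hδ1 (by positivity)
      (by positivity) hS0 w1 w2 v5
    rw [← hP, ← hS] at hh
    have w4 : 2 * (3 / (k : ℝ) ^ A1) + 1 / (k : ℝ) ^ A1 ≤ 1 / (k : ℝ) ^ A := by
      have : 2 * (3 / (k : ℝ) ^ A1) + 1 / (k : ℝ) ^ A1 = 7 / (k : ℝ) ^ A1 := by ring
      rw [this, hA1, pow_add, div_le_div_iff₀ (by positivity) (by positivity)]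
      have h12 : (7 : ℝ) ≤ (k : ℝ) ^ 2 := by nlinarith
      have h13 : 0 < (k : ℝ) ^ A := by positivity
      nlinarith
    have w5 : 2 * δ * S ≤ ε * S := mul_le_mul_of_nonneg_right hδ2 hS0
    linarith
  have hcard : (((box.filter (fun h => ε * Sg b k w u κ h P0 (k ^ E) + 1 / (k : ℝ) ^ A <
      |Real.log ((b ^ k : ℕ) : ℝ) ^ r * Pb b k w u (fun v => ∀ i, (κ i * v + h i).Prime) -
        Sg b k w u κ h P0 (k ^ E)|)).card : ℕ) : ℝ) ≤ (T1.card : ℝ) + ((T2.card : ℝ) + (T3.card : ℝ)) := by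
    have := (card_le_card hsub).trans ((card_union_le _ _).trans (Nat.add_le_add_left (card_union_le _ _) _))
    exact_mod_cast this
  refine hcard.trans ?_
  have hq : (H : ℝ) ^ r / (k : ℝ) ^ A1 * ((r : ℝ) + 2) ≤ (H : ℝ) ^ r / (k : ℝ) ^ A := by
    rw [hA1, pow_add, div_mul_eq_mul_div, div_le_div_iff₀ (by positivity) (by positivity)]
    have h12 : (r : ℝ) + 2 ≤ (k : ℝ) ^ 2 := by
      have h13 : (r : ℝ) + 10 ≤ k := by exact_mod_cast (by omega : r + 10 ≤ k)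
      nlinarith
    have h13 : 0 < (k : ℝ) ^ A := by positivity
    calc (H : ℝ) ^ r * ((r : ℝ) + 2) * (k : ℝ) ^ A ≤ (H : ℝ) ^ r * (k : ℝ) ^ 2 * (k : ℝ) ^ A := by gcongr
      _ = _ := by ring
  have : (T1.card : ℝ) + ((T2.card : ℝ) + (T3.card : ℝ)) ≤ (H : ℝ) ^ r / (k : ℝ) ^ A1 * ((r : ℝ) + 2) := by
    have := add_le_add t1 (add_le_add hT2c hT3c)
    linarith
  linarith

end Pool.Agent.Q236.PD
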