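import Mathlib

/-! Palindromes and shifts, part 1: a second moment over the shifts. -/

set_option autoImplicit false

namespace Pool.Agent.Q236.PD

open Finset

/-- the second moment of a product -/
lemma sq_prod {ι : Type} (Ω : Finset ι) (c : ι → ℝ) (r H : ℕ) (V : Fin r → ι → ℕ) (Y : Fin r → ℕ → ℝ) :
    ∑ h ∈ Fintype.piFinset (fun _ : Fin r => Icc 1 H), (∑ ω ∈ Ω, c ω * ∏ i, Y i (V i ω + h i)) ^ 2 =
      ∑ ω ∈ Ω, ∑ ω' ∈ Ω, c ω * c ω' * ∏ i, ∑ h ∈ Icc 1 H, Y i (V i ω + h) * Y i (V i ω' + h) := by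
  have h1 : ∀ h : Fin r → ℕ, (∑ ω ∈ Ω, c ω * ∏ i, Y i (V i ω + h i)) ^ 2 =
      ∑ ω ∈ Ω, ∑ ω' ∈ Ω, c ω * c ω' * ∏ i, (Y i (V i ω + h i) * Y i (V i ω' + h i)) := by
    intro h
    rw [sq, sum_mul_sum]
    apply sum_congr rfl
    intro ω _
    apply sum_congr rfl
    intro ω' _
    rw [prod_mul_distrib]
    ring
  simp only [h1]
  rw [sum_comm]
  apply sum_congr rfl
  intro ω _
  rw [sum_comm]
  apply sum_congr rfl
  intro ω' _
  rw [← mul_sum, prod_univ_sum]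

/-- telescoping -/
lemma tele (r : ℕ) (F M : Fin r → ℝ) :
    ∏ i, F i - ∏ i, M i = ∑ i : Fin r, ∏ j, (if j < i then M j else if j = i then F j - M j else F j) := by
  set X : ℕ → ℝ := fun n => ∏ j : Fin r, (if (j : ℕ) < n then M j else F j) with hX
  have h0 : X 0 = ∏ i, F i := by simp [hX]
  have hr : X r = ∏ i, M i := by
    simp only [hX]
    apply prod_congr rfl
    intro j _
    rw [if_pos j.2]
  have h1 : ∀ i : Fin r, ∏ j, (if j < i then M j else if j = i then F j - M j else F j) = X i - X (i + 1) := by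
    intro i
    simp only [hX]
    rw [← mul_prod_erase univ _ (mem_univ i), ← mul_prod_erase univ (fun j : Fin r => if (j : ℕ) < (i : ℕ) then M j else F j) (mem_univ i),
      ← mul_prod_erase univ (fun j : Fin r => if (j : ℕ) < (i : ℕ) + 1 then M j else F j) (mem_univ i)]
    have e1 : ∏ j ∈ univ.erase i, (if j < i then M j else if j = i then F j - M j else F j) =
        ∏ j ∈ univ.erase i, (if (j : ℕ) < (i : ℕ) then M j else F j) := by
      apply prod_congr rfl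
      intro j hj
      have hne : j ≠ i := (mem_erase.1 hj).1
      by_cases h : j < i
      · rw [if_pos h, if_pos (by exact h)]
      · rw [if_neg h, if_neg hne, if_neg (by exact h)]
    have e2 : ∏ j ∈ univ.erase i, (if (j : ℕ) < (i : ℕ) + 1 then M j else F j) =
        ∏ j ∈ univ.erase i, (if (j : ℕ) < (i : ℕ) then M j else F j) := by
      apply prod_congr rfl
      intro j hj
      have hne : j ≠ i := (mem_erase.1 hj).1
      have hne' : (j : ℕ) ≠ (i : ℕ) := fun h => hne (Fin.ext h)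
      by_cases h : (j : ℕ) < (i : ℕ)
      · rw [if_pos h, if_pos (by omega)]
      · rw [if_neg h, if_neg (by omega)]
    rw [e1, e2, if_neg (lt_irrefl i), if_pos rfl, if_neg (lt_irrefl (i : ℕ)), if_pos (by omega)]
    ring
  rw [sum_congr rfl (fun i _ => h1 i), Fin.sum_univ_eq_sum_range (fun i => X i - X (i + 1)) r, sum_range_sub', h0, hr]

/-- **the second moment over the shifts** -/
theorem dual {ι : Type} (Ω : Finset ι) (p : ι → ℝ) (hp : ∀ ω ∈ Ω, 0 ≤ p ω) (hp1 : ∑ ω ∈ Ω, p ω ≤ 1) (r : ℕ)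
    (V : Fin r → ι → ℕ) (H : ℕ) (F M : ℕ → ℝ) (L : ℝ) (hL : 1 ≤ L)
    (hF : ∀ i, ∀ ω ∈ Ω, ∀ h ∈ Icc 1 H, |F (V i ω + h)| ≤ L) (hM : ∀ i, ∀ ω ∈ Ω, ∀ h ∈ Icc 1 H, |M (V i ω + h)| ≤ L)
    (δ : ℝ) (hδ : 0 ≤ δ)
    (hbad : ∀ i, ∀ ω ∈ Ω, ∑ ω' ∈ Ω, (if δ * H < |∑ h ∈ Icc 1 H, (F (V i ω + h) - M (V i ω + h)) *
      (F (V i ω' + h) - M (V i ω' + h))| then p ω' else 0) ≤ δ)
    (a : ι → ℝ) (ha : ∀ ω ∈ Ω, |a ω| ≤ 1) :
    ∑ h ∈ Fintype.piFinset (fun _ : Fin r => Icc 1 H),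
      (∑ ω ∈ Ω, p ω * a ω * (∏ i, F (V i ω + h i) - ∏ i, M (V i ω + h i))) ^ 2 ≤
      (r : ℝ) ^ 2 * (5 * δ * (H : ℝ) ^ r * (L ^ 2) ^ r) := by
  classical
  -- the terms
  have hterm : ∀ i : Fin r, ∑ h ∈ Fintype.piFinset (fun _ : Fin r => Icc 1 H),
      (∑ ω ∈ Ω, (p ω * a ω) * ∏ j, (if j < i then M (V j ω + h j) else if j = i then F (V j ω + h j) - M (V j ω + h j)
        else F (V j ω + h j))) ^ 2 ≤ 5 * δ * (H : ℝ) ^ r * (L ^ 2) ^ r := by
    intro i
    set Y : Fin r → ℕ → ℝ := fun j n => if j < i then M n else if j = i then F n - M n else F n with hY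
    have h1 := sq_prod Ω (fun ω => p ω * a ω) r H V Y
    have h2 : ∑ h ∈ Fintype.piFinset (fun _ : Fin r => Icc 1 H),
      (∑ ω ∈ Ω, (p ω * a ω) * ∏ j, (if j < i then M (V j ω + h j) else if j = i then F (V j ω + h j) - M (V j ω + h j)
        else F (V j ω + h j))) ^ 2 = ∑ h ∈ Fintype.piFinset (fun _ : Fin r => Icc 1 H),
        (∑ ω ∈ Ω, (p ω * a ω) * ∏ j, Y j (V j ω + h j)) ^ 2 := rfl
    rw [h2, h1]
    have hH0 : (0 : ℝ) ≤ H := Nat.cast_nonneg _
    have hL2 : 1 ≤ L ^ 2 := one_le_pow₀ hL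
    have hL0 : 0 ≤ L := by linarith
    have hr : 1 ≤ r := by have := i.2; omega
    -- the other factors
    have hoth : ∀ j, j ≠ i → ∀ ω ∈ Ω, ∀ ω' ∈ Ω, |∑ h ∈ Icc 1 H, Y j (V j ω + h) * Y j (V j ω' + h)| ≤ H * L ^ 2 := by
      intro j hj ω hω ω' hω'
      refine (abs_sum_le_sum_abs _ _).trans ?_
      have : ∀ h ∈ Icc 1 H, |Y j (V j ω + h) * Y j (V j ω' + h)| ≤ L ^ 2 := by
        intro h hh
        rw [abs_mul, sq]
        have b1 : ∀ ω ∈ Ω, |Y j (V j ω + h)| ≤ L := by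
          intro ω hω
          simp only [hY]
          split_ifs
          · exact hM j ω hω h hh
          · exact hF j ω hω h hh
        exact mul_le_mul (b1 ω hω) (b1 ω' hω') (abs_nonneg _) hL0
      refine (sum_le_sum this).trans ?_
      rw [sum_const, Nat.card_Icc, nsmul_eq_mul]
      simp
    have hown : ∀ ω ∈ Ω, ∀ ω' ∈ Ω, |∑ h ∈ Icc 1 H, Y i (V i ω + h) * Y i (V i ω' + h)| ≤ 4 * (H * L ^ 2) := by
      intro ω hω ω' hω'
      refine (abs_sum_le_sum_abs _ _).trans ?_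
      have : ∀ h ∈ Icc 1 H, |Y i (V i ω + h) * Y i (V i ω' + h)| ≤ 4 * L ^ 2 := by
        intro h hh
        rw [abs_mul]
        have b1 : ∀ ω ∈ Ω, |Y i (V i ω + h)| ≤ 2 * L := by
          intro ω hω
          simp only [hY]
          rw [if_neg (lt_irrefl i), if_pos trivial]
          have c1 := hM i ω hω h hh
          have c2 := hF i ω hω h hh
          calc |F (V i ω + h) - M (V i ω + h)| ≤ |F (V i ω + h)| + |M (V i ω + h)| := abs_sub _ _
            _ ≤ 2 * L := by linarith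
        calc |Y i (V i ω + h)| * |Y i (V i ω' + h)| ≤ (2 * L) * (2 * L) :=
              mul_le_mul (b1 ω hω) (b1 ω' hω') (abs_nonneg _) (by linarith)
          _ = 4 * L ^ 2 := by ring
      refine (sum_le_sum this).trans ?_
      rw [sum_const, Nat.card_Icc, nsmul_eq_mul]
      simp
      nlinarith
    have hprod : ∀ ω ∈ Ω, ∀ ω' ∈ Ω, |∏ j, ∑ h ∈ Icc 1 H, Y j (V j ω + h) * Y j (V j ω' + h)| ≤
        |∑ h ∈ Icc 1 H, Y i (V i ω + h) * Y i (V i ω' + h)| * (H * L ^ 2) ^ (r - 1) := by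
      intro ω hω ω' hω'
      rw [← mul_prod_erase univ _ (mem_univ i), abs_mul]
      apply mul_le_mul_of_nonneg_left _ (abs_nonneg _)
      rw [abs_prod]
      calc ∏ j ∈ univ.erase i, |∑ h ∈ Icc 1 H, Y j (V j ω + h) * Y j (V j ω' + h)| ≤ ∏ j ∈ univ.erase i, (H * L ^ 2) := by
            apply prod_le_prod (fun _ _ => abs_nonneg _)
            intro j hj
            exact hoth j (mem_erase.1 hj).1 ω hω ω' hω'
        _ = _ := by
            rw [prod_const, card_erase_of_mem (mem_univ i), card_univ, Fintype.card_fin]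
    -- the own factor on average
    have hin : ∀ ω ∈ Ω, ∑ ω' ∈ Ω, p ω' * |∑ h ∈ Icc 1 H, Y i (V i ω + h) * Y i (V i ω' + h)| ≤ 5 * δ * (H * L ^ 2) := by
      intro ω hω
      have hb := hbad i ω hω
      have hYi : ∀ n, Y i n = F n - M n := by
        intro n
        simp only [hY]
        rw [if_neg (lt_irrefl i), if_pos trivial]
      have h3 : ∀ ω' ∈ Ω, p ω' * |∑ h ∈ Icc 1 H, Y i (V i ω + h) * Y i (V i ω' + h)| ≤
          p ω' * (δ * H) + 4 * (H * L ^ 2) * (if δ * H < |∑ h ∈ Icc 1 H, (F (V i ω + h) - M (V i ω + h)) *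
      (F (V i ω' + h) - M (V i ω' + h))| then p ω' else 0) := by
        intro ω' hω'
        have h4 := hown ω hω ω' hω'
        simp only [hYi] at h4 ⊢
        have h5 := hp ω' hω'
        split_ifs with h
        · have : 0 ≤ p ω' * (δ * H) := by positivity
          nlinarith [mul_le_mul_of_nonneg_left h4 h5]
        · push Not at h
          have := mul_le_mul_of_nonneg_left h h5
          linarith
      refine (sum_le_sum h3).trans ?_
      rw [sum_add_distrib, ← sum_mul, ← mul_sum]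
      have h6 : (∑ ω' ∈ Ω, p ω') * (δ * H) ≤ 1 * (δ * H) := mul_le_mul_of_nonneg_right hp1 (by positivity)
      have h7 := mul_le_mul_of_nonneg_left hb (show (0 : ℝ) ≤ 4 * (H * L ^ 2) by positivity)
      have h8 : δ * H ≤ δ * (H * L ^ 2) := by
        apply mul_le_mul_of_nonneg_left _ hδ
        nlinarith
      linarith
    calc ∑ ω ∈ Ω, ∑ ω' ∈ Ω, p ω * a ω * (p ω' * a ω') * ∏ j, ∑ h ∈ Icc 1 H, Y j (V j ω + h) * Y j (V j ω' + h)
        ≤ ∑ ω ∈ Ω, ∑ ω' ∈ Ω, p ω * (p ω' * |∑ h ∈ Icc 1 H, Y i (V i ω + h) * Y i (V i ω' + h)|) * (H * L ^ 2) ^ (r - 1) := by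
          apply sum_le_sum; intro ω hω
          apply sum_le_sum; intro ω' hω'
          refine (le_abs_self _).trans ?_
          rw [abs_mul]
          have c1 : |p ω * a ω * (p ω' * a ω')| ≤ p ω * p ω' := by
            rw [abs_mul, abs_mul, abs_mul, abs_of_nonneg (hp ω hω), abs_of_nonneg (hp ω' hω')]
            have := mul_le_mul (ha ω hω) (ha ω' hω') (abs_nonneg _) zero_le_one
            have h5 := mul_nonneg (hp ω hω) (hp ω' hω')
            nlinarith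
          calc |p ω * a ω * (p ω' * a ω')| * |∏ j, ∑ h ∈ Icc 1 H, Y j (V j ω + h) * Y j (V j ω' + h)|
              ≤ (p ω * p ω') * (|∑ h ∈ Icc 1 H, Y i (V i ω + h) * Y i (V i ω' + h)| * (H * L ^ 2) ^ (r - 1)) :=
                mul_le_mul c1 (hprod ω hω ω' hω') (abs_nonneg _) (mul_nonneg (hp ω hω) (hp ω' hω'))
            _ = _ := by ring
      _ = (∑ ω ∈ Ω, p ω * ∑ ω' ∈ Ω, p ω' * |∑ h ∈ Icc 1 H, Y i (V i ω + h) * Y i (V i ω' + h)|) * (H * L ^ 2) ^ (r - 1) := by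
          rw [sum_mul]
          apply sum_congr rfl
          intro ω _
          rw [← sum_mul, ← mul_sum]
      _ ≤ (∑ ω ∈ Ω, p ω * (5 * δ * (H * L ^ 2))) * (H * L ^ 2) ^ (r - 1) := by
          apply mul_le_mul_of_nonneg_right _ (by positivity)
          apply sum_le_sum
          intro ω hω
          exact mul_le_mul_of_nonneg_left (hin ω hω) (hp ω hω)
      _ ≤ (1 * (5 * δ * (H * L ^ 2))) * (H * L ^ 2) ^ (r - 1) := by
          apply mul_le_mul_of_nonneg_right _ (by positivity)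
          rw [← sum_mul]
          exact mul_le_mul_of_nonneg_right hp1 (by positivity)
      _ = 5 * δ * (H * L ^ 2) ^ r := by
          obtain ⟨q, rfl⟩ : ∃ q, r = q + 1 := ⟨r - 1, by omega⟩
          rw [Nat.add_sub_cancel, pow_succ]
          ring
      _ = _ := by rw [mul_pow]; ring
  -- all together
  calc ∑ h ∈ Fintype.piFinset (fun _ : Fin r => Icc 1 H),
      (∑ ω ∈ Ω, p ω * a ω * (∏ i, F (V i ω + h i) - ∏ i, M (V i ω + h i))) ^ 2
      ≤ ∑ h ∈ Fintype.piFinset (fun _ : Fin r => Icc 1 H), (r : ℝ) * ∑ i : Fin r,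
        (∑ ω ∈ Ω, (p ω * a ω) * ∏ j, (if j < i then M (V j ω + h j) else if j = i then F (V j ω + h j) - M (V j ω + h j)
        else F (V j ω + h j))) ^ 2 := by
        apply sum_le_sum
        intro h _
        have e1 : ∑ ω ∈ Ω, p ω * a ω * (∏ i, F (V i ω + h i) - ∏ i, M (V i ω + h i)) = ∑ i : Fin r,
            ∑ ω ∈ Ω, (p ω * a ω) * ∏ j, (if j < i then M (V j ω + h j) else if j = i then F (V j ω + h j) - M (V j ω + h j)
            else F (V j ω + h j)) := by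
          rw [sum_comm]
          apply sum_congr rfl
          intro ω _
          rw [tele r (fun i => F (V i ω + h i)) (fun i => M (V i ω + h i)), mul_sum]
        rw [e1]
        have := sq_sum_le_card_mul_sum_sq (s := (univ : Finset (Fin r))) (f := fun i : Fin r =>
            ∑ ω ∈ Ω, (p ω * a ω) * ∏ j, (if j < i then M (V j ω + h j) else if j = i then F (V j ω + h j) - M (V j ω + h j)
            else F (V j ω + h j)))
        rw [card_univ, Fintype.card_fin] at this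
        exact this
    _ = (r : ℝ) * ∑ i : Fin r, ∑ h ∈ Fintype.piFinset (fun _ : Fin r => Icc 1 H),
        (∑ ω ∈ Ω, (p ω * a ω) * ∏ j, (if j < i then M (V j ω + h j) else if j = i then F (V j ω + h j) - M (V j ω + h j)
        else F (V j ω + h j))) ^ 2 := by
        rw [← mul_sum, sum_comm]
    _ ≤ (r : ℝ) * ∑ _i : Fin r, (5 * δ * (H : ℝ) ^ r * (L ^ 2) ^ r) := by
        apply mul_le_mul_of_nonneg_left _ (Nat.cast_nonneg _)
        exact sum_le_sum fun i _ => hterm i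
    _ = _ := by
        rw [sum_const, card_univ, Fintype.card_fin, nsmul_eq_mul]
        ring

/-- few bad shifts -/
theorem dual_few {ι : Type} (Ω : Finset ι) (p : ι → ℝ) (hp : ∀ ω ∈ Ω, 0 ≤ p ω) (hp1 : ∑ ω ∈ Ω, p ω ≤ 1) (r : ℕ)
    (V : Fin r → ι → ℕ) (H : ℕ) (F M : ℕ → ℝ) (L : ℝ) (hL : 1 ≤ L)
    (hF : ∀ i, ∀ ω ∈ Ω, ∀ h ∈ Icc 1 H, |F (V i ω + h)| ≤ L) (hM : ∀ i, ∀ ω ∈ Ω, ∀ h ∈ Icc 1 H, |M (V i ω + h)| ≤ L)
    (δ : ℝ) (hδ : 0 ≤ δ)
    (hbad : ∀ i, ∀ ω ∈ Ω, ∑ ω' ∈ Ω, (if δ * H < |∑ h ∈ Icc 1 H, (F (V i ω + h) - M (V i ω + h)) *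
      (F (V i ω' + h) - M (V i ω' + h))| then p ω' else 0) ≤ δ)
    (a : ι → ℝ) (ha : ∀ ω ∈ Ω, |a ω| ≤ 1) (ε : ℝ) (hε : 0 < ε) :
    ((((Fintype.piFinset (fun _ : Fin r => Icc 1 H)).filter (fun h =>
      ε < |∑ ω ∈ Ω, p ω * a ω * (∏ i, F (V i ω + h i) - ∏ i, M (V i ω + h i))|)).card : ℕ) : ℝ) ≤
      (r : ℝ) ^ 2 * (5 * δ * (H : ℝ) ^ r * (L ^ 2) ^ r) / ε ^ 2 := by
  have h1 := dual Ω p hp hp1 r V H F M L hL hF hM δ hδ hbad a ha
  rw [le_div_iff₀ (by positivity)]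
  refine le_trans ?_ h1
  rw [← nsmul_eq_mul]
  refine le_trans (card_nsmul_le_sum _ (fun h => (∑ ω ∈ Ω, p ω * a ω * (∏ i, F (V i ω + h i) - ∏ i, M (V i ω + h i))) ^ 2) _ ?_) ?_
  · intro h hh
    rw [mem_filter] at hh
    rw [← sq_abs (∑ ω ∈ Ω, p ω * a ω * (∏ i, F (V i ω + h i) - ∏ i, M (V i ω + h i)))]
    exact pow_le_pow_left₀ hε.le hh.2.le 2
  · exact sum_le_sum_of_subset_of_nonneg (filter_subset _ _) (fun _ _ _ => sq_nonneg _)

end Pool.Agent.Q236.PD
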