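import Pool.Agent.Q236.PD.SetLaw

/-! Palindromes and shifts, part 12: the theorems for sets given by their mirror pairs of digits. -/

set_option autoImplicit false

namespace Pool.Agent.Q236.PD

open Finset
open Pool.Agent.H373R2.T7
open Pool.Agent.TH872.Mir
open Pool.Agent.TH872.Tr (Pairs)

open Classical in
/-- the model of the von Mangoldt function given by the primes up to `z` -/
noncomputable def model (z n : ℕ) : ℝ :=
  if ∀ p ≤ z, p.Prime → ¬ p ∣ n then ∏ p ∈ (Icc 1 z).filter Nat.Prime, (1 - 1 / (p : ℝ))⁻¹ else 0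

lemma model_eq (z n : ℕ) : model z n = lamz z n := by
  classical
  unfold model lamz Vz
  have h1 : (∀ p ≤ z, p.Prime → ¬ p ∣ n) ↔ (∀ p ∈ pz z, ¬ p ∣ n) := by
    constructor
    · intro h p hp
      exact h p (mem_pz.1 hp).1 (mem_pz.1 hp).2
    · intro h p h1 h2
      exact h p (mem_pz.2 ⟨h1, h2⟩)
  have h2 : (∏ p ∈ pz z, (1 - 1 / (p : ℝ)))⁻¹ = ∏ p ∈ (Icc 1 z).filter Nat.Prime, (1 - 1 / (p : ℝ))⁻¹ := by
    rw [← prod_inv_distrib]
    rfl
  rw [h2]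
  by_cases h : ∀ p ∈ pz z, ¬ p ∣ n
  · rw [if_pos (h1.2 h), if_pos h]
  · rw [if_neg (fun h' => h (h1.1 h')), if_neg h]

open Classical in
/-- the number of the `x` modulo `p` for which `p` divides one of the numbers `κ_i x + h_i` -/
noncomputable def roots {r : ℕ} (κ h : Fin r → ℕ) (p : ℕ) : ℕ := ((range p).filter (fun x => ∃ i, p ∣ κ i * x + h i)).card

open Classical in
/-- the singular series -/
noncomputable def ser {r : ℕ} (V : Finset ℕ) (κ h : Fin r → ℕ) (P z : ℕ) : ℝ :=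
  ((V.filter (fun v => ∀ p ≤ P, p.Prime → ∀ i, ¬ p ∣ κ i * v + h i)).card : ℝ) / (V.card : ℝ) *
    (∏ p ∈ (Icc 1 P).filter Nat.Prime, ((1 - 1 / (p : ℝ)) ^ r)⁻¹) *
    ∏ p ∈ (Ioc P z).filter Nat.Prime, (1 - (roots κ h p : ℝ) / p) / (1 - 1 / (p : ℝ)) ^ r

variable {b k : ℕ} {R : ℕ → Finset (ℕ × ℕ)} {Z : Finset ℕ}

open Classical in
lemma Pb_set (hb : 2 ≤ b) (h : MAdm b R Z) (P : ℕ → Prop) :
    Pb b k (wR R) (uZ k Z) P = (((MSet b k R Z).filter P).card : ℝ) / ((MSet b k R Z).card : ℝ) := by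
  have h1 := (law_sum (k := k) hb h (fun v => if P v then (1 : ℝ) else 0)).2
  rw [sum_boole] at h1
  rw [← h1]
  unfold Pb
  apply sum_congr rfl
  intro x _
  by_cases hP : P (dv b k x)
  · rw [if_pos hP, if_pos hP, mul_one]
  · rw [if_neg hP, if_neg hP, mul_zero]

open Classical in
lemma roots_eq {r : ℕ} (κ h : Fin r → ℕ) (p : ℕ) : roots κ h p = nu κ h p := by
  unfold roots nu
  congr 1
  apply filter_congr
  intro x _
  exact Iff.rfl

open Classical in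
lemma ser_eq (hb : 2 ≤ b) (hA : MAdm b R Z) {r : ℕ} (κ h : Fin r → ℕ) (P z : ℕ) :
    ser (MSet b k R Z) κ h P z = Sg b k (wR R) (uZ k Z) κ h P z := by
  unfold ser Sg
  rw [Pb_set hb hA]
  have e1 : (MSet b k R Z).filter (fun v => ∀ p ≤ P, p.Prime → ∀ i, ¬ p ∣ κ i * v + h i) =
      (MSet b k R Z).filter (fun v => ∀ p ∈ pz P, ¬ hit κ h p v) := by
    apply filter_congr
    intro v _
    unfold hit
    constructor
    · intro h1 p hp h2
      obtain ⟨i, hi⟩ := h2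
      exact h1 p (mem_pz.1 hp).1 (mem_pz.1 hp).2 i hi
    · intro h1 p hp hpp i hi
      exact h1 p (mem_pz.2 ⟨hp, hpp⟩) ⟨i, hi⟩
  have e2 : (Ioc P z).filter Nat.Prime = (pz z).filter (fun p => P < p) := by
    ext p
    rw [mem_filter, mem_filter, mem_Ioc, mem_pz]
    constructor
    · rintro ⟨⟨h1, h2⟩, h3⟩
      exact ⟨⟨h2, h3⟩, h1⟩
    · rintro ⟨⟨h1, h2⟩, h3⟩
      exact ⟨⟨h3, h1⟩, h2⟩
  have e3 : (Icc 1 P).filter Nat.Prime = pz P := by
    unfold pz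
    ext p
    simp only [mem_filter]
  rw [e1, e2, e3]
  simp only [roots_eq]
  congr!

open Classical in
/-- **arbitrary weights**, sets -/
theorem set_main (b : ℕ) (hb : 2 ≤ b) (r : ℕ) (κ : Fin r → ℕ) (hκ : ∀ i, 1 ≤ κ i) (B A : ℕ) :
    ∃ E0 : ℕ, ∀ E : ℕ, E0 ≤ E → ∃ k0 : ℕ, ∀ k : ℕ, k0 ≤ k → ∀ (R : ℕ → Finset (ℕ × ℕ)) (Z : Finset ℕ), MAdm b R Z →
    ∀ H : ℕ, b ^ k ≤ H * k ^ A → H ≤ B * b ^ k → ∀ a : ℕ → ℝ, (∀ n, |a n| ≤ 1) →
    ((((Fintype.piFinset (fun _ : Fin r => Icc 1 H)).filter (fun h => ((MSet b k R Z).card : ℝ) / (k : ℝ) ^ A <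
      |∑ v ∈ MSet b k R Z, a v * (∏ i, ArithmeticFunction.vonMangoldt (κ i * v + h i) -
        ∏ i, model (k ^ E) (κ i * v + h i))|)).card : ℕ) : ℝ) ≤ (H : ℝ) ^ r / (k : ℝ) ^ A := by
  obtain ⟨E0, hE0⟩ := law_main b hb (1 / (b : ℝ) ^ 4) (by positivity) r κ hκ B A
  refine ⟨E0, fun E hE => ?_⟩
  obtain ⟨k0, hk0⟩ := hE0 E hE
  refine ⟨k0, fun k hk R Z hA H h1 h2 a ha => ?_⟩
  have key := hk0 k hk (wR R) (uZ k Z) (wR_pairs hb hA) (fun a => uZ_nonneg a) (uZ_sum hb hA) H h1 h2 a ha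
  refine le_trans (le_of_eq ?_) key
  congr 2
  apply filter_congr
  intro h _
  obtain ⟨hne, hsum⟩ := law_sum (k := k) hb hA (fun v => a v * (∏ i, ArithmeticFunction.vonMangoldt (κ i * v + h i) -
        ∏ i, lamz (k ^ E) (κ i * v + h i)))
  have hV : (0 : ℝ) < (MSet b k R Z).card := by exact_mod_cast hne.card_pos
  have e1 : ∑ x ∈ Om b k, pr k (wR R) (uZ k Z) x * a (dv b k x) * (∏ i, ArithmeticFunction.vonMangoldt (κ i * dv b k x + h i) -
        ∏ i, lamz (k ^ E) (κ i * dv b k x + h i)) = (∑ v ∈ MSet b k R Z, a v * (∏ i, ArithmeticFunction.vonMangoldt (κ i * v + h i) -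
        ∏ i, lamz (k ^ E) (κ i * v + h i))) / ((MSet b k R Z).card : ℝ) := by
    rw [← hsum]
    apply sum_congr rfl
    intro x _
    ring
  rw [e1, abs_div, abs_of_pos hV, lt_div_iff₀ hV, one_div_mul_eq_div]
  simp only [model_eq]

open Classical in
/-- **counting primes**, sets -/
theorem set_count (b : ℕ) (hb : 2 ≤ b) (r : ℕ) (κ : Fin r → ℕ) (hκ : ∀ i, 1 ≤ κ i) (B : ℕ) :
    ∃ P1 : ℕ, ∀ P : ℕ, P1 ≤ P → ∀ A : ℕ, ∃ E0 : ℕ, ∀ E : ℕ, E0 ≤ E → ∀ ε : ℝ, 0 < ε → ∃ k0 : ℕ, ∀ k : ℕ, k0 ≤ k →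
    ∀ (R : ℕ → Finset (ℕ × ℕ)) (Z : Finset ℕ), MAdm b R Z → ∀ H : ℕ, b ^ k ≤ H * k ^ A → H ≤ B * b ^ k →
    ((((Fintype.piFinset (fun _ : Fin r => Icc 1 H)).filter (fun h =>
      ε * (ser (MSet b k R Z) κ h P (k ^ E) * (MSet b k R Z).card) + ((MSet b k R Z).card : ℝ) / (k : ℝ) ^ A <
      |Real.log ((b ^ k : ℕ) : ℝ) ^ r * (((MSet b k R Z).filter (fun v => ∀ i, (κ i * v + h i).Prime)).card : ℝ) -
        ser (MSet b k R Z) κ h P (k ^ E) * (MSet b k R Z).card|)).card : ℕ) : ℝ) ≤ (H : ℝ) ^ r / (k : ℝ) ^ A := by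
  have hb1 : (1 : ℝ) ≤ b := by exact_mod_cast (by omega : 1 ≤ b)
  obtain ⟨P1, hP1⟩ := law_count b hb (1 / (b : ℝ) ^ 4) (by positivity) (by
    rw [div_le_one (by positivity)]; exact one_le_pow₀ hb1) r κ hκ B
  refine ⟨P1, fun P hP A => ?_⟩
  obtain ⟨E0, hE0⟩ := hP1 P hP A
  refine ⟨E0, fun E hE ε hε => ?_⟩
  obtain ⟨k0, hk0⟩ := hE0 E hE ε hε
  refine ⟨k0, fun k hk R Z hA H h1 h2 => ?_⟩
  have key := hk0 k hk (wR R) (uZ k Z) (wR_pairs hb hA) (fun a => uZ_nonneg a) (uZ_sum hb hA) H h1 h2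
  refine le_trans (le_of_eq ?_) key
  congr 2
  apply filter_congr
  intro h _
  have hne := (law_sum (k := k) hb hA (fun _ => 1)).1
  have hV : (0 : ℝ) < (MSet b k R Z).card := by exact_mod_cast hne.card_pos
  have hPb : Pb b k (wR R) (uZ k Z) (fun v => ∀ i, (κ i * v + h i).Prime) =
      (((MSet b k R Z).filter (fun v => ∀ i, (κ i * v + h i).Prime)).card : ℝ) / ((MSet b k R Z).card : ℝ) := by
    rw [Pb_set hb hA]
    congr 3
    ext x
    simp only [mem_filter]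
  rw [← ser_eq hb hA, hPb]
  generalize ser (MSet b k R Z) κ h P (k ^ E) = S
  generalize (((MSet b k R Z).filter (fun v => ∀ i, (κ i * v + h i).Prime)).card : ℝ) = N
  generalize ((MSet b k R Z).card : ℝ) = V at hV
  have e3 : |Real.log ((b ^ k : ℕ) : ℝ) ^ r * (N / V) - S| = |Real.log ((b ^ k : ℕ) : ℝ) ^ r * N - S * V| / V := by
    rw [show Real.log ((b ^ k : ℕ) : ℝ) ^ r * (N / V) - S = (Real.log ((b ^ k : ℕ) : ℝ) ^ r * N - S * V) / V by field_simp,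
      abs_div, abs_of_pos hV]
  have e4 : ε * (S * V) + V / (k : ℝ) ^ A = (ε * S + 1 / (k : ℝ) ^ A) * V := by ring
  rw [e3, lt_div_iff₀ hV, e4]

/-- the pairs of the palindromes -/
def palR (b : ℕ) (i : ℕ) : Finset (ℕ × ℕ) := (range b ×ˢ range b).filter (fun a => a.1 = a.2 ∧ (i = 0 → 1 ≤ a.1))

lemma pal_adm (b : ℕ) (hb : 2 ≤ b) : MAdm b (palR b) (range b) := by
  refine ⟨fun i => filter_subset _ _, fun i => ⟨(1, 1), ?_⟩, fun i hi => ⟨(0, 0), ?_, (1, 1), ?_, ?_⟩, subset_rfl, ⟨0, ?_⟩⟩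
  · unfold palR
    rw [mem_filter, mem_product, mem_range]
    exact ⟨⟨by simp only; omega, by simp only; omega⟩, rfl, fun _ => le_rfl⟩
  · unfold palR
    rw [mem_filter, mem_product, mem_range]
    exact ⟨⟨by simp only; omega, by simp only; omega⟩, rfl, fun h => by omega⟩
  · unfold palR
    rw [mem_filter, mem_product, mem_range]
    exact ⟨⟨by simp only; omega, by simp only; omega⟩, rfl, fun _ => le_rfl⟩
  · constructor <;> simp
  · rw [mem_range]; omega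

/-- the palindromes with `k ≥ 2` digits -/
lemma pal_mem (b k : ℕ) (hb : 2 ≤ b) (hk : 2 ≤ k) (v : ℕ) : v ∈ MSet b k (palR b) (range b) ↔
    b ^ (k - 1) ≤ v ∧ v < b ^ k ∧ ∀ j < k, v / b ^ j % b = v / b ^ (k - 1 - j) % b := by
  have hb0 : 0 < b := by omega
  unfold MSet palR
  rw [mem_filter, mem_range]
  constructor
  · rintro ⟨hv, h1, -⟩
    have h2 : ∀ i < k / 2, v / b ^ i % b = v / b ^ (k - 1 - i) % b ∧ (i = 0 → 1 ≤ v / b ^ i % b) := by
      intro i hi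
      have := h1 i hi
      rw [mem_filter] at this
      exact this.2
    refine ⟨?_, hv, ?_⟩
    · obtain ⟨e1, e2⟩ := h2 0 (by omega)
      rw [Nat.sub_zero] at e1
      have e3 : 1 ≤ v / b ^ (k - 1) % b := by rw [← e1]; exact e2 rfl
      have e4 : 1 ≤ v / b ^ (k - 1) := e3.trans (Nat.mod_le _ _)
      exact (Nat.one_le_div_iff (by positivity)).1 e4
    · intro j hj
      by_cases h3 : j < k / 2
      · exact (h2 j h3).1
      · by_cases h4 : k - 1 - j < k / 2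
        · have := (h2 _ h4).1
          rw [show k - 1 - (k - 1 - j) = j by omega] at this
          exact this.symm
        · rw [show k - 1 - j = j by omega]
  · rintro ⟨h1, h2, h3⟩
    refine ⟨h2, fun i hi => ?_, fun _ => mem_range.2 (Nat.mod_lt _ hb0)⟩
    rw [mem_filter, mem_product, mem_range, mem_range]
    refine ⟨⟨Nat.mod_lt _ hb0, Nat.mod_lt _ hb0⟩, h3 i (by omega), fun hi0 => ?_⟩
    simp only
    subst hi0
    rw [h3 0 (by omega), Nat.sub_zero]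
    have e4 : 1 ≤ v / b ^ (k - 1) := (Nat.one_le_div_iff (by positivity)).2 h1
    have e5 : v / b ^ (k - 1) < b := by
      rw [Nat.div_lt_iff_lt_mul (by positivity), ← pow_succ']
      rw [show k - 1 + 1 = k by omega]
      exact h2
    rw [Nat.mod_eq_of_lt e5]
    exact e4

end Pool.Agent.Q236.PD
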