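import Pool.Agent.Q236.PD.Char
import Pool.Agent.H373R2.T7.Crt
import Pool.Agent.H373R2.T7.FundB

/-! Palindromes and shifts, part 6: the joint distribution in residue classes. -/

set_option autoImplicit false

namespace Pool.Agent.Q236.PD

open Finset
open Pool.Agent.H807R2.Dav
open Pool.Agent.H373R2.T7
open Pool.Agent.TH872.Mir
open Pool.Agent.TH872.Tr (Pairs)

open Classical in
/-- Fourier coefficients of a periodic property -/
noncomputable def cf (p : ℕ) (R : ℕ → Prop) (a : ℕ) : ℂ :=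
  (1 / (p : ℂ)) * ∑ x ∈ range p, (if R x then (1 : ℂ) else 0) * ee (-((a : ℝ) * ((x : ℝ) / p)))

open Classical in
lemma per_exp (p : ℕ) (hp : 1 ≤ p) (R : ℕ → Prop) (hR : ∀ n, R n ↔ R (n % p)) (n : ℕ) :
    (if R n then (1 : ℂ) else 0) = ∑ a ∈ range p, cf p R a * ee ((a : ℝ) * ((n : ℝ) / p)) := by
  have hp0 : (p : ℂ) ≠ 0 := by exact_mod_cast (by omega : p ≠ 0)
  have h1 : ∑ a ∈ range p, cf p R a * ee ((a : ℝ) * ((n : ℝ) / p)) =
      (1 / (p : ℂ)) * ∑ x ∈ range p, (if R x then (1 : ℂ) else 0) * ∑ a ∈ range p, ee ((a : ℝ) * ((((n : ℤ) - x : ℤ) : ℝ) / p)) := by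
    unfold cf
    simp only [mul_sum, sum_mul]
    rw [sum_comm]
    apply sum_congr rfl
    intro x _
    apply sum_congr rfl
    intro a _
    have : ee ((a : ℝ) * ((((n : ℤ) - x : ℤ) : ℝ) / p)) = ee (-((a : ℝ) * ((x : ℝ) / p))) * ee ((a : ℝ) * ((n : ℝ) / p)) := by
      rw [← ee_add]
      congr 1
      push_cast
      ring
    rw [this]
    ring
  rw [h1]
  have h2 : ∀ x ∈ range p, (if R x then (1 : ℂ) else 0) * ∑ a ∈ range p, ee ((a : ℝ) * ((((n : ℤ) - x : ℤ) : ℝ) / p)) =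
      if x = n % p then (if R x then (p : ℂ) else 0) else 0 := by
    intro x hx
    rw [mem_range] at hx
    rw [orth p hp]
    have hdiv : ((p : ℤ) ∣ (n : ℤ) - x) ↔ x = n % p := by
      constructor
      · intro hd
        have h3 : (x : ℤ) ≡ n [ZMOD p] := (Int.modEq_iff_dvd).2 hd
        have h4 : x ≡ n [MOD p] := by exact_mod_cast h3
        have h5 : x % p = n % p := h4
        rw [Nat.mod_eq_of_lt hx] at h5
        exact h5
      · intro hxn
        rw [hxn]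
        have h6 : (n : ℤ) - (n % p : ℕ) = p * (n / p : ℕ) := by
          have h7 := Nat.div_add_mod n p
          have h3 : (p : ℤ) * ((n / p : ℕ) : ℤ) + ((n % p : ℕ) : ℤ) = n := by exact_mod_cast h7
          linarith
        rw [h6]
        exact Dvd.intro _ rfl
    simp only [hdiv]
    by_cases hxn : x = n % p
    · simp only [if_pos hxn]
      by_cases hRx : R x
      · simp only [if_pos hRx, one_mul]
      · simp only [if_neg hRx, zero_mul]
    · simp only [if_neg hxn, mul_zero]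
  rw [sum_congr rfl h2, sum_ite_eq' (range p) (n % p) (fun x => if R x then (p : ℂ) else 0), if_pos (mem_range.2 (Nat.mod_lt _ hp))]
  by_cases h : R n
  · rw [if_pos h, if_pos ((hR n).1 h)]
    field_simp
  · rw [if_neg h, if_neg (fun h' => h ((hR n).2 h'))]
    simp

open Classical in
lemma norm_cf (p : ℕ) (hp : 1 ≤ p) (R : ℕ → Prop) (a : ℕ) : ‖cf p R a‖ ≤ 1 := by
  have hp0 : (0 : ℝ) < p := by exact_mod_cast hp
  unfold cf
  rw [norm_mul, norm_div, norm_one, Complex.norm_natCast]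
  have h1 : ‖∑ x ∈ range p, (if R x then (1 : ℂ) else 0) * ee (-((a : ℝ) * ((x : ℝ) / p)))‖ ≤ p := by
    refine (norm_sum_le _ _).trans ?_
    have : ∀ x ∈ range p, ‖(if R x then (1 : ℂ) else 0) * ee (-((a : ℝ) * ((x : ℝ) / p)))‖ ≤ 1 := by
      intro x _
      rw [norm_mul, norm_ee, mul_one]
      split_ifs <;> simp
    refine (sum_le_sum this).trans ?_
    simp
  calc 1 / (p : ℝ) * _ ≤ 1 / (p : ℝ) * p := mul_le_mul_of_nonneg_left h1 (by positivity)
    _ = 1 := by field_simp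

open Classical in
lemma cf_zero (p : ℕ) (R : ℕ → Prop) : cf p R 0 = ((((range p).filter R).card : ℝ) / p : ℝ) := by
  unfold cf
  simp only [Nat.cast_zero, zero_mul, neg_zero, ee_zero, mul_one]
  rw [sum_ite, sum_const_zero, add_zero, sum_const, nsmul_eq_mul, mul_one]
  push_cast
  ring

open Classical in
/-- probability of a property of the value -/
noncomputable def Pb (b k : ℕ) (w : ℕ → ℕ × ℕ → ℝ) (u : ℕ → ℝ) (P : ℕ → Prop) : ℝ :=
  ∑ x ∈ Om b k, (if P (dv b k x) then pr k w u x else 0)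

open Classical in
lemma Pb_Ex (b k : ℕ) (w : ℕ → ℕ × ℕ → ℝ) (u : ℕ → ℝ) (P : ℕ → Prop) :
    ((Pb b k w u P : ℝ) : ℂ) = Ex b k w u (fun v => if P v then (1 : ℂ) else 0) := by
  unfold Pb Ex
  push_cast
  apply sum_congr rfl
  intro x _
  split_ifs <;> simp

open Classical in
/-- joint distribution -/
theorem joint (b : ℕ) (hb : 2 ≤ b) (η : ℝ) (hη : 0 < η) (hη1 : η ≤ 1) (k : ℕ) (w : ℕ → ℕ × ℕ → ℝ) (u : ℕ → ℝ)
    (hw : Pairs b k η w) (hu : ∀ a, 0 ≤ u a) (hu1 : ∑ a ∈ range b, u a = 1) (M0 : ℕ) (hM0 : 1 ≤ M0) (W : ℕ → Prop)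
    (hW : ∀ n, W n ↔ W (n % M0)) (Q : ℕ → ℕ → Prop) (T : Finset ℕ) (hT : ∀ p ∈ T, p.Prime ∧ b ^ 4 < p ∧ ¬ p ∣ M0)
    (hQ : ∀ p ∈ T, ∀ n, Q p n ↔ Q p (n % p)) (J n : ℕ) (hJ : M0 * (∏ p ∈ T, p) ≤ b ^ J) (hn : 4 * n + 5 ≤ k / (J + 1)) :
    |Pb b k w u (fun v => W v ∧ ∀ p ∈ T, Q p v) - Pb b k w u W * ∏ p ∈ T, ((((range p).filter (Q p)).card : ℝ) / p)| ≤
      (∏ p ∈ T, p : ℕ) * (M0 : ℝ) * gam b η ^ n := by
  obtain ⟨q0, hq0⟩ : ∃ q0, q0 = ∏ p ∈ T, p := ⟨_, rfl⟩
  have hTp : ∀ p ∈ T, p.Prime := fun p hp => (hT p hp).1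
  have hq01 : 1 ≤ q0 := by rw [hq0]; exact prod_pos fun p hp => (hTp p hp).pos
  have hg0 := (gam_facts b hb η hη hη1).1
  obtain ⟨R, hR⟩ : ∃ R : ℕ → Prop, ∀ v, R v ↔ ∀ p ∈ T, Q p v := ⟨fun v => ∀ p ∈ T, Q p v, fun v => Iff.rfl⟩
  have hdvd : ∀ p ∈ T, p ∣ q0 := fun p hp => by rw [hq0]; exact dvd_prod_of_mem _ hp
  have hRper : ∀ v, R v ↔ R (v % q0) := by
    intro v
    rw [hR, hR]
    constructor
    · intro h p hp
      rw [hQ p hp, Nat.mod_mod_of_dvd _ (hdvd p hp), ← hQ p hp]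
      exact h p hp
    · intro h p hp
      have h1 := h p hp
      rw [hQ p hp, Nat.mod_mod_of_dvd _ (hdvd p hp), ← hQ p hp] at h1
      exact h1
  have hcount : (((range q0).filter R).card : ℝ) / q0 = ∏ p ∈ T, ((((range p).filter (Q p)).card : ℝ) / p) := by
    have h1 := crt_card (fun p a => Q p a) T hTp
    have h2 : (range q0).filter R = (range (∏ p ∈ T, p)).filter (fun n => ∀ p ∈ T, Q p (n % p)) := by
      rw [hq0]
      apply filter_congr
      intro v _
      rw [hR]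
      constructor
      · intro h p hp; exact (hQ p hp v).1 (h p hp)
      · intro h p hp; exact (hQ p hp v).2 (h p hp)
    have h3 : ((range q0).filter R).card = ∏ p ∈ T, ((range p).filter (Q p)).card := by
      rw [h2]
      convert h1
    rw [h3, prod_div_distrib, hq0]
    push_cast
    rfl
  obtain ⟨P, hP⟩ : ∃ P : ℕ → Prop, P = fun v => W v ∧ ∀ p ∈ T, Q p v := ⟨_, rfl⟩
  have hPR : ∀ v, P v ↔ W v ∧ R v := by
    intro v
    rw [hP, hR v]
  rw [← hP]
  -- expansion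
  obtain ⟨θ, hθ⟩ : ∃ θ : ℕ → ℕ → ℝ, ∀ N c, θ N c = (N : ℝ) / q0 + (c : ℝ) / M0 := ⟨_, fun _ _ => rfl⟩
  have hexp : ((Pb b k w u P : ℝ) : ℂ) = ∑ N ∈ range q0, ∑ c ∈ range M0,
      cf q0 R N * cf M0 W c * Ex b k w u (fun v => ee ((v : ℝ) * θ N c)) := by
    rw [Pb_Ex]
    unfold Ex
    have h1 : ∀ v : ℕ, (if P v then (1 : ℂ) else 0) = ∑ N ∈ range q0, ∑ c ∈ range M0,
        cf q0 R N * cf M0 W c * ee ((v : ℝ) * θ N c) := by
      intro v
      have h2 : (if P v then (1 : ℂ) else 0) = (if R v then (1 : ℂ) else 0) * (if W v then (1 : ℂ) else 0) := by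
        have h0 := hPR v
        by_cases a1 : W v <;> by_cases a2 : R v <;> simp only [h0, a1, a2, and_true, and_false, if_true, if_false, mul_one, mul_zero, true_and, false_and]
      rw [h2, per_exp q0 hq01 R hRper v, per_exp M0 hM0 W hW v, sum_mul_sum]
      apply sum_congr rfl
      intro N _
      apply sum_congr rfl
      intro c _
      have : ee ((v : ℝ) * θ N c) = ee ((N : ℝ) * ((v : ℝ) / q0)) * ee ((c : ℝ) * ((v : ℝ) / M0)) := by
        rw [← ee_add, hθ]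
        congr 1
        ring
      rw [this]
      ring
    simp only [h1, mul_sum]
    rw [sum_comm]
    apply sum_congr rfl
    intro N _
    rw [sum_comm]
    apply sum_congr rfl
    intro c _
    apply sum_congr rfl
    intro x _
    ring
  have hexpW : ((Pb b k w u W : ℝ) : ℂ) = ∑ c ∈ range M0, cf M0 W c * Ex b k w u (fun v => ee ((v : ℝ) * θ 0 c)) := by
    rw [Pb_Ex]
    unfold Ex
    simp only [per_exp M0 hM0 W hW, mul_sum]
    rw [sum_comm]
    apply sum_congr rfl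
    intro c _
    apply sum_congr rfl
    intro x _
    have : ee (((dv b k x : ℕ) : ℝ) * θ 0 c) = ee ((c : ℝ) * (((dv b k x : ℕ) : ℝ) / M0)) := by
      rw [hθ]
      congr 1
      push_cast
      ring
    rw [this]
    ring
  -- the terms `N ≠ 0`
  have hsmall : ∀ N ∈ range q0, N ≠ 0 → ∀ c ∈ range M0, ‖Ex b k w u (fun v => ee ((v : ℝ) * θ N c))‖ ≤ gam b η ^ n := by
    intro N hN hN0 c _
    rw [mem_range] at hN
    obtain ⟨p, hp, hpN⟩ : ∃ p ∈ T, ¬ p ∣ N := by
      by_contra hcon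
      push Not at hcon
      have h1 : q0 ∣ N := by
        rw [hq0]
        exact prod_primes_dvd N (fun p hp => (hTp p hp).prime) hcon
      have := Nat.le_of_dvd (by omega) h1
      omega
    obtain ⟨hpp, hpb, hpM⟩ := hT p hp
    apply char_small b hb η hη hη1 k w u hw hu hu1 (M0 * q0) (((N * M0 + c * q0 : ℕ)) : ℤ) (θ N c)
      (Nat.mul_pos hM0 hq01) ?_ p hpp (Dvd.dvd.mul_left (hdvd p hp) _) hpb ?_ J n (by rw [hq0]; exact hJ) hn
    · rw [hθ]
      have : (M0 : ℝ) ≠ 0 := by exact_mod_cast (by omega : M0 ≠ 0)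
      have : (q0 : ℝ) ≠ 0 := by exact_mod_cast (by omega : q0 ≠ 0)
      push_cast
      field_simp
    · intro h
      have h2 : p ∣ N * M0 + c * q0 := by exact_mod_cast h
      have h3 : p ∣ N * M0 := (Nat.dvd_add_left (Dvd.dvd.mul_left (hdvd p hp) _)).1 h2
      rcases hpp.dvd_mul.1 h3 with h4 | h4
      · exact hpN h4
      · exact hpM h4
  have hdiff : ((Pb b k w u P - Pb b k w u W * ∏ p ∈ T, ((((range p).filter (Q p)).card : ℝ) / p) : ℝ) : ℂ) =
      ∑ N ∈ (range q0).erase 0, ∑ c ∈ range M0, cf q0 R N * cf M0 W c * Ex b k w u (fun v => ee ((v : ℝ) * θ N c)) := by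
    have h1 : ((Pb b k w u W * ∏ p ∈ T, ((((range p).filter (Q p)).card : ℝ) / p) : ℝ) : ℂ) =
        ∑ c ∈ range M0, cf q0 R 0 * cf M0 W c * Ex b k w u (fun v => ee ((v : ℝ) * θ 0 c)) := by
      rw [Complex.ofReal_mul, hexpW, ← hcount, ← cf_zero, sum_mul]
      apply sum_congr rfl
      intro c _
      ring
    rw [Complex.ofReal_sub, hexp, h1, ← add_sum_erase (range q0) _ (mem_range.2 (show 0 < q0 by omega))]
    ring
  have h5 : |Pb b k w u P - Pb b k w u W * ∏ p ∈ T, ((((range p).filter (Q p)).card : ℝ) / p)| =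
      ‖((Pb b k w u P - Pb b k w u W * ∏ p ∈ T, ((((range p).filter (Q p)).card : ℝ) / p) : ℝ) : ℂ)‖ := by
    rw [Complex.norm_real, Real.norm_eq_abs]
  rw [h5, hdiff]
  refine (norm_sum_le _ _).trans ?_
  have h6 : ∀ N ∈ (range q0).erase 0, ‖∑ c ∈ range M0, cf q0 R N * cf M0 W c * Ex b k w u (fun v => ee ((v : ℝ) * θ N c))‖ ≤
      M0 * gam b η ^ n := by
    intro N hN
    rw [mem_erase] at hN
    refine (norm_sum_le _ _).trans ?_
    have : ∀ c ∈ range M0, ‖cf q0 R N * cf M0 W c * Ex b k w u (fun v => ee ((v : ℝ) * θ N c))‖ ≤ gam b η ^ n := by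
      intro c hc
      rw [norm_mul, norm_mul]
      have a1 := norm_cf q0 hq01 R N
      have a2 := norm_cf M0 hM0 W c
      have a3 := hsmall N hN.2 hN.1 c hc
      calc ‖cf q0 R N‖ * ‖cf M0 W c‖ * ‖Ex b k w u (fun v => ee ((v : ℝ) * θ N c))‖ ≤ 1 * 1 * gam b η ^ n := by gcongr
        _ = _ := by ring
    refine (sum_le_sum this).trans ?_
    rw [sum_const, card_range, nsmul_eq_mul]
  refine (sum_le_sum h6).trans ?_
  rw [sum_const, nsmul_eq_mul, ← hq0]
  have h7 : (((range q0).erase 0).card : ℝ) ≤ q0 := by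
    exact_mod_cast (card_erase_le.trans (by rw [card_range]))
  calc (((range q0).erase 0).card : ℝ) * (M0 * gam b η ^ n) ≤ q0 * (M0 * gam b η ^ n) := by
        apply mul_le_mul_of_nonneg_right h7
        positivity
    _ = _ := by ring

end Pool.Agent.Q236.PD
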