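import Pool.Agent.Q236.PD.Fou
import Pool.Agent.H20R2.EN.FLem
import Pool.Agent.H373R2.T7.Fund

/-! Palindromes and shifts, part 7: the sieve by small primes. -/

set_option autoImplicit false

namespace Pool.Agent.Q236.PD

open Finset
open Pool.Agent.H373R2.T7
open Pool.Agent.TH872.Mir
open Pool.Agent.TH872.Tr (Pairs)

/-- `p` divides one of the numbers `κ_i v + h_i` -/
def hit {r : ℕ} (κ h : Fin r → ℕ) (p v : ℕ) : Prop := ∃ i, p ∣ κ i * v + h i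

lemma hit_per {r : ℕ} (κ h : Fin r → ℕ) (p v : ℕ) : hit κ h p v ↔ hit κ h p (v % p) := by
  unfold hit
  apply exists_congr
  intro i
  have : κ i * v + h i ≡ κ i * (v % p) + h i [MOD p] :=
    ((Nat.ModEq.refl (κ i)).mul (Nat.mod_modEq v p).symm).add_right _
  exact this.dvd_iff (dvd_refl p)

lemma hit_dvd {r : ℕ} (κ h : Fin r → ℕ) (p M v : ℕ) (hp : p ∣ M) : hit κ h p v ↔ hit κ h p (v % M) := by
  rw [hit_per κ h p v, hit_per κ h p (v % M), Nat.mod_mod_of_dvd _ hp]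

open Classical in
/-- the number of the residues `v` modulo `p` with a hit -/
noncomputable def nu {r : ℕ} (κ h : Fin r → ℕ) (p : ℕ) : ℕ := ((range p).filter (hit κ h p)).card

open Classical in
lemma nu_le {r : ℕ} (κ h : Fin r → ℕ) (hκ : ∀ i, 1 ≤ κ i) (p : ℕ) (hp : p.Prime) (hpκ : ∀ i, κ i < p) : nu κ h p ≤ r := by
  unfold nu
  have h1 : (range p).filter (hit κ h p) ⊆ (univ : Finset (Fin r)).biUnion (fun i => (range p).filter (fun v => p ∣ κ i * v + h i)) := by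
    intro v hv
    rw [mem_filter] at hv
    obtain ⟨i, hi⟩ := hv.2
    rw [mem_biUnion]
    exact ⟨i, mem_univ i, mem_filter.2 ⟨hv.1, hi⟩⟩
  refine (card_le_card h1).trans (card_biUnion_le.trans ?_)
  have h2 : ∀ i ∈ (univ : Finset (Fin r)), ((range p).filter (fun v => p ∣ κ i * v + h i)).card ≤ 1 := by
    intro i _
    rw [card_le_one]
    intro v hv v' hv'
    rw [mem_filter, mem_range] at hv hv'
    have h3 : κ i * v + h i ≡ κ i * v' + h i [MOD p] := by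
      have a1 := (Nat.modEq_zero_iff_dvd.2 hv.2)
      have a2 := (Nat.modEq_zero_iff_dvd.2 hv'.2)
      exact a1.trans a2.symm
    have h4 : κ i * v ≡ κ i * v' [MOD p] := Nat.ModEq.add_right_cancel' (h i) h3
    have hco : Nat.gcd p (κ i) = 1 := (Nat.Prime.coprime_iff_not_dvd hp).2 (fun hd => by
      have := Nat.le_of_dvd (by have := hκ i; omega) hd
      have := hpκ i
      omega)
    have h5 : v ≡ v' [MOD p] := Nat.ModEq.cancel_left_of_coprime hco h4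
    have h6 : v % p = v' % p := h5
    rw [Nat.mod_eq_of_lt hv.1, Nat.mod_eq_of_lt hv'.1] at h6
    exact h6
  refine (sum_le_sum h2).trans ?_
  simp

open Classical in
lemma sum_vals0 (b k : ℕ) (hb : 2 ≤ b) (hk : 1 ≤ k) (w : ℕ → ℕ × ℕ → ℝ) (u : ℕ → ℝ) (P : ℕ → Prop) :
    ∑ m ∈ (range (3 * b ^ k)).filter P, (∑ x ∈ Om b k, if dv b k x = m then pr k w u x else 0) = Pb b k w u P := by
  unfold Pb
  rw [sum_comm]
  apply sum_congr rfl
  intro x hx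
  rw [sum_ite_eq]
  have h1 := dv_lt b k hb x hx hk
  by_cases h : P (dv b k x)
  · rw [if_pos h, if_pos (mem_filter.2 ⟨mem_range.2 h1, h⟩)]
  · rw [if_neg h, if_neg (fun h' => h (mem_filter.1 h').2)]

/-- a sum over values -/
lemma sum_vals (b k : ℕ) (hb : 2 ≤ b) (hk : 1 ≤ k) (w : ℕ → ℕ × ℕ → ℝ) (u : ℕ → ℝ) (P : ℕ → Prop) [inst : DecidablePred P] :
    ∑ m ∈ (range (3 * b ^ k)).filter P, (∑ x ∈ Om b k, if dv b k x = m then pr k w u x else 0) = Pb b k w u P := by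
  rw [← sum_vals0 b k hb hk w u P]
  apply sum_congr _ (fun _ _ => rfl)
  ext m
  simp only [mem_filter]

/-- powers of two beat powers -/
lemma pow_beats (c : ℕ) : ∃ l0 : ℕ, ∀ l : ℕ, l0 ≤ l → c * l ^ 4 ≤ 2 ^ (l - 1) := by
  have hlim := isLittleO_pow_const_const_pow_of_one_lt (R := ℝ) 4 (r := (2 : ℝ)) (by norm_num)
  have h2 := hlim.def (c := 1 / (2 * ((c : ℝ) + 1))) (by positivity)
  rw [Filter.eventually_atTop] at h2
  obtain ⟨l0, h2⟩ := h2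
  refine ⟨l0 + 1, fun l hl => ?_⟩
  have h3 := h2 l (by omega)
  rw [Real.norm_of_nonneg (by positivity), Real.norm_of_nonneg (by positivity)] at h3
  have h4 : (c : ℝ) * (l : ℝ) ^ 4 ≤ (2 : ℝ) ^ (l - 1) := by
    have e1 : (2 : ℝ) ^ l = 2 * 2 ^ (l - 1) := by
      rw [← pow_succ']; congr 1; omega
    rw [e1] at h3
    have e2 : 1 / (2 * ((c : ℝ) + 1)) * (2 * 2 ^ (l - 1)) = 2 ^ (l - 1) / ((c : ℝ) + 1) := by
      field_simp
    rw [e2, le_div_iff₀ (by positivity)] at h3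
    have : (0 : ℝ) ≤ (l : ℝ) ^ 4 := by positivity
    nlinarith
  exact_mod_cast h4

lemma prod_bound (a b c d t f A1 B1 M1 F1 : ℝ) (ha0 : 0 ≤ a) (hb0 : 0 ≤ b) (hc0 : 0 ≤ c) (hd0 : 0 ≤ d) (ht : 0 ≤ t) (hf0 : 0 ≤ f)
    (ha : a ≤ A1) (hb : b ≤ B1) (hc : c ≤ B1) (hd : d ≤ M1) (hf : f ≤ F1) :
    a * (b * (c * d * t)) * f ≤ A1 * (B1 * (B1 * M1 * t)) * F1 := by
  gcongr
  · exact mul_nonneg (ha0.trans ha) (mul_nonneg (hb0.trans hb) (mul_nonneg (mul_nonneg (hb0.trans hb) (hd0.trans hd)) ht))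
  · exact ha0.trans ha
  · exact hb0.trans hb
  · exact hb0.trans hb

/-- the primorial -/
noncomputable def MM0 (P0 : ℕ) : ℕ := ∏ p ∈ pz P0, p

open Classical in
/-- **the sieve by small primes along mirror-dependent digits** -/
theorem fund (b : ℕ) (hb : 2 ≤ b) (η : ℝ) (hη : 0 < η) (hη1 : η ≤ 1) (r : ℕ) (κ : Fin r → ℕ) (hκ : ∀ i, 1 ≤ κ i) :
    ∃ P1 : ℕ, ∀ P0 : ℕ, P1 ≤ P0 → ∀ E A : ℕ, 1 ≤ E → ∃ k0 : ℕ, ∀ k : ℕ, k0 ≤ k → ∀ (w : ℕ → ℕ × ℕ → ℝ) (u : ℕ → ℝ),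
    Pairs b k η w → (∀ a, 0 ≤ u a) → ∑ a ∈ range b, u a = 1 → ∀ h : Fin r → ℕ,
    |Pb b k w u (fun v => ∀ p ∈ pz (k ^ E), ¬ hit κ h p v) -
      Pb b k w u (fun v => ∀ p ∈ pz P0, ¬ hit κ h p v) * ∏ p ∈ (pz (k ^ E)).filter (fun p => P0 < p), (1 - (nu κ h p : ℝ) / p)| ≤
      2 / (k : ℝ) ^ A := by
  obtain ⟨C0, hC0, hFL⟩ := Pool.Agent.H20R2.fLem r
  refine ⟨b ^ 4 + C0 + ∑ i, κ i, fun P0 hP0 E A hE => ?_⟩
  obtain ⟨M0, hM0⟩ : ∃ M0, M0 = MM0 P0 := ⟨_, rfl⟩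
  have hpz0 : ∀ p ∈ pz P0, p.Prime := fun p hp => (mem_pz.1 hp).2
  have hM01 : 1 ≤ M0 := by rw [hM0]; exact Nat.pos_of_ne_zero (prod_ne_zero_iff.2 fun p hp => (hpz0 p hp).ne_zero)
  obtain ⟨hg0, hg1⟩ := gam_facts b hb η hη hη1
  obtain ⟨q, hq⟩ : ∃ q : ℕ, gam b η ^ q < 1 / 2 := exists_pow_lt_of_lt_one (by norm_num) hg1
  obtain ⟨a1, ha1⟩ : ∃ a1, a1 = 2 * E * C0 := ⟨_, rfl⟩
  obtain ⟨c1, hc1⟩ : ∃ c1, c1 = M0 + a1 * (A + C0) + 1 := ⟨_, rfl⟩
  obtain ⟨c2, hc2⟩ : ∃ c2, c2 = 1 + E + 2 * (a1 * (A + C0)) + M0 + A := ⟨_, rfl⟩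
  obtain ⟨l0, hl0⟩ := pow_beats (c1 * (4 * (q * c2) + 5))
  refine ⟨2 ^ l0 + P0 + 3, fun k hk w u hw hu hu1 h => ?_⟩
  obtain ⟨l, hl⟩ : ∃ l, l = Nat.log 2 k + 1 := ⟨_, rfl⟩
  have h2l0 : 0 < 2 ^ l0 := by positivity
  have hk3 : 3 ≤ k := by omega
  have hk0 : k ≠ 0 := by omega
  have hkl : k < 2 ^ l := by rw [hl]; exact Nat.lt_pow_succ_log_self (by norm_num) k
  have hkl' : 2 ^ (l - 1) ≤ k := by rw [hl, Nat.add_sub_cancel]; exact Nat.pow_log_le_self 2 hk0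
  have hl0l : l0 ≤ l := by
    have : 2 ^ l0 < 2 ^ l := by omega
    exact ((Nat.pow_lt_pow_iff_right (by norm_num)).1 this).le
  have hl1 : 1 ≤ l := by omega
  obtain ⟨bb, hbb⟩ : ∃ bb, bb = A * l + C0 := ⟨_, rfl⟩
  have hbbl : bb ≤ (A + C0) * l := by rw [hbb, add_mul]; exact Nat.add_le_add_left (Nat.le_mul_of_pos_right _ hl1) _
  obtain ⟨z, hz⟩ : ∃ z, z = k ^ E := ⟨_, rfl⟩
  have hkz : k ≤ z := by rw [hz]; exact Nat.le_self_pow (by omega) k
  have hzl : z ≤ 2 ^ (l * E) := by rw [hz, pow_mul]; exact Nat.pow_le_pow_left hkl.le E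
  set J := JJ z with hJ
  set Y : ℕ := 2 ^ 2 ^ J with hY
  have hzY : z < Y := JJ_lt z
  have hYz : Y ≤ z ^ 2 := JJ_le z (by omega)
  have hJz : J + 2 ≤ 2 * z := JJ_small z (by omega)
  set D : ℕ := Y ^ (C0 * bb) with hD
  have hDl : D ≤ 2 ^ (a1 * l * bb) := by
    calc D ≤ (z ^ 2) ^ (C0 * bb) := Nat.pow_le_pow_left hYz _
      _ ≤ ((2 ^ (l * E)) ^ 2) ^ (C0 * bb) := Nat.pow_le_pow_left (Nat.pow_le_pow_left hzl 2) _
      _ = 2 ^ (a1 * l * bb) := by rw [← pow_mul, ← pow_mul, ha1]; congr 1; ring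
  obtain ⟨Jw, hJw⟩ : ∃ Jw, Jw = M0 + a1 * l * bb := ⟨_, rfl⟩
  obtain ⟨X, hX⟩ : ∃ X, X = 1 + l * E + 2 * (a1 * l * bb) + M0 + l * A := ⟨_, rfl⟩
  have hll : l ≤ l ^ 2 := Nat.le_self_pow (by norm_num) l
  have hl2 : 1 ≤ l ^ 2 := Nat.one_le_pow _ _ hl1
  have habl : a1 * l * bb ≤ a1 * (A + C0) * l ^ 2 := by
    calc a1 * l * bb ≤ a1 * l * ((A + C0) * l) := Nat.mul_le_mul_left _ hbbl
      _ = _ := by ring
  have hJw1 : Jw + 1 ≤ c1 * l ^ 2 := by
    rw [hJw, hc1]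
    have : M0 ≤ M0 * l ^ 2 := Nat.le_mul_of_pos_right _ hl2
    calc M0 + a1 * l * bb + 1 ≤ M0 * l ^ 2 + a1 * (A + C0) * l ^ 2 + 1 * l ^ 2 := by omega
      _ = _ := by ring
  have hX1 : X ≤ c2 * l ^ 2 := by
    rw [hX, hc2]
    have e1 : M0 ≤ M0 * l ^ 2 := Nat.le_mul_of_pos_right _ hl2
    have e2 : l * E ≤ E * l ^ 2 := by rw [mul_comm l E]; exact Nat.mul_le_mul_left _ hll
    have e3 : l * A ≤ A * l ^ 2 := by rw [mul_comm l A]; exact Nat.mul_le_mul_left _ hll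
    calc 1 + l * E + 2 * (a1 * l * bb) + M0 + l * A ≤ 1 * l ^ 2 + E * l ^ 2 + 2 * (a1 * (A + C0) * l ^ 2) + M0 * l ^ 2 + A * l ^ 2 := by omega
      _ = _ := by ring
  have hwin : 4 * (q * X) + 5 ≤ k / (Jw + 1) := by
    rw [Nat.le_div_iff_mul_le (by omega)]
    have e1 := hl0 l hl0l
    calc (4 * (q * X) + 5) * (Jw + 1) ≤ (4 * (q * (c2 * l ^ 2)) + 5 * l ^ 2) * (c1 * l ^ 2) := by
          apply Nat.mul_le_mul _ hJw1
          apply Nat.add_le_add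
          · exact Nat.mul_le_mul_left _ (Nat.mul_le_mul_left _ hX1)
          · omega
      _ = c1 * (4 * (q * c2) + 5) * l ^ 4 := by ring
      _ ≤ 2 ^ (l - 1) := e1
      _ ≤ k := hkl'
  have hgX : gam b η ^ (q * X) ≤ (1 / 2) ^ X := by
    rw [pow_mul]
    exact pow_le_pow_left₀ (by positivity) hq.le X
  -- the set of primes
  set P : Finset ℕ := (pz z).filter (fun p => P0 < p) with hP
  have hPp : ∀ p ∈ P, p.Prime ∧ P0 < p ∧ p ≤ Y := by
    intro p hp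
    rw [hP, mem_filter] at hp
    exact ⟨(mem_pz.1 hp.1).2, hp.2, ((mem_pz.1 hp.1).1.trans hzY.le)⟩
  have hpM : ∀ p ∈ P, ¬ p ∣ M0 := by
    intro p hp hd
    obtain ⟨h1, h2, -⟩ := hPp p hp
    rw [hM0] at hd
    obtain ⟨p', hp', hd'⟩ := (h1.prime.dvd_finsetProd_iff _).1 hd
    rw [Nat.prime_dvd_prime_iff_eq h1 (hpz0 p' hp')] at hd'
    have := (mem_pz.1 hp').1
    omega
  have hb4 : b ^ 4 ≤ P0 := by omega
  have hκP : ∀ i, κ i ≤ P0 := by
    intro i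
    have : κ i ≤ ∑ i, κ i := single_le_sum (fun _ _ => Nat.zero_le _) (mem_univ i)
    omega
  obtain ⟨W, hW⟩ : ∃ W : ℕ → Prop, ∀ v, W v ↔ ∀ p ∈ pz P0, ¬ hit κ h p v := ⟨fun v => ∀ p ∈ pz P0, ¬ hit κ h p v, fun _ => Iff.rfl⟩
  have hWper : ∀ v, W v ↔ W (v % M0) := by
    intro v
    rw [hW, hW]
    have hd : ∀ p ∈ pz P0, p ∣ M0 := fun p hp => by rw [hM0]; exact dvd_prod_of_mem _ hp
    constructor
    · intro h1 p hp h2
      exact h1 p hp ((hit_dvd κ h p M0 v (hd p hp)).2 h2)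
    · intro h1 p hp h2
      exact h1 p hp ((hit_dvd κ h p M0 v (hd p hp)).1 h2)
  have hk1 : 1 ≤ k := by omega
  have hwt : ∀ m, 0 ≤ ∑ x ∈ Om b k, if dv b k x = m then pr k w u x else 0 := by
    intro m
    apply sum_nonneg
    intro x _
    split_ifs
    · exact pr_nonneg b k η w u hw hu x
    · exact le_rfl
  have key := hFL bb J P0 P (fun p => (nu κ h p : ℝ) / p) (by rw [hbb]; omega) (by omega) hPp (fun p hp => by
      obtain ⟨p1, p2, -⟩ := hPp p hp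
      have hp0 : (0 : ℝ) < p := by exact_mod_cast p1.pos
      have hp1 : (1 : ℝ) < p := by exact_mod_cast p1.one_lt
      refine ⟨by positivity, ?_⟩
      apply div_le_div₀ (Nat.cast_nonneg _) _ (by linarith) (by linarith)
      exact_mod_cast nu_le κ h hκ p p1 (fun i => by have := hκP i; omega))
    ((range (3 * b ^ k)).filter W) (fun m => ∑ x ∈ Om b k, if dv b k x = m then pr k w u x else 0) (fun p v => hit κ h p v)
    (Pb b k w u W) (fun _ => (D : ℝ) * M0 * (1 / 2) ^ X) (fun m _ => hwt m) (by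
      unfold Pb
      apply sum_nonneg
      intro x _
      split_ifs
      · exact pr_nonneg b k η w u hw hu x
      · exact le_rfl) (by
      intro T hT hTD
      have hTP : ∀ p ∈ T, p.Prime ∧ b ^ 4 < p ∧ ¬ p ∣ M0 := fun p hp =>
        ⟨(hPp p (hT hp)).1, by have := (hPp p (hT hp)).2.1; omega, hpM p (hT hp)⟩
      have h1 := joint b hb η hη hη1 k w u hw hu hu1 M0 hM01 W hWper (fun p v => hit κ h p v) T hTP
        (fun p _ v => hit_per κ h p v) Jw (q * X) (by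
          calc M0 * ∏ p ∈ T, p ≤ 2 ^ M0 * 2 ^ (a1 * l * bb) := Nat.mul_le_mul Nat.lt_two_pow_self.le (hTD.trans hDl)
            _ = 2 ^ Jw := by rw [hJw, pow_add]
            _ ≤ b ^ Jw := Nat.pow_le_pow_left hb _) hwin
      rw [filter_filter, sum_vals b k hb hk1 w u]
      have e1 : ∏ p ∈ T, ((((range p).filter ((fun p v => hit κ h p v) p)).card : ℝ) / p) = ∏ p ∈ T, ((nu κ h p : ℝ) / p) := rfl
      rw [e1] at h1
      refine h1.trans ?_
      have e2 : ((∏ p ∈ T, p : ℕ) : ℝ) ≤ D := by exact_mod_cast hTD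
      have e3 : (0 : ℝ) ≤ M0 := Nat.cast_nonneg _
      have e4 : 0 ≤ gam b η ^ (q * X) := by positivity
      gcongr)
  rw [filter_filter, sum_vals b k hb hk1 w u] at key
  have f1 : Pb b k w u (fun a => W a ∧ ∀ p ∈ P, ¬ hit κ h p a) = Pb b k w u (fun v => ∀ p ∈ pz z, ¬ hit κ h p v) := by
    congr 1
    funext v
    apply propext
    rw [hW]
    constructor
    · rintro ⟨h5, h6⟩ p hp
      by_cases h7 : P0 < p
      · exact h6 p (by rw [hP, mem_filter]; exact ⟨hp, h7⟩)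
      · exact h5 p (mem_pz.2 ⟨by omega, (mem_pz.1 hp).2⟩)
    · intro h5
      refine ⟨fun p hp => h5 p (mem_pz.2 ⟨?_, (mem_pz.1 hp).2⟩), fun p hp => h5 p (mem_filter.1 hp).1⟩
      have := (mem_pz.1 hp).1
      omega
  have f2 : Pb b k w u (fun v => ∀ p ∈ pz P0, ¬ hit κ h p v) = Pb b k w u W := by
    congr 1
    funext v
    exact propext (hW v).symm
  rw [f1] at key
  rw [← hz, f2]
  refine key.trans ?_
  -- the main error
  have hPb1 : Pb b k w u W ≤ 1 := by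
    unfold Pb
    rw [← pr_sum b k η w u hw hu1]
    apply sum_le_sum
    intro x _
    split_ifs
    · exact le_rfl
    · exact pr_nonneg b k η w u hw hu x
  have hPb0 : 0 ≤ Pb b k w u W := by
    unfold Pb
    apply sum_nonneg
    intro x _
    split_ifs
    · exact pr_nonneg b k η w u hw hu x
    · exact le_rfl
  have hfac : ∀ p ∈ P, 0 ≤ 1 - (nu κ h p : ℝ) / p ∧ 1 - (nu κ h p : ℝ) / p ≤ 1 := by
    intro p hp
    have hp0 : (0 : ℝ) < p := by exact_mod_cast (hPp p hp).1.pos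
    have h1 : (nu κ h p : ℝ) / p ≤ 1 := by
      rw [div_le_one hp0]
      have : nu κ h p ≤ p := by
        unfold nu
        exact (card_filter_le _ _).trans (by rw [card_range])
      exact_mod_cast this
    have h2 : 0 ≤ (nu κ h p : ℝ) / p := by positivity
    constructor <;> linarith
  have hprod : ∏ p ∈ P, (1 - (nu κ h p : ℝ) / p) ≤ 1 := prod_le_one (fun p hp => (hfac p hp).1) (fun p hp => (hfac p hp).2)
  have hprod0 : 0 ≤ ∏ p ∈ P, (1 - (nu κ h p : ℝ) / p) := prod_nonneg (fun p hp => (hfac p hp).1)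
  have hkr : (0 : ℝ) < k := by exact_mod_cast (by omega : 0 < k)
  have hkA : (k : ℝ) ^ A ≤ 2 ^ (A * l) := by
    have : k ^ A ≤ 2 ^ (A * l) := by
      rw [mul_comm, pow_mul]
      exact Nat.pow_le_pow_left hkl.le A
    exact_mod_cast this
  have herr1 : (1 / 2 : ℝ) ^ bb * (Pb b k w u W * ∏ p ∈ P, (1 - (nu κ h p : ℝ) / p)) ≤ 1 / (k : ℝ) ^ A := by
    have e1 : (1 / 2 : ℝ) ^ bb ≤ 1 / (k : ℝ) ^ A := by
      rw [one_div_pow]
      apply one_div_le_one_div_of_le (by positivity)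
      refine hkA.trans ?_
      apply pow_le_pow_right₀ (by norm_num)
      omega
    calc (1 / 2 : ℝ) ^ bb * (Pb b k w u W * ∏ p ∈ P, (1 - (nu κ h p : ℝ) / p)) ≤ (1 / (k : ℝ) ^ A) * (1 * 1) := by
          gcongr
      _ = _ := by ring
  have hcard : (P.powerset.filter (fun T : Finset ℕ => ∏ p ∈ T, p ≤ D)).card ≤ D := by
    calc _ ≤ (Icc 1 D).card := by
          apply card_le_card_of_injOn (fun T : Finset ℕ => ∏ p ∈ T, p)
          · intro T hT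
            rw [mem_coe, mem_filter, mem_powerset] at hT
            have h5 : 1 ≤ ∏ p ∈ T, p := Nat.pos_of_ne_zero (prod_ne_zero_iff.2 fun p hp => (hPp p (hT.1 hp)).1.ne_zero)
            exact mem_coe.2 (mem_Icc.2 ⟨h5, hT.2⟩)
          · intro T hT T' hT' h
            rw [mem_coe, mem_filter, mem_powerset] at hT hT'
            exact prod_inj T T' (fun p hp => (hPp p (hT.1 hp)).1) (fun p hp => (hPp p (hT'.1 hp)).1) h
      _ = D := by rw [Nat.card_Icc]; omega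
  have herr2 : ((J : ℝ) + 2) * ∑ T ∈ P.powerset.filter (fun T : Finset ℕ => ∏ p ∈ T, p ≤ D), ((D : ℝ) * M0 * (1 / 2) ^ X) ≤
      1 / (k : ℝ) ^ A := by
    rw [sum_const, nsmul_eq_mul]
    have e1 : (J : ℝ) + 2 ≤ 2 ^ (1 + l * E) := by
      have : J + 2 ≤ 2 ^ (1 + l * E) := by
        refine hJz.trans ?_
        rw [pow_add, pow_one]
        exact Nat.mul_le_mul_left _ hzl
      exact_mod_cast this
    have e2 : (D : ℝ) ≤ 2 ^ (a1 * l * bb) := by exact_mod_cast hDl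
    have e3 : (M0 : ℝ) ≤ 2 ^ M0 := by exact_mod_cast Nat.lt_two_pow_self.le
    have e4 : (((P.powerset.filter (fun T : Finset ℕ => ∏ p ∈ T, p ≤ D)).card : ℕ) : ℝ) ≤ 2 ^ (a1 * l * bb) :=
      le_trans (by exact_mod_cast hcard) e2
    rw [le_div_iff₀ (by positivity)]
    calc ((J : ℝ) + 2) * ((((P.powerset.filter (fun T : Finset ℕ => ∏ p ∈ T, p ≤ D)).card : ℕ) : ℝ) * ((D : ℝ) * M0 * (1 / 2) ^ X)) * (k : ℝ) ^ A
        ≤ 2 ^ (1 + l * E) * (2 ^ (a1 * l * bb) * (2 ^ (a1 * l * bb) * 2 ^ M0 * (1 / 2) ^ X)) * 2 ^ (A * l) :=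
          prod_bound _ _ _ _ _ _ _ _ _ _ (by positivity) (Nat.cast_nonneg _) (Nat.cast_nonneg _) (Nat.cast_nonneg _) (by positivity)
            (by positivity) e1 e4 e2 e3 hkA
      _ = (2 ^ (1 + l * E) * 2 ^ (a1 * l * bb) * 2 ^ (a1 * l * bb) * 2 ^ M0 * 2 ^ (A * l)) * (1 / 2) ^ X := by ring
      _ = 2 ^ X * (1 / 2) ^ X := by
          rw [← pow_add, ← pow_add, ← pow_add, ← pow_add]
          congr 2
          rw [hX]
          ring
      _ = 1 := by rw [← mul_pow]; norm_num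
  have hfin : 2 / (k : ℝ) ^ A = 1 / (k : ℝ) ^ A + 1 / (k : ℝ) ^ A := by ring
  rw [hfin]
  exact add_le_add herr1 herr2

end Pool.Agent.Q236.PD
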