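import Pool.Agent.Q236.PD.Bad
import Pool.Agent.TH872.Transfer
import Pool.Agent.H373R2.T7.LamZ2

/-! Palindromes and shifts, part 3: the theorem with arbitrary weights. -/

set_option autoImplicit false

namespace Pool.Agent.Q236.PD

open Finset
open Pool.Agent.H373R2.T7
open Pool.Agent.TH872.Mir
open Pool.Agent.TH872.Tr (Pairs)

/-- the integer with the pairs of digits `d i` at the positions `i` and `k - 1 - i`, `i < k / 2`, and, if `k` is odd, the digit
`z` in the middle -/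
def dv (b k : ℕ) (x : (Fin (k / 2) → ℕ × ℕ) × ℕ) : ℕ :=
  ∑ i : Fin (k / 2), ((x.1 i).1 * b ^ (i : ℕ) + (x.1 i).2 * b ^ (k - 1 - (i : ℕ))) + k % 2 * x.2 * b ^ (k / 2)

/-- the strings of digits -/
def Om (b k : ℕ) : Finset ((Fin (k / 2) → ℕ × ℕ) × ℕ) :=
  (Fintype.piFinset (fun _ : Fin (k / 2) => range b ×ˢ range b)) ×ˢ range b

/-- the probability of a string -/
noncomputable def pr (k : ℕ) (w : ℕ → ℕ × ℕ → ℝ) (u : ℕ → ℝ) (x : (Fin (k / 2) → ℕ × ℕ) × ℕ) : ℝ :=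
  (∏ i : Fin (k / 2), w i (x.1 i)) * u x.2

lemma dv_eq (b m s : ℕ) (hs : s ≤ 1) (x : (Fin ((2 * m + s) / 2) → ℕ × ℕ) × ℕ) :
    dv b (2 * m + s) x = ∑ i : Fin ((2 * m + s) / 2), ((x.1 i).1 * b ^ (i : ℕ) + (x.1 i).2 * b ^ (2 * m + s - 1 - (i : ℕ))) +
      s * x.2 * b ^ m := by
  have h : b ^ ((2 * m + s) / 2) = b ^ m := by congr 1; omega
  unfold dv
  rw [show (2 * m + s) % 2 = s by omega, h]

lemma pr_nonneg (b k : ℕ) (η : ℝ) (w : ℕ → ℕ × ℕ → ℝ) (u : ℕ → ℝ) (hw : Pairs b k η w) (hu : ∀ a, 0 ≤ u a)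
    (x : (Fin (k / 2) → ℕ × ℕ) × ℕ) : 0 ≤ pr k w u x :=
  mul_nonneg (prod_nonneg fun i _ => hw.nonneg i i.2 _) (hu _)

lemma pr_sum (b k : ℕ) (η : ℝ) (w : ℕ → ℕ × ℕ → ℝ) (u : ℕ → ℝ) (hw : Pairs b k η w) (hu1 : ∑ a ∈ range b, u a = 1) :
    ∑ x ∈ Om b k, pr k w u x = 1 := by
  unfold Om pr
  rw [sum_product]
  simp only [← mul_sum]
  rw [hu1]
  simp only [mul_one]
  rw [← prod_univ_sum]
  apply prod_eq_one
  intro i _
  exact hw.sum i i.2

lemma dv_lt (b k : ℕ) (hb : 2 ≤ b) (x : (Fin (k / 2) → ℕ × ℕ) × ℕ) (hx : x ∈ Om b k) (hk : 1 ≤ k) : dv b k x < 3 * b ^ k := by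
  obtain ⟨m, s, hs, rfl⟩ : ∃ m s, s ≤ 1 ∧ k = 2 * m + s := ⟨k / 2, k % 2, by omega, by omega⟩
  have hm : (2 * m + s) / 2 = m := by omega
  unfold Om at hx
  rw [mem_product] at hx
  have h1 : ∑ i : Fin ((2 * m + s) / 2), ((x.1 i).1 * b ^ (i : ℕ) + (x.1 i).2 * b ^ (2 * m + s - 1 - (i : ℕ))) < 2 * b ^ (2 * m + s) := by
    have h2 : ∀ (n : ℕ) (hn : n = m) (d : Fin n → ℕ × ℕ) (_ : d ∈ Fintype.piFinset (fun _ : Fin n => range b ×ˢ range b)),
        ∑ i : Fin n, ((d i).1 * b ^ (i : ℕ) + (d i).2 * b ^ (2 * m + s - 1 - (i : ℕ))) < 2 * b ^ (2 * m + s) := by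
      intro n hn d hd
      subst hn
      exact val_lt b n s (by omega) d hd
    exact h2 _ hm x.1 hx.1
  rw [dv_eq b m s hs]
  have h3 : s * x.2 * b ^ m ≤ b ^ (2 * m + s) := by
    have h4 : x.2 < b := mem_range.1 hx.2
    interval_cases s
    · simp
    · calc 1 * x.2 * b ^ m ≤ b * b ^ m := by rw [one_mul]; exact Nat.mul_le_mul_right _ h4.le
        _ = b ^ (m + 1) := by ring
        _ ≤ b ^ (2 * m + 1) := Nat.pow_le_pow_right (by omega) (by omega)
  omega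

open Classical in
/-- a sum over the strings -/
lemma sum_Om (b m s : ℕ) (hs : s ≤ 1) (w : ℕ → ℕ × ℕ → ℝ) (u : ℕ → ℝ) (P : ℕ → Prop) :
    ∑ x ∈ Om b (2 * m + s), (if P (dv b (2 * m + s) x) then pr (2 * m + s) w u x else 0) =
      ∑ z ∈ range b, u z * ∑ g ∈ Gs b m, (if P (val b (2 * m + s) g + s * z * b ^ m) then pw w g else 0) := by
  have hgen : ∀ (n : ℕ) (hn : n = m), ∑ d ∈ Fintype.piFinset (fun _ : Fin n => range b ×ˢ range b), ∑ z ∈ range b,
      (if P (∑ i : Fin n, ((d i).1 * b ^ (i : ℕ) + (d i).2 * b ^ (2 * m + s - 1 - (i : ℕ))) + s * z * b ^ m) then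
        (∏ i : Fin n, w i (d i)) * u z else 0) =
      ∑ z ∈ range b, u z * ∑ g ∈ Gs b m, (if P (val b (2 * m + s) g + s * z * b ^ m) then pw w g else 0) := by
    intro n hn
    subst hn
    rw [sum_comm]
    apply sum_congr rfl
    intro z _
    rw [mul_sum]
    apply sum_congr rfl
    intro d _
    unfold Pool.Agent.TH872.Mir.val pw
    split_ifs
    · ring
    · ring
  rw [← hgen _ (show (2 * m + s) / 2 = m by omega)]
  unfold Om
  rw [sum_product]
  apply sum_congr rfl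
  intro d _
  apply sum_congr rfl
  intro z _
  rw [dv_eq b m s hs]
  rfl

/-- the model and `Λ` at numbers of size `b ^ k` -/
lemma bounds (b C E : ℕ) (hb : 2 ≤ b) : ∃ k0 : ℕ, ∀ k : ℕ, k0 ≤ k → ∀ n : ℕ, n ≤ C * b ^ k →
    |ArithmeticFunction.vonMangoldt n| ≤ (k : ℝ) ^ 2 ∧ |lamz (k ^ E) n| ≤ (k : ℝ) ^ 2 := by
  obtain ⟨N0, h0⟩ := Vz_inv_small (2 * E)
  refine ⟨N0 + C + b + 4, fun k hk n hn => ?_⟩
  have hbr : (2 : ℝ) ≤ b := by exact_mod_cast hb
  have hkr : (4 : ℝ) ≤ k := by exact_mod_cast (by omega : 4 ≤ k)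
  have hlogb : Real.log b ≤ b - 1 := Real.log_le_sub_one_of_pos (by linarith)
  have hlb : 1 / 2 ≤ Real.log b := by
    have q1 : Real.log 2 ≤ Real.log b := Real.log_le_log (by norm_num) hbr
    linarith [Real.log_two_gt_d9]
  have hbk : (b : ℝ) ≤ k := by exact_mod_cast (by omega : b ≤ k)
  have hL : Real.log ((b ^ k : ℕ) : ℝ) = k * Real.log b := by push_cast; rw [Real.log_pow]
  constructor
  · rw [abs_of_nonneg ArithmeticFunction.vonMangoldt_nonneg]
    rcases Nat.eq_zero_or_pos n with rfl | hn0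
    · simp
    refine ArithmeticFunction.vonMangoldt_le_log.trans ?_
    have h1 : Real.log n ≤ Real.log (C * b ^ k : ℕ) := by
      apply Real.log_le_log (by exact_mod_cast hn0)
      exact_mod_cast hn
    have hC : 0 < C := by
      rcases Nat.eq_zero_or_pos C with rfl | h
      · omega
      · exact h
    have h2 : Real.log (C * b ^ k : ℕ) = Real.log C + k * Real.log b := by
      push_cast
      rw [Real.log_mul (by positivity) (by positivity), Real.log_pow]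
    have h3 : Real.log C ≤ C - 1 := Real.log_le_sub_one_of_pos (by exact_mod_cast hC)
    have h4 : (C : ℝ) + b + 4 ≤ k := by exact_mod_cast (by omega : C + b + 4 ≤ k)
    rw [h2] at h1
    have hC0 : (0 : ℝ) ≤ C := Nat.cast_nonneg _
    nlinarith
  · have hV : (Vz (k ^ E))⁻¹ ≤ Real.log ((b ^ k : ℕ) : ℝ) := by
      apply h0 (b ^ k) _ (k ^ E) (Nat.one_le_pow _ _ (by omega))
      · rw [hL]
        push_cast
        rw [pow_mul]
        apply pow_le_pow_left₀ (by positivity)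
        have : 1 / 2 * (k : ℝ) ≤ k * Real.log b := by nlinarith
        nlinarith
      · have : k < b ^ k := Nat.lt_pow_self (by omega)
        omega
    have hV0 : 0 ≤ (Vz (k ^ E))⁻¹ := inv_nonneg.2 (Vz_pos _).le
    have h5 : |lamz (k ^ E) n| ≤ (Vz (k ^ E))⁻¹ := by
      unfold lamz
      split_ifs
      · rw [abs_of_nonneg hV0]
      · simpa using hV0
    refine h5.trans (hV.trans ?_)
    rw [hL, sq]
    apply mul_le_mul_of_nonneg_left _ (by positivity)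
    linarith

end Pool.Agent.Q236.PD
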