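import Pool.Agent.Q236.PD.Count3
import Pool.Agent.TH872.Pal

/-! Palindromes and shifts, part 11: sets given by their mirror pairs of digits. -/

set_option autoImplicit false

namespace Pool.Agent.Q236.PD

open Finset
open Pool.Agent.H373R2.T7
open Pool.Agent.TH872.Mir
open Pool.Agent.TH872.Tr (Pairs)

/-- the integers `v < b ^ k` whose digits at the positions `i` and `k - 1 - i` form a pair of `R i` for all `i < k / 2`, and
whose middle digit is in `Z` if `k` is odd -/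
def MSet (b k : ℕ) (R : ℕ → Finset (ℕ × ℕ)) (Z : Finset ℕ) : Finset ℕ :=
  (range (b ^ k)).filter fun v => (∀ i < k / 2, (v / b ^ i % b, v / b ^ (k - 1 - i) % b) ∈ R i) ∧
    (k % 2 = 1 → v / b ^ (k / 2) % b ∈ Z)

/-- admissible sets of pairs -/
structure MAdm (b : ℕ) (R : ℕ → Finset (ℕ × ℕ)) (Z : Finset ℕ) : Prop where
  dig : ∀ i, R i ⊆ range b ×ˢ range b
  ne : ∀ i, (R i).Nonempty
  two : ∀ i, 1 ≤ i → ∃ a ∈ R i, ∃ a' ∈ R i, a.1 ≠ a'.1 ∧ a.2 ≠ a'.2
  mid : Z ⊆ range b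
  midne : Z.Nonempty

/-- the digit -/
def dgt (k : ℕ) (x : (Fin (k / 2) → ℕ × ℕ) × ℕ) (j : ℕ) : ℕ :=
  if h : j < k / 2 then (x.1 ⟨j, h⟩).1 else if h' : k - 1 - j < k / 2 then (x.1 ⟨k - 1 - j, h'⟩).2 else x.2

lemma dgt_left (k : ℕ) (x : (Fin (k / 2) → ℕ × ℕ) × ℕ) (i : Fin (k / 2)) : dgt k x i = (x.1 i).1 := by
  unfold dgt
  rw [dif_pos i.2]

lemma dgt_right (k : ℕ) (x : (Fin (k / 2) → ℕ × ℕ) × ℕ) (i : Fin (k / 2)) : dgt k x (k - 1 - (i : ℕ)) = (x.1 i).2 := by
  have hi := i.2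
  unfold dgt
  rw [dif_neg (by omega), dif_pos (by omega)]
  have h1 : (⟨k - 1 - (k - 1 - (i : ℕ)), by omega⟩ : Fin (k / 2)) = i := by
    apply Fin.ext
    simp only
    omega
  rw [h1]

lemma dgt_mid (k : ℕ) (hk : k % 2 = 1) (x : (Fin (k / 2) → ℕ × ℕ) × ℕ) : dgt k x (k / 2) = x.2 := by
  unfold dgt
  rw [dif_neg (by omega), dif_neg (by omega)]

lemma dv_dgt (b k : ℕ) (x : (Fin (k / 2) → ℕ × ℕ) × ℕ) : dv b k x = ∑ j ∈ range k, dgt k x j * b ^ j := by
  have hk2 : 2 * (k / 2) + k % 2 = k := Nat.div_add_mod k 2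
  have h1 := Pool.Agent.TH872.Mir.split_sum (k / 2) (k % 2) (fun j => dgt k x j * b ^ j)
  rw [hk2] at h1
  rw [h1]
  unfold dv
  congr 1
  · rw [← Fin.sum_univ_eq_sum_range (fun i => dgt k x i * b ^ i + dgt k x (k - 1 - i) * b ^ (k - 1 - i)) (k / 2)]
    apply sum_congr rfl
    intro i _
    rw [dgt_left, dgt_right]
  · rcases Nat.mod_two_eq_zero_or_one k with h | h
    · rw [h]; simp
    · rw [h, sum_range_one, Nat.add_zero, dgt_mid k h, one_mul]

lemma sum_lt (b : ℕ) (hb : 0 < b) (f : ℕ → ℕ) : ∀ k : ℕ, (∀ i < k, f i < b) → ∑ i ∈ range k, f i * b ^ i < b ^ k := by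
  intro k
  induction k with
  | zero => intro _; simp
  | succ k ih =>
    intro hf
    rw [sum_range_succ]
    have h1 := ih (fun i hi => hf i (by omega))
    have h2 : f k * b ^ k ≤ (b - 1) * b ^ k := Nat.mul_le_mul_right _ (by have := hf k (by omega); omega)
    calc ∑ i ∈ range k, f i * b ^ i + f k * b ^ k < b ^ k + (b - 1) * b ^ k := by omega
      _ = b ^ (k + 1) := by
        rw [pow_succ, mul_comm (b ^ k) b]
        obtain ⟨c, rfl⟩ : ∃ c, b = c + 1 := ⟨b - 1, by omega⟩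
        rw [Nat.add_sub_cancel]
        ring

/-- the middle digits -/
def ZZ (k : ℕ) (Z : Finset ℕ) : Finset ℕ := if k % 2 = 1 then Z else {0}

/-- the strings of the set -/
def SX (k : ℕ) (R : ℕ → Finset (ℕ × ℕ)) (Z : Finset ℕ) : Finset ((Fin (k / 2) → ℕ × ℕ) × ℕ) :=
  (Fintype.piFinset (fun i : Fin (k / 2) => R i)) ×ˢ ZZ k Z

/-- the uniform laws -/
noncomputable def wR (R : ℕ → Finset (ℕ × ℕ)) (i : ℕ) (a : ℕ × ℕ) : ℝ := if a ∈ R i then 1 / ((R i).card : ℝ) else 0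

/-- the uniform law of the middle digit -/
noncomputable def uZ (k : ℕ) (Z : Finset ℕ) (a : ℕ) : ℝ := if a ∈ ZZ k Z then 1 / ((ZZ k Z).card : ℝ) else 0

/-- the string of digits of a number -/
def str (b k v : ℕ) : (Fin (k / 2) → ℕ × ℕ) × ℕ :=
  (fun i => (v / b ^ (i : ℕ) % b, v / b ^ (k - 1 - (i : ℕ)) % b), if k % 2 = 1 then v / b ^ (k / 2) % b else 0)

lemma dgt_str (b k v j : ℕ) (hj : j < k) : dgt k (str b k v) j = v / b ^ j % b := by
  unfold dgt str
  by_cases h : j < k / 2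
  · rw [dif_pos h]
  · rw [dif_neg h]
    by_cases h' : k - 1 - j < k / 2
    · rw [dif_pos h']
      simp only
      rw [show k - 1 - (k - 1 - j) = j by omega]
    · rw [dif_neg h']
      simp only
      rw [if_pos (by omega), show k / 2 = j by omega]

variable {b k : ℕ} {R : ℕ → Finset (ℕ × ℕ)} {Z : Finset ℕ}

lemma ZZ_sub (hb : 2 ≤ b) (h : MAdm b R Z) : ZZ k Z ⊆ range b := by
  unfold ZZ
  split_ifs
  · exact h.mid
  · intro x hx
    rw [mem_singleton] at hx
    rw [mem_range, hx]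
    omega

lemma ZZ_ne (h : MAdm b R Z) : (ZZ k Z).Nonempty := by
  unfold ZZ
  split_ifs
  · exact h.midne
  · exact singleton_nonempty _

lemma SX_sub (hb : 2 ≤ b) (h : MAdm b R Z) : SX k R Z ⊆ Om b k := by
  unfold SX Om
  apply product_subset_product _ (ZZ_sub hb h)
  intro x hx
  rw [Fintype.mem_piFinset] at hx ⊢
  intro i
  exact h.dig i (hx i)

lemma dgt_lt (hb : 2 ≤ b) (h : MAdm b R Z) (x : (Fin (k / 2) → ℕ × ℕ) × ℕ) (hx : x ∈ SX k R Z) (j : ℕ) : dgt k x j < b := by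
  have h1 := SX_sub hb h hx
  unfold Om at h1
  rw [mem_product, Fintype.mem_piFinset] at h1
  unfold dgt
  split_ifs with h2 h3
  · exact mem_range.1 (mem_product.1 (h1.1 ⟨j, h2⟩)).1
  · exact mem_range.1 (mem_product.1 (h1.1 ⟨k - 1 - j, h3⟩)).2
  · exact mem_range.1 h1.2

lemma dv_mem (hb : 2 ≤ b) (h : MAdm b R Z) (x : (Fin (k / 2) → ℕ × ℕ) × ℕ) (hx : x ∈ SX k R Z) : dv b k x ∈ MSet b k R Z := by
  have hb0 : 0 < b := by omega
  have hd : ∀ j < k, dv b k x / b ^ j % b = dgt k x j := by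
    intro j hj
    rw [dv_dgt]
    exact Pool.Agent.TH872.Mir.digit_sum b hb0 _ k (fun i _ => dgt_lt hb h x hx i) j hj
  unfold SX at hx
  rw [mem_product, Fintype.mem_piFinset] at hx
  unfold MSet
  rw [mem_filter, mem_range]
  refine ⟨?_, ?_, ?_⟩
  · rw [dv_dgt]
    exact sum_lt b hb0 _ k (fun i _ => dgt_lt hb h x (by unfold SX; rw [mem_product, Fintype.mem_piFinset]; exact hx) i)
  · intro i hi
    rw [hd i (by omega), hd (k - 1 - i) (by omega)]
    have e1 := dgt_left k x ⟨i, hi⟩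
    have e2 := dgt_right k x ⟨i, hi⟩
    simp only at e1 e2
    rw [e1, e2]
    exact hx.1 ⟨i, hi⟩
  · intro hk
    rw [hd (k / 2) (by omega), dgt_mid k hk]
    have := hx.2
    unfold ZZ at this
    rw [if_pos hk] at this
    exact this

lemma str_mem (v : ℕ) (hv : v ∈ MSet b k R Z) : str b k v ∈ SX k R Z := by
  unfold MSet at hv
  rw [mem_filter] at hv
  obtain ⟨-, h1, h2⟩ := hv
  unfold SX str ZZ
  rw [mem_product, Fintype.mem_piFinset]
  refine ⟨fun i => h1 i i.2, ?_⟩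
  simp only
  split_ifs with h3
  · exact h2 h3
  · exact mem_singleton_self 0

lemma dv_str (hb : 2 ≤ b) (v : ℕ) (hv : v < b ^ k) : dv b k (str b k v) = v := by
  rw [dv_dgt]
  rw [← Pool.Agent.TH872.Mir.sum_digits b (by omega) k v hv]
  apply sum_congr rfl
  intro j hj
  rw [dgt_str b k _ j (mem_range.1 hj), Pool.Agent.TH872.Mir.sum_digits b (by omega) k v hv]

lemma str_dv (hb : 2 ≤ b) (h : MAdm b R Z) (x : (Fin (k / 2) → ℕ × ℕ) × ℕ) (hx : x ∈ SX k R Z) : str b k (dv b k x) = x := by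
  have hb0 : 0 < b := by omega
  have hd : ∀ j < k, dv b k x / b ^ j % b = dgt k x j := by
    intro j hj
    rw [dv_dgt]
    exact Pool.Agent.TH872.Mir.digit_sum b hb0 _ k (fun i _ => dgt_lt hb h x hx i) j hj
  unfold str
  ext i
  · simp only
    have hi := i.2
    rw [hd i (by omega), dgt_left]
  · simp only
    have hi := i.2
    rw [hd (k - 1 - i) (by omega), dgt_right]
  · simp only
    unfold SX ZZ at hx
    rw [mem_product] at hx
    split_ifs with h3
    · rw [hd (k / 2) (by omega), dgt_mid k h3]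
    · have := hx.2
      rw [if_neg h3, mem_singleton] at this
      exact this.symm

lemma wR_nonneg (i : ℕ) (a : ℕ × ℕ) : 0 ≤ wR R i a := by
  unfold wR
  split_ifs
  · positivity
  · exact le_rfl

lemma uZ_nonneg (a : ℕ) : 0 ≤ uZ k Z a := by
  unfold uZ
  split_ifs
  · positivity
  · exact le_rfl

lemma uZ_sum (hb : 2 ≤ b) (h : MAdm b R Z) : ∑ a ∈ range b, uZ k Z a = 1 := by
  unfold uZ
  rw [← sum_filter, filter_mem_eq_inter, inter_eq_right.2 (ZZ_sub hb h), sum_const, nsmul_eq_mul]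
  have : (0 : ℝ) < (ZZ k Z).card := by exact_mod_cast (ZZ_ne h).card_pos
  field_simp

lemma wR_pairs (hb : 2 ≤ b) (h : MAdm b R Z) : Pairs b k (1 / (b : ℝ) ^ 4) (wR R) := by
  have hc : ∀ i, (0 : ℝ) < (R i).card := fun i => by exact_mod_cast (h.ne i).card_pos
  have hcb : ∀ i, ((R i).card : ℝ) ≤ (b : ℝ) ^ 2 := by
    intro i
    have h1 := card_le_card (h.dig i)
    rw [card_product, card_range] at h1
    have : (((R i).card : ℕ) : ℝ) ≤ ((b * b : ℕ) : ℝ) := by exact_mod_cast h1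
    push_cast at this
    linarith [sq (b : ℝ)]
  have hbr : (0 : ℝ) < b := by exact_mod_cast (by omega : 0 < b)
  refine ⟨fun i _ a => wR_nonneg i a, fun i _ => ?_, fun i _ hi1 => ?_⟩
  · unfold wR
    rw [← sum_filter, filter_mem_eq_inter, inter_eq_right.2 (h.dig i), sum_const, nsmul_eq_mul]
    have := hc i
    field_simp
  · obtain ⟨a, ha, a', ha', h1, h2⟩ := h.two i hi1
    have e1 : ∀ a ∈ range b ×ˢ range b, ∀ a' ∈ range b ×ˢ range b, 0 ≤ (if a.1 ≠ a'.1 ∧ a.2 ≠ a'.2 then wR R i a * wR R i a' else 0) := by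
      intro a _ a' _
      split_ifs
      · exact mul_nonneg (wR_nonneg i a) (wR_nonneg i a')
      · exact le_rfl
    have e2 : ∑ a' ∈ range b ×ˢ range b, (if a.1 ≠ a'.1 ∧ a.2 ≠ a'.2 then wR R i a * wR R i a' else 0) ≤
        ∑ a ∈ range b ×ˢ range b, ∑ a' ∈ range b ×ˢ range b, (if a.1 ≠ a'.1 ∧ a.2 ≠ a'.2 then wR R i a * wR R i a' else 0) :=
      single_le_sum (f := fun a => ∑ a' ∈ range b ×ˢ range b, (if a.1 ≠ a'.1 ∧ a.2 ≠ a'.2 then wR R i a * wR R i a' else 0))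
        (fun a ha => sum_nonneg (e1 a ha)) (h.dig i ha)
    have e3 : (if a.1 ≠ a'.1 ∧ a.2 ≠ a'.2 then wR R i a * wR R i a' else 0) ≤
        ∑ a' ∈ range b ×ˢ range b, (if a.1 ≠ a'.1 ∧ a.2 ≠ a'.2 then wR R i a * wR R i a' else 0) :=
      single_le_sum (f := fun a' => (if a.1 ≠ a'.1 ∧ a.2 ≠ a'.2 then wR R i a * wR R i a' else 0))
        (fun a' ha' => e1 a (h.dig i ha) a' ha') (h.dig i ha')
    refine le_trans ?_ (e3.trans e2)
    rw [if_pos ⟨h1, h2⟩]
    unfold wR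
    rw [if_pos ha, if_pos ha', div_mul_div_comm, one_mul]
    apply one_div_le_one_div_of_le (mul_pos (hc i) (hc i))
    calc ((R i).card : ℝ) * (R i).card ≤ (b : ℝ) ^ 2 * (b : ℝ) ^ 2 := mul_le_mul (hcb i) (hcb i) (hc i).le (by positivity)
      _ = _ := by ring

/-- the expectation over the strings is the mean over the set -/
lemma law_sum (hb : 2 ≤ b) (h : MAdm b R Z) (f : ℕ → ℝ) :
    (MSet b k R Z).Nonempty ∧ ∑ x ∈ Om b k, pr k (wR R) (uZ k Z) x * f (dv b k x) = (∑ v ∈ MSet b k R Z, f v) / ((MSet b k R Z).card : ℝ) := by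
  have key : ∃ c : ℝ, ∀ g : ℕ → ℝ, ∑ x ∈ Om b k, pr k (wR R) (uZ k Z) x * g (dv b k x) = c * ∑ v ∈ MSet b k R Z, g v := by
    refine ⟨(∏ i : Fin (k / 2), 1 / ((R i).card : ℝ)) * (1 / ((ZZ k Z).card : ℝ)), fun g => ?_⟩
    rw [← sum_subset (SX_sub hb h) (fun x hx hx' => ?_)]
    swap
    · unfold SX at hx'
      rw [mem_product, Fintype.mem_piFinset] at hx'
      have : pr k (wR R) (uZ k Z) x = 0 := by
        unfold pr
        rw [not_and_or] at hx'
        rcases hx' with h1 | h1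
        · push Not at h1
          obtain ⟨i, hi⟩ := h1
          rw [prod_eq_zero (mem_univ i), zero_mul]
          unfold wR
          rw [if_neg hi]
        · unfold uZ
          rw [if_neg h1, mul_zero]
      rw [this, zero_mul]
    rw [mul_sum]
    apply sum_nbij' (dv b k) (str b k)
    · intro x hx
      exact dv_mem hb h x hx
    · intro v hv
      exact str_mem v hv
    · intro x hx
      exact str_dv hb h x hx
    · intro v hv
      unfold MSet at hv
      rw [mem_filter, mem_range] at hv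
      exact dv_str hb v hv.1
    · intro x hx
      unfold SX at hx
      rw [mem_product, Fintype.mem_piFinset] at hx
      congr 1
      unfold pr
      congr 1
      · apply prod_congr rfl
        intro i _
        unfold wR
        rw [if_pos (hx.1 i)]
      · unfold uZ
        rw [if_pos hx.2]
  obtain ⟨c, hc⟩ := key
  have h1 := hc (fun _ => 1)
  simp only [mul_one] at h1
  rw [pr_sum b k (1 / (b : ℝ) ^ 4) _ _ (wR_pairs hb h) (uZ_sum hb h), sum_const, nsmul_eq_mul, mul_one] at h1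
  have hne : ((MSet b k R Z).card : ℝ) ≠ 0 := by
    intro h0
    rw [h0, mul_zero] at h1
    exact one_ne_zero h1
  have hne' : (MSet b k R Z).Nonempty := by
    rw [nonempty_iff_ne_empty]
    intro he
    rw [he] at hne
    simp at hne
  refine ⟨hne', ?_⟩
  rw [hc f, eq_div_iff hne]
  have h2 : c * ((MSet b k R Z).card : ℝ) = 1 := h1.symm
  calc c * (∑ v ∈ MSet b k R Z, f v) * ((MSet b k R Z).card : ℝ) = (c * ((MSet b k R Z).card : ℝ)) * ∑ v ∈ MSet b k R Z, f v := by ring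
    _ = _ := by rw [h2, one_mul]

end Pool.Agent.Q236.PD
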